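import Pool.Agent.Helper33.HK.Max

/-!
# The images are asymptotically absolutely continuous with respect to a jointly invariant measure
-/

set_option autoImplicit false

open MeasureTheory Filter Topology Set
open scoped ENNReal

namespace Pool.Agent.Helper33.HK

open Pool.Agent.K3h68.IL Pool.Agent.R202.STP

lemma img_apply (n : ℕ) (μ : Measure UnitAddCircle) {A : Set UnitAddCircle} (hA : MeasurableSet A) :
    img n μ A = μ ((fun x : UnitAddCircle => n • x) ⁻¹' A) := Measure.map_apply (meas_nsmul _) hA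

theorem exists_asymp {p q r : ℕ} (hp : 2 ≤ p) (hq : 2 ≤ q) (hr : 2 ≤ r) (hrq : r ∣ q)
    (hrp : Nat.Coprime r p) {σ : Measure UnitAddCircle} [IsProbabilityMeasure σ]
    (hσ : MeasurePreserving (fun x : UnitAddCircle => p • x) σ σ) (hs : σ ⟂ₘ volume) {K : Set ℕ}
    (hK : PosDensity K) (h : UAC q σ K) :
    ∃ (ρ : Measure UnitAddCircle) (C : Set UnitAddCircle), JI p q (msum q σ) ρ ∧ MeasurableSet C ∧
      ρ Cᶜ = 0 ∧ (∀ A, MeasurableSet A → ρ A = 0 → msum q σ (A ∩ C) = 0) ∧
      Tendsto (fun k => img (q ^ k) σ Cᶜ) atTop (𝓝 0) := by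
  obtain ⟨ρ, C, hρ, hC, hC0, hCac, hmax⟩ := exists_max (p := p) (q := q) (M := msum q σ)
    (exists_inv_sing hp hq hr hrq hrp hσ hs hK (h.primAC r))
  refine ⟨ρ, C, hρ, hC, hC0, hCac, ?_⟩
  have hTp : Measurable fun x : UnitAddCircle => p • x := meas_nsmul p
  have hTq : Measurable fun x : UnitAddCircle => q • x := meas_nsmul q
  -- invariance of `C`
  have hCp : msum q σ (C \ (fun x : UnitAddCircle => p • x) ⁻¹' C) = 0 := by
    have h1 : ρ ((fun x : UnitAddCircle => p • x) ⁻¹' C)ᶜ = 0 := by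
      rw [← preimage_compl, hρ.2.1.measure_preimage hC.compl.nullMeasurableSet, hC0]
    have h2 := hCac _ (hTp hC).compl h1
    rwa [inter_comm, ← sdiff_eq] at h2
  have hCq : msum q σ (C \ (fun x : UnitAddCircle => q • x) ⁻¹' C) = 0 := by
    have h1 : ρ ((fun x : UnitAddCircle => q • x) ⁻¹' C)ᶜ = 0 := by
      rw [← preimage_compl, hρ.2.2.1.measure_preimage hC.compl.nullMeasurableSet, hC0]
    have h2 := hCac _ (hTq hC).compl h1
    rwa [inter_comm, ← sdiff_eq] at h2
  have hD1 : ∀ k, img (q ^ k) σ (C \ (fun x : UnitAddCircle => p • x) ⁻¹' C) = 0 :=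
    (msum_null q σ (hC.diff (hTp hC))).1 hCp
  have hD2 : ∀ k, img (q ^ k) σ (C \ (fun x : UnitAddCircle => q • x) ⁻¹' C) = 0 :=
    (msum_null q σ (hC.diff (hTq hC))).1 hCq
  have hD3 : ∀ k, img (q ^ k) σ ((fun x : UnitAddCircle => p • x) ⁻¹' C \ C) = 0 := by
    intro k
    have hprob : IsProbabilityMeasure (img (q ^ k) σ) :=
      Measure.isProbabilityMeasure_map (meas_nsmul _).aemeasurable
    have hinv := image_inv hσ (q ^ k)
    have h1 : img (q ^ k) σ ((fun x : UnitAddCircle => p • x) ⁻¹' C) = img (q ^ k) σ C :=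
      hinv.measure_preimage hC.nullMeasurableSet
    have h2 := measure_inter_add_sdiff (μ := img (q ^ k) σ) ((fun x : UnitAddCircle => p • x) ⁻¹' C) hC
    have h3 := measure_inter_add_sdiff (μ := img (q ^ k) σ) C (hTp hC)
    rw [hD1 k, add_zero] at h3
    rw [inter_comm, h3, h1] at h2
    have h4 : img (q ^ k) σ C + img (q ^ k) σ ((fun x : UnitAddCircle => p • x) ⁻¹' C \ C) ≤
        img (q ^ k) σ C + 0 := by rw [h2, add_zero]
    exact le_antisymm ((ENNReal.add_le_add_iff_left (measure_ne_top _ _)).1 h4) zero_le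
  -- the sets `G k`
  set G : ℕ → Set UnitAddCircle := fun k => (fun x : UnitAddCircle => (q ^ k) • x) ⁻¹' C with hG
  have hGm : ∀ k, MeasurableSet (G k) := fun k => (meas_nsmul _) hC
  have hGp : ∀ k, (fun x : UnitAddCircle => p • x) ⁻¹' (G k) =
      (fun x : UnitAddCircle => (q ^ k) • x) ⁻¹' ((fun x : UnitAddCircle => p • x) ⁻¹' C) := by
    intro k
    ext x
    simp only [hG, mem_preimage]
    rw [smul_comm]
  have hGq : ∀ k, G (k + 1) =
      (fun x : UnitAddCircle => (q ^ k) • x) ⁻¹' ((fun x : UnitAddCircle => q • x) ⁻¹' C) := by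
    intro k
    ext x
    simp only [hG, mem_preimage]
    rw [pow_succ', mul_smul]
  have hB1 : ∀ k, σ (G k \ (fun x : UnitAddCircle => p • x) ⁻¹' (G k)) = 0 := by
    intro k
    rw [hGp, hG]
    simp only
    rw [← preimage_sdiff, ← img_apply _ _ (hC.diff (hTp hC))]
    exact hD1 k
  have hB2 : ∀ k, σ ((fun x : UnitAddCircle => p • x) ⁻¹' (G k) \ G k) = 0 := by
    intro k
    rw [hGp, hG]
    simp only
    rw [← preimage_sdiff, ← img_apply _ _ ((hTp hC).diff hC)]
    exact hD3 k
  have hB3 : ∀ k, σ (G k \ G (k + 1)) = 0 := by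
    intro k
    rw [hGq, hG]
    simp only
    rw [← preimage_sdiff, ← img_apply _ _ (hC.diff (hTq hC))]
    exact hD2 k
  set B : Set UnitAddCircle := ⋃ k, G k with hB
  have hBm : MeasurableSet B := MeasurableSet.iUnion hGm
  have hBp : (fun x : UnitAddCircle => p • x) ⁻¹' Bᶜ =ᵐ[σ] Bᶜ := by
    have h1 : (fun x : UnitAddCircle => p • x) ⁻¹' B =ᵐ[σ] B := by
      refine ae_eq_set.2 ⟨?_, ?_⟩
      · refine measure_mono_null ?_ ((measure_iUnion_null_iff).2 hB2)
        intro x hx
        obtain ⟨k, hk⟩ := mem_iUnion.1 (show p • x ∈ B from hx.1)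
        exact mem_iUnion.2 ⟨k, hk, fun hxk => hx.2 (mem_iUnion.2 ⟨k, hxk⟩)⟩
      · refine measure_mono_null ?_ ((measure_iUnion_null_iff).2 hB1)
        intro x hx
        obtain ⟨k, hk⟩ := mem_iUnion.1 hx.1
        exact mem_iUnion.2 ⟨k, hk, fun hxk => hx.2 (mem_iUnion.2 ⟨k, hxk⟩)⟩
    exact h1.compl
  -- `σ Bᶜ = 0`
  have hσB : σ Bᶜ = 0 := by
    by_contra hne
    have hnt : σ Bᶜ ≠ ∞ := measure_ne_top _ _
    set ν : Measure UnitAddCircle := (σ Bᶜ)⁻¹ • σ.restrict Bᶜ with hν
    have hνp : IsProbabilityMeasure ν := by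
      refine ⟨?_⟩
      rw [hν, Measure.smul_apply, Measure.restrict_apply MeasurableSet.univ, univ_inter, smul_eq_mul,
        ENNReal.inv_mul_cancel hne hnt]
    have hνi : MeasurePreserving (fun x : UnitAddCircle => p • x) ν ν := by
      have h1 := hσ.restrict_preimage hBm.compl
      rw [Measure.restrict_congr_set hBp] at h1
      exact ⟨hTp, by
        rw [hν, Measure.map_smul]
        exact congrArg _ h1.map_eq⟩
    have hνle : ν ≤ (σ Bᶜ)⁻¹ • σ := by
      rw [hν]
      refine Measure.le_iff.2 fun A hA => ?_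
      simp only [Measure.smul_apply, smul_eq_mul]
      gcongr
      exact Measure.restrict_le_self
    have hνs : ν ⟂ₘ volume :=
      (hs.smul (σ Bᶜ)⁻¹).mono_ac (Measure.absolutelyContinuous_of_le hνle)
        Measure.AbsolutelyContinuous.rfl
    have hνu : UAC q ν K := h.of_le (ENNReal.inv_ne_zero.2 hnt) (ENNReal.inv_ne_top.2 hne) hνle
    obtain ⟨ρ', hρ', h1, h2, h3⟩ := exists_inv_sing hp hq hr hrq hrp hνi hνs hK (hνu.primAC r)
    have hν0 : ∀ A, MeasurableSet A → msum q σ A = 0 → msum q ν A = 0 := by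
      intro A hA h0
      rw [msum_null q ν hA]
      intro k
      have h4 := (msum_null q σ hA).1 h0 k
      rw [img_apply _ _ hA] at h4 ⊢
      exact Measure.absolutelyContinuous_of_le hνle (by simp [h4])
    have h5 : ρ' Cᶜ = 0 := hmax ρ' ⟨hρ', h1, h2,
      h3.trans (Measure.AbsolutelyContinuous.mk fun A hA h0 => hν0 A hA h0)⟩
    have h6 : ρ' C = 0 := by
      refine h3 ?_
      rw [msum_null q ν hC]
      intro k
      rw [img_apply _ _ hC, hν, Measure.smul_apply, Measure.restrict_apply (hGm k)]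
      have : (fun x : UnitAddCircle => (q ^ k) • x) ⁻¹' C ∩ Bᶜ = ∅ := by
        ext x
        simp only [mem_inter_iff, mem_compl_iff, mem_empty_iff_false, iff_false, not_and, not_not]
        exact fun hx => mem_iUnion.2 ⟨k, hx⟩
      rw [this, measure_empty, smul_zero]
    have h7 : ρ' univ = 0 := by
      rw [← union_compl_self C]
      exact measure_union_null h6 h5
    rw [measure_univ] at h7
    exact one_ne_zero h7
  -- conclusion
  have hmono : ∀ k n, σ (G k \ G (k + n)) = 0 := by
    intro k n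
    induction n with
    | zero => simp
    | succ n ih =>
      refine measure_mono_null ?_ (measure_union_null ih (hB3 (k + n)))
      intro x hx
      by_cases hxn : x ∈ G (k + n)
      · exact Or.inr ⟨hxn, hx.2⟩
      · exact Or.inl ⟨hx.1, hxn⟩
  have hacc : ∀ n, σ (G n)ᶜ ≤ σ (accumulate G n)ᶜ := by
    intro n
    have h1 : σ (accumulate G n \ G n) = 0 := by
      refine measure_mono_null (t := ⋃ k ∈ Finset.range (n + 1), G k \ G n) ?_ ?_
      · intro x hx
        obtain ⟨k, hk, hxk⟩ := mem_accumulate.1 hx.1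
        exact mem_biUnion (Finset.mem_coe.2 (Finset.mem_range.2 (by omega))) ⟨hxk, hx.2⟩
      · refine (measure_biUnion_null_iff (Finset.countable_toSet _)).2 fun k hk => ?_
        have hk' : k < n + 1 := Finset.mem_range.1 hk
        have := hmono k (n - k)
        rwa [show k + (n - k) = n by omega] at this
    calc σ (G n)ᶜ ≤ σ ((accumulate G n)ᶜ ∪ (accumulate G n \ G n)) := by
          refine measure_mono fun x hx => ?_
          by_cases hxa : x ∈ accumulate G n
          · exact Or.inr ⟨hxa, hx⟩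
          · exact Or.inl hxa
      _ ≤ σ (accumulate G n)ᶜ + σ (accumulate G n \ G n) := measure_union_le _ _
      _ = σ (accumulate G n)ᶜ := by rw [h1, add_zero]
  have hlim : Tendsto (fun n => σ (accumulate G n)ᶜ) atTop (𝓝 0) := by
    have h1 : Tendsto (fun n => σ (accumulate G n)) atTop (𝓝 (σ B)) :=
      tendsto_measure_iUnion_accumulate
    have h2 : σ B = 1 := by
      have := prob_compl_eq_one_sub (μ := σ) hBm.compl
      rwa [compl_compl, hσB, tsub_zero] at this
    rw [h2] at h1
    have h3 : ∀ n, σ (accumulate G n)ᶜ = 1 - σ (accumulate G n) := fun n =>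
      prob_compl_eq_one_sub (by
        rw [accumulate_def]
        exact MeasurableSet.iUnion fun k => MeasurableSet.iUnion fun _ => hGm k)
    simp_rw [h3]
    have h4 := ENNReal.Tendsto.sub (tendsto_const_nhds (x := (1 : ℝ≥0∞))) h1
      (Or.inl ENNReal.one_ne_top)
    rwa [tsub_self] at h4
  refine tendsto_of_tendsto_of_tendsto_of_le_of_le tendsto_const_nhds hlim (fun _ => zero_le) ?_
  intro n
  show img (q ^ n) σ Cᶜ ≤ _
  rw [img_apply _ _ hC.compl, preimage_compl]
  exact hacc n

end Pool.Agent.Helper33.HK
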