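import Pool.Agent.Helper33.HK.Wk

/-!
# Reduction to singular measures
-/

set_option autoImplicit false

open MeasureTheory Filter Topology Set
open scoped ENNReal

namespace Pool.Agent.Helper33.HK

open Pool.Agent.K3h68.IL Pool.Agent.R202.STP

lemma vol_prob : IsProbabilityMeasure (volume : Measure UnitAddCircle) :=
  ⟨UnitAddCircle.measure_univ⟩

lemma img_vol {n : ℕ} (hn : 0 < n) : img n (volume : Measure UnitAddCircle) = volume := by
  have := vol_prob
  refine ext_cf fun k hk => ?_
  rw [cf_map, cf_vol hk, cf_vol (mul_ne_zero hk (by exact_mod_cast hn.ne'))]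

/-- images of singular measures are singular -/
theorem img_sing {n : ℕ} (hn : 0 < n) {σ : Measure UnitAddCircle} (hs : σ ⟂ₘ volume) :
    img n σ ⟂ₘ volume := by
  obtain ⟨S, hS, hS1, hS2⟩ := hs
  set S' := Sᶜ with hS'
  have hSm' : MeasurableSet S' := hS.compl
  set R : Set UnitAddCircle := {z | fs n (S'.indicator 1) z ≠ 0} with hR
  have hfm : Measurable (fs n (S'.indicator 1)) := meas_fs hn (measurable_one.indicator hSm')
  have hRm : MeasurableSet R := hfm (measurableSet_singleton 0).compl
  refine ⟨Rᶜ, hRm.compl, ?_, ?_⟩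
  · rw [img, Measure.map_apply (meas_nsmul n) hRm.compl]
    refine measure_mono_null ?_ hS1
    intro x hx
    by_contra hxS
    apply hx
    show fs n (S'.indicator 1) (n • x) ≠ 0
    have h1 := le_fs hn (S'.indicator 1) x
    rw [indicator_of_mem (show x ∈ S' from hxS)] at h1
    intro h0
    rw [h0] at h1
    simp at h1
  · rw [compl_compl]
    have h1 : (volume : Measure UnitAddCircle) R = volume ((fun x : UnitAddCircle => n • x) ⁻¹' R) := by
      rw [← Measure.map_apply (meas_nsmul n) hRm]
      have := img_vol hn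
      unfold img at this
      rw [this]
    rw [h1]
    have h2 : (fun x : UnitAddCircle => n • x) ⁻¹' R ⊆
        ⋃ t ∈ fib n 0, (fun x => x + t) ⁻¹' S' := by
      intro x hx
      have h3 : fs n (S'.indicator 1) (n • x) ≠ 0 := hx
      unfold fs at h3
      obtain ⟨y, hy, hy1⟩ := Finset.exists_ne_zero_of_sum_ne_zero h3
      rw [mem_fib hn] at hy
      refine mem_iUnion₂.2 ⟨y - x, ?_, ?_⟩
      · rw [mem_fib hn, smul_sub, hy, sub_self]
      · show x + (y - x) ∈ S'
        rw [add_sub_cancel]
        by_contra hyS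
        exact hy1 (indicator_of_notMem hyS _)
    refine measure_mono_null h2 ?_
    refine (measure_biUnion_null_iff (Finset.countable_toSet _)).2 fun t _ => ?_
    rw [measure_preimage_add_right]
    exact hS2

lemma msum_sing {q : ℕ} (hq : 0 < q) {σ : Measure UnitAddCircle} (hs : σ ⟂ₘ volume) :
    msum q σ ⟂ₘ volume := by
  unfold msum
  rw [Measure.MutuallySingular.sum_left]
  intro k
  exact (img_sing (pow_pos hq k) hs).smul _

/-- a `T_p`-invariant measure is the sum of a multiple of Lebesgue measure and of a singular one -/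
theorem split {p : ℕ} (hp : 2 ≤ p) {μ : Measure UnitAddCircle} [IsProbabilityMeasure μ]
    (hμ : MeasurePreserving (fun x : UnitAddCircle => p • x) μ μ) (hne : μ ≠ volume) :
    ∃ (σ : Measure UnitAddCircle) (c b : ℝ≥0∞), IsProbabilityMeasure σ ∧
      MeasurePreserving (fun x : UnitAddCircle => p • x) σ σ ∧ σ ⟂ₘ volume ∧
      c ≠ 0 ∧ c ≠ ∞ ∧ b ≠ ∞ ∧ μ = c • σ + b • (volume : Measure UnitAddCircle) := by
  have hvol := vol_prob
  have hlam : Ergodic (fun x : UnitAddCircle => p • x) (volume : Measure UnitAddCircle) :=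
    AddCircle.ergodic_nsmul (by omega)
  set s := μ.singularPart volume with hs
  set w := (volume : Measure UnitAddCircle).withDensity (μ.rnDeriv volume) with hw
  have hdec : μ = s + w := μ.haveLebesgueDecomposition_add volume
  have hsinv : MeasurePreserving (fun x : UnitAddCircle => p • x) s s :=
    hμ.singularPart hlam.toMeasurePreserving
  have hwinv : MeasurePreserving (fun x : UnitAddCircle => p • x) w w :=
    hμ.withDensity_rnDeriv hlam.toMeasurePreserving
  have hwf : IsFiniteMeasure w := isFiniteMeasure_of_le μ (by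
    conv_rhs => rw [hdec]
    exact Measure.le_add_left le_rfl)
  have hsf : IsFiniteMeasure s := isFiniteMeasure_of_le μ (by
    conv_rhs => rw [hdec]
    exact Measure.le_add_right le_rfl)
  obtain ⟨b, hb⟩ := hlam.eq_smul_of_absolutelyContinuous hwinv (withDensity_absolutelyContinuous _ _)
  have hbt : b ≠ ∞ := by
    have : w univ = b := by rw [hb]; simp
    rw [← this]
    exact measure_ne_top w univ
  have hc0 : s univ ≠ 0 := by
    intro h0
    apply hne
    have hs0 : s = 0 := Measure.measure_univ_eq_zero.1 h0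
    rw [hs0, zero_add, hb] at hdec
    have : b = 1 := by
      have h1 : μ univ = b := by rw [hdec]; simp
      rw [← h1, measure_univ]
    rw [hdec, this, one_smul]
  have hct : s univ ≠ ∞ := measure_ne_top s univ
  refine ⟨(s univ)⁻¹ • s, s univ, b, ⟨?_⟩, ?_, ?_, hc0, hct, hbt, ?_⟩
  · rw [Measure.smul_apply, smul_eq_mul, ENNReal.inv_mul_cancel hc0 hct]
  · exact ⟨meas_nsmul p, by rw [Measure.map_smul, hsinv.map_eq]⟩
  · exact (Measure.mutuallySingular_singularPart μ volume).smul _
  · rw [smul_smul, ENNReal.mul_inv_cancel hc0 hct, one_smul, ← hb]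
    exact hdec

/-- the primitive parts of the singular component -/
theorem primAC_split {q r : ℕ} (hq : 0 < q) {μ σ : Measure UnitAddCircle} {c b : ℝ≥0∞}
    (hc0 : c ≠ 0) (hct : c ≠ ∞) (hbt : b ≠ ∞) (h : μ = c • σ + b • (volume : Measure UnitAddCircle))
    {K : Set ℕ} (hμ : PrimAC q r μ K) : PrimAC q r σ K := by
  have hvol := vol_prob
  obtain ⟨m, hm, hmδ⟩ := hμ
  refine ⟨m, hm, fun ε hε => ?_⟩
  obtain ⟨δ, hδ, hδ'⟩ := hmδ (c * ε) (ENNReal.mul_pos hc0 hε.ne')
  refine ⟨δ, hδ, fun k hk A hA hmA => ?_⟩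
  have h1 := hδ' k hk A hA hmA
  have hm1 : Measurable fun x : UnitAddCircle => (q ^ k) • x := meas_nsmul _
  have hadd : Measurable fun x : UnitAddCircle => x + uu r := measurable_add_const _
  have e1 : (volume : Measure UnitAddCircle) {x | (q ^ k) • x ∈ A} = volume A := by
    have := img_vol (pow_pos hq k)
    unfold img at this
    have h2 := Measure.map_apply hm1 hA (μ := (volume : Measure UnitAddCircle))
    rw [this] at h2
    exact h2.symm
  have e2 : (volume : Measure UnitAddCircle) {x | (q ^ k) • x + uu r ∈ A} = volume A := by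
    have := img_vol (pow_pos hq k)
    unfold img at this
    have h2 := Measure.map_apply hm1 (hadd hA) (μ := (volume : Measure UnitAddCircle))
    rw [this, measure_preimage_add_right] at h2
    exact h2.symm
  rw [h] at h1
  simp only [Measure.add_apply, Measure.smul_apply, smul_eq_mul] at h1
  rw [e1, e2] at h1
  have hbA : b * (volume : Measure UnitAddCircle) A ≠ ∞ := ENNReal.mul_ne_top hbt (measure_ne_top _ _)
  have h2 : c * σ {x | (q ^ k) • x ∈ A} ≤ c * σ {x | (q ^ k) • x + uu r ∈ A} + c * ε := by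
    have h3 : c * σ {x | (q ^ k) • x ∈ A} + b * (volume : Measure UnitAddCircle) A ≤
        (c * σ {x | (q ^ k) • x + uu r ∈ A} + c * ε) + b * (volume : Measure UnitAddCircle) A := by
      refine h1.trans (le_of_eq ?_)
      ring
    exact (ENNReal.add_le_add_iff_right hbA).1 h3
  rw [← mul_add] at h2
  exact (ENNReal.mul_le_mul_iff_right hc0 hct).1 h2

/-- **The invariant measure.** -/
theorem exists_inv {p q r : ℕ} (hp : 2 ≤ p) (hq : 2 ≤ q) (hr : 2 ≤ r) (hrq : r ∣ q)
    (hrp : Nat.Coprime r p) {μ : Measure UnitAddCircle} [IsProbabilityMeasure μ]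
    (hμ : MeasurePreserving (fun x : UnitAddCircle => p • x) μ μ) (hne : μ ≠ volume) {K : Set ℕ}
    (hK : PosDensity K) (h : PrimAC q r μ K) :
    ∃ ρ : Measure UnitAddCircle, IsProbabilityMeasure ρ ∧
      MeasurePreserving (fun x : UnitAddCircle => p • x) ρ ρ ∧
      MeasurePreserving (fun x : UnitAddCircle => q • x) ρ ρ ∧ ρ ⟂ₘ volume ∧
      ∀ A : Set UnitAddCircle, MeasurableSet A → (∀ k, img (q ^ k) μ A = 0) → ρ A = 0 := by
  obtain ⟨σ, c, b, hσp, hσ, hs, hc0, hct, hbt, hdec⟩ := split hp hμ hne
  obtain ⟨ρ, hρ, h1, h2, h3⟩ := exists_inv_sing hp hq hr hrq hrp hσ hs hK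
    (primAC_split (by omega) hc0 hct hbt hdec h)
  refine ⟨ρ, hρ, h1, h2, (msum_sing (by omega) hs).mono_ac h3 Measure.AbsolutelyContinuous.rfl,
    fun A hA hA0 => h3 ?_⟩
  rw [msum_null q σ hA]
  intro k
  have h4 := hA0 k
  rw [img, Measure.map_apply (meas_nsmul _) hA] at h4 ⊢
  rw [hdec, Measure.add_apply, Measure.smul_apply, smul_eq_mul] at h4
  have h5 := (add_eq_zero.1 h4).1
  exact (mul_eq_zero.1 h5).resolve_left hc0

end Pool.Agent.Helper33.HK
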