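import Pool.Agent.Helper33.HK.Dec

/-!
# Equivalence with the conjecture, and the case of positive entropy without ergodicity
-/

set_option autoImplicit false

open MeasureTheory Filter Topology Set
open scoped ENNReal

namespace Pool.Agent.Helper33.HK

open Pool.Agent.K3h68.IL Pool.Agent.R202.STP

lemma posDensity_univ : PosDensity univ := by
  refine ⟨1, one_pos, fun N₀ => ⟨N₀, 0, le_rfl, ?_⟩⟩
  rw [univ_inter, zero_add]
  have : (Set.Ico 0 N₀).ncard = N₀ := by
    rw [← Finset.coe_Ico, Set.ncard_coe_finset, Nat.card_Ico, Nat.sub_zero]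
  rw [this, one_mul]

lemma self_sing : ¬ ((volume : Measure UnitAddCircle) ⟂ₘ volume) := by
  have hvol := vol_prob
  rintro ⟨S, _, h1, h2⟩
  have h3 : (volume : Measure UnitAddCircle) univ = 0 := by
    rw [← union_compl_self S]
    exact measure_union_null h1 h2
  rw [measure_univ] at h3
  exact one_ne_zero h3

lemma img_atomless {μ : Measure UnitAddCircle} (h : ∀ x, μ {x} = 0) {n : ℕ} (hn : 0 < n)
    (x : UnitAddCircle) : img n μ {x} = 0 := by
  have : NullSingletonClass μ := ⟨h⟩
  rw [img, Measure.map_apply (meas_nsmul n) (measurableSet_singleton x)]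
  have hfin : ((fun y : UnitAddCircle => n • y) ⁻¹' {x}).Finite := by
    refine (fib n x).finite_toSet.subset fun y hy => ?_
    exact Finset.mem_coe.2 ((mem_fib hn).2 hy)
  exact hfin.measure_zero μ

/-- Under the conjecture for `(p, q)` primitive parts are not uniformly absolutely continuous. -/
theorem eq_vol_of_conj {p q r : ℕ} (hp : 2 ≤ p) (hq : 2 ≤ q) (hr : 2 ≤ r) (hrq : r ∣ q)
    (hrp : Nat.Coprime r p)
    (hF : ∀ μ : Measure UnitAddCircle, IsProbabilityMeasure μ →
      MeasurePreserving (fun x : UnitAddCircle => p • x) μ μ →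
      MeasurePreserving (fun x : UnitAddCircle => q • x) μ μ → (∀ x, μ {x} = 0) → μ = volume)
    {μ : Measure UnitAddCircle} [IsProbabilityMeasure μ]
    (hμ : MeasurePreserving (fun x : UnitAddCircle => p • x) μ μ) (hna : ∀ x, μ {x} = 0)
    {K : Set ℕ} (hK : PosDensity K) (h : PrimAC q r μ K) : μ = volume := by
  by_contra hne
  obtain ⟨ρ, hρ, h1, h2, h3, h4⟩ := exists_inv hp hq hr hrq hrp hμ hne hK h
  have h5 := hF ρ hρ h1 h2 fun x => h4 {x} (measurableSet_singleton x) fun k =>
    img_atomless hna (pow_pos (by omega) k) x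
  rw [h5] at h3
  exact self_sing h3

/-- `x ↦ p x` is injective on no invariant set of positive measure -/
def NowhereInj (p : ℕ) (μ : Measure UnitAddCircle) : Prop :=
  ∀ E G : Set UnitAddCircle, MeasurableSet E → MeasurableSet G →
    (fun x : UnitAddCircle => p • x) ⁻¹' E = E → G ⊆ E → μ (E \ G) = 0 →
    InjOn (fun x : UnitAddCircle => p • x) G → μ E = 0

/-- **Positive entropy**, without ergodicity. -/
theorem rudolph_nonerg {p q r : ℕ} (hp : 2 ≤ p) (hq : 2 ≤ q) (hpq : Nat.Coprime p q)
    (hr : 2 ≤ r) (hrq : r ∣ q) {μ : Measure UnitAddCircle} [IsProbabilityMeasure μ]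
    (hμ : MeasurePreserving (fun x : UnitAddCircle => p • x) μ μ) (hn : NowhereInj p μ) {K : Set ℕ}
    (hK : PosDensity K) (h : PrimAC q r μ K) : μ = volume := by
  by_contra hne
  obtain ⟨ρ, hρ, h1, h2, h3, h4⟩ := exists_inv hp hq hr hrq
    (Nat.Coprime.coprime_dvd_left hrq hpq.symm) hμ hne hK h
  obtain ⟨G, hG, hG0, hGi⟩ := aeinj_of_inv hq hp hpq.symm h2 h1 h3
  -- some image is not singular to `ρ`
  have hk : ∃ k, ¬ (img (q ^ k) μ ⟂ₘ ρ) := by
    by_contra hcon
    push Not at hcon
    choose S hS hS1 hS2 using hcon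
    have h5 : ρ (⋂ k, S k) = 0 := by
      refine h4 _ (MeasurableSet.iInter hS) fun k => ?_
      exact measure_mono_null (iInter_subset _ k) (hS1 k)
    have h6 : ρ (⋂ k, S k)ᶜ = 0 := by
      rw [compl_iInter]
      exact measure_iUnion_null hS2
    have h7 : ρ univ = 0 := by
      rw [← union_compl_self (⋂ k, S k)]
      exact measure_union_null h5 h6
    rw [measure_univ] at h7
    exact one_ne_zero h7
  obtain ⟨k, hk⟩ := hk
  set τ := img (q ^ k) μ with hτ
  have hτinv : MeasurePreserving (fun x : UnitAddCircle => p • x) τ τ := image_inv hμ (q ^ k)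
  have hρs : SigmaFinite ρ := inferInstance
  have hτp : IsProbabilityMeasure τ := img_prob _ _
  have hτs : SFinite τ := inferInstance
  have hLD : τ.HaveLebesgueDecomposition ρ :=
    Measure.haveLebesgueDecomposition_of_sigmaFinite τ ρ
  set β := τ.singularPart ρ with hβ
  set α := ρ.withDensity (τ.rnDeriv ρ) with hα
  have hdec : τ = β + α := τ.haveLebesgueDecomposition_add ρ
  have hβinv : MeasurePreserving (fun x : UnitAddCircle => p • x) β β := hτinv.singularPart h1
  have hαinv : MeasurePreserving (fun x : UnitAddCircle => p • x) α α :=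
    hτinv.withDensity_rnDeriv h1
  have hαρ : α ≪ ρ := withDensity_absolutelyContinuous _ _
  have hαf : IsFiniteMeasure α := isFiniteMeasure_of_le τ (by
    conv_rhs => rw [hdec]
    exact Measure.le_add_left le_rfl)
  have hα0 : α univ ≠ 0 := by
    intro h0
    apply hk
    rw [hdec, Measure.measure_univ_eq_zero.1 h0, add_zero]
    exact Measure.mutuallySingular_singularPart _ _
  obtain ⟨S, hS, hS1, hS2⟩ := τ.mutuallySingular_singularPart ρ
  -- `β S = 0`, `ρ Sᶜ = 0`
  have hm := meas_nsmul p
  have hSinv : (fun x : UnitAddCircle => p • x) ⁻¹' S =ᵐ[τ] S := by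
    have a1 : β ((fun x : UnitAddCircle => p • x) ⁻¹' S) = 0 := by
      rw [hβinv.measure_preimage hS.nullMeasurableSet]
      exact hS1
    have a2 : α Sᶜ = 0 := hαρ hS2
    have a3 : α ((fun x : UnitAddCircle => p • x) ⁻¹' Sᶜ) = 0 := by
      rw [hαinv.measure_preimage hS.compl.nullMeasurableSet]
      exact a2
    rw [MeasureTheory.ae_eq_set]
    constructor
    · rw [hdec, Measure.add_apply]
      have b1 : β ((fun x : UnitAddCircle => p • x) ⁻¹' S \ S) = 0 :=
        measure_mono_null sdiff_subset a1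
      have b2 : α ((fun x : UnitAddCircle => p • x) ⁻¹' S \ S) = 0 :=
        measure_mono_null (fun x hx => hx.2) a2
      rw [b1, b2, add_zero]
    · rw [hdec, Measure.add_apply]
      have b1 : β (S \ (fun x : UnitAddCircle => p • x) ⁻¹' S) = 0 :=
        measure_mono_null sdiff_subset hS1
      have b2 : α (S \ (fun x : UnitAddCircle => p • x) ⁻¹' S) = 0 :=
        measure_mono_null (fun x hx => hx.2) a3
      rw [b1, b2, add_zero]
  obtain ⟨E, hE, hES, hEinv⟩ := hτinv.quasiMeasurePreserving.exists_preimage_eq_of_preimage_ae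
    hS.nullMeasurableSet hSinv
  have hτE : τ E ≠ 0 := by
    intro h0
    rw [measure_congr hES] at h0
    apply hα0
    have c1 : α S = 0 := by
      refine le_antisymm ?_ bot_le
      calc α S ≤ τ S := by
            conv_rhs => rw [hdec]
            exact le_add_self
        _ = 0 := h0
    have c2 : α Sᶜ = 0 := hαρ hS2
    rw [← union_compl_self S]
    exact measure_union_null c1 c2
  have hτEG : τ (E \ G) = 0 := by
    have c1 : τ (S \ G) = 0 := by
      rw [hdec, Measure.add_apply]
      have b1 : β (S \ G) = 0 := measure_mono_null sdiff_subset hS1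
      have b2 : α (S \ G) = 0 := hαρ (measure_mono_null (fun x hx => hx.2) hG0)
      rw [b1, b2, add_zero]
    have c2 : (E \ G : Set UnitAddCircle) =ᵐ[τ] (S \ G : Set UnitAddCircle) :=
      hES.diff (ae_eq_refl G)
    rw [measure_congr c2, c1]
  -- pull back
  have hmq := meas_nsmul (q ^ k)
  apply hτE
  rw [hτ, img, Measure.map_apply hmq hE]
  refine hn ((fun x : UnitAddCircle => (q ^ k) • x) ⁻¹' E)
    ((fun x : UnitAddCircle => (q ^ k) • x) ⁻¹' (E ∩ G)) (hmq hE) (hmq (hE.inter hG)) ?_
    (preimage_mono inter_subset_left) ?_ ?_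
  · ext x
    show (q ^ k) • p • x ∈ E ↔ (q ^ k) • x ∈ E
    rw [smul_comm]
    have := Set.ext_iff.1 hEinv ((q ^ k) • x)
    exact this
  · have c1 : (fun x : UnitAddCircle => (q ^ k) • x) ⁻¹' E \
        (fun x : UnitAddCircle => (q ^ k) • x) ⁻¹' (E ∩ G) =
        (fun x : UnitAddCircle => (q ^ k) • x) ⁻¹' (E \ G) := by
      ext x
      constructor
      · rintro ⟨h5, h6⟩
        exact ⟨h5, fun h7 => h6 ⟨h5, h7⟩⟩
      · rintro ⟨h5, h6⟩
        exact ⟨h5, fun h7 => h6 h7.2⟩
    rw [c1, ← Measure.map_apply hmq (hE.diff hG)]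
    exact hτEG
  · intro x hx y hy hxy
    have hxy' : p • x = p • y := hxy
    have h5 : (q ^ k) • x = (q ^ k) • y := by
      refine hGi hx.2 hy.2 ?_
      show p • (q ^ k) • x = p • (q ^ k) • y
      rw [smul_comm p, smul_comm p (q ^ k) y, hxy']
    exact smul_inj (hpq.symm.pow_left k) h5 hxy'

end Pool.Agent.Helper33.HK
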