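import Pool.Agent.Helper33.HK.Near2

/-!
# Ergodic measures: the orbit of a measure under `x ↦ q x`
-/

set_option autoImplicit false

open MeasureTheory Filter Topology Set
open scoped ENNReal

namespace Pool.Agent.Helper33.HK

open Pool.Agent.K3h68.IL Pool.Agent.R202.STP

theorem erg_eq_or {X : Type*} [MeasurableSpace X] {T : X → X} {μ ν : Measure X}
    [IsProbabilityMeasure μ] [IsProbabilityMeasure ν] (hμ : Ergodic T μ) (hν : Ergodic T ν) :
    μ = ν ∨ μ ⟂ₘ ν := by
  have hdec := μ.haveLebesgueDecomposition_add ν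
  set s := μ.singularPart ν with hs
  set w := ν.withDensity (μ.rnDeriv ν) with hw
  have hwinv : MeasurePreserving T w w :=
    hμ.toMeasurePreserving.withDensity_rnDeriv hν.toMeasurePreserving
  have hwν : w ≪ ν := withDensity_absolutelyContinuous _ _
  have hwμ : w ≪ μ := by
    refine Measure.absolutelyContinuous_of_le ?_
    rw [hdec]
    exact Measure.le_add_left le_rfl
  have hwf : IsFiniteMeasure w := isFiniteMeasure_of_le μ (by
    rw [hdec]
    exact Measure.le_add_left le_rfl)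
  obtain ⟨c, hc⟩ := hν.eq_smul_of_absolutelyContinuous hwinv hwν
  obtain ⟨d, hd⟩ := hμ.eq_smul_of_absolutelyContinuous hwinv hwμ
  by_cases h0 : w = 0
  · right
    rw [hdec, h0, add_zero]
    exact Measure.mutuallySingular_singularPart μ ν
  · left
    have hcd : c = d := by
      have h1 : w univ = c := by rw [hc]; simp
      have h2 : w univ = d := by
        conv_lhs => rw [hd]
        simp
      rw [← h1, h2]
    have hc0 : c ≠ 0 := by
      rintro rfl
      rw [zero_smul] at hc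
      exact h0 hc
    have hct : c ≠ ∞ := by
      have h1 : w univ = c := by rw [hc]; simp
      rw [← h1]
      exact measure_ne_top _ _
    have h3 : c • ν = c • μ := by rw [← hc, hcd, ← hd]
    refine Measure.ext fun A _ => ?_
    have h4 : (c • ν) A = (c • μ) A := by rw [h3]
    rw [Measure.smul_apply, Measure.smul_apply, smul_eq_mul, smul_eq_mul] at h4
    exact ((ENNReal.mul_right_inj hc0 hct).1 h4).symm

/-- the image under `x ↦ n x` -/
noncomputable abbrev img (n : ℕ) (μ : Measure UnitAddCircle) : Measure UnitAddCircle :=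
  μ.map fun x : UnitAddCircle => n • x

instance img_prob (n : ℕ) (μ : Measure UnitAddCircle) [IsProbabilityMeasure μ] :
    IsProbabilityMeasure (img n μ) := Measure.isProbabilityMeasure_map (meas_nsmul n).aemeasurable

lemma img_img (n m : ℕ) (μ : Measure UnitAddCircle) : img n (img m μ) = img (m * n) μ := by
  unfold img
  rw [Measure.map_map (meas_nsmul n) (meas_nsmul m)]
  congr 1
  funext x
  show n • m • x = (m * n) • x
  rw [smul_smul, mul_comm]

lemma img_erg {p : ℕ} {μ : Measure UnitAddCircle} (h : Ergodic (fun x : UnitAddCircle => p • x) μ)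
    (n : ℕ) : Ergodic (fun x : UnitAddCircle => p • x) (img n μ) := by
  have hg : MeasurePreserving (fun x : UnitAddCircle => n • x) μ (img n μ) := ⟨meas_nsmul n, rfl⟩
  refine hg.ergodic_of_ergodic_semiconj h (meas_nsmul p) ?_
  intro x
  show n • p • x = p • n • x
  rw [smul_comm]

/-- disjoint carriers of countably many pairwise singular measures -/
theorem exists_carriers {X : Type*} [MeasurableSpace X] {τ : ℕ → Measure X}
    (h : ∀ i j, i ≠ j → τ i ⟂ₘ τ j) :
    ∃ A : ℕ → Set X, (∀ i, MeasurableSet (A i)) ∧ (∀ i, τ i (A i)ᶜ = 0) ∧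
      Pairwise fun i j => Disjoint (A i) (A j) := by
  have h' : ∀ i j : ℕ, ∃ N : Set X, MeasurableSet N ∧ (i ≠ j → τ i Nᶜ = 0 ∧ τ j N = 0) := by
    intro i j
    by_cases hij : i = j
    · exact ⟨∅, MeasurableSet.empty, fun h => absurd hij h⟩
    · obtain ⟨s, hs, h1, h2⟩ := h i j hij
      exact ⟨sᶜ, hs.compl, fun _ => ⟨by rwa [compl_compl], h2⟩⟩
  choose N hN hN' using h'
  refine ⟨fun i => ⋂ j : ℕ, ⋂ (_ : j ≠ i), (N i j \ N j i), fun i => ?_, fun i => ?_, ?_⟩
  · exact MeasurableSet.iInter fun j => MeasurableSet.iInter fun _ => (hN i j).diff (hN j i)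
  · rw [compl_iInter]
    refine measure_iUnion_null fun j => ?_
    rw [compl_iInter]
    refine measure_iUnion_null fun hj => ?_
    have h1 := (hN' i j hj.symm).1
    have h2 := (hN' j i hj).2
    refine measure_mono_null ?_ (measure_union_null h1 h2)
    intro x hx
    by_cases hx1 : x ∈ N i j
    · right
      by_contra hx2
      exact hx ⟨hx1, hx2⟩
    · exact Or.inl hx1
  · intro i j hij
    refine Set.disjoint_left.2 ?_
    intro x hxi hxj
    have h1 := mem_iInter₂.1 hxi j hij.symm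
    have h2 := mem_iInter₂.1 hxj i hij
    exact h2.2 h1.1

/-- `μ` has uniformly absolutely continuous primitive parts along `K` -/
def PrimAC (q r : ℕ) (μ : Measure UnitAddCircle) (K : Set ℕ) : Prop :=
  ∃ m : Measure UnitAddCircle, IsFiniteMeasure m ∧ ∀ ε : ℝ≥0∞, 0 < ε → ∃ δ : ℝ≥0∞, 0 < δ ∧
    ∀ k ∈ K, ∀ A : Set UnitAddCircle, MeasurableSet A → m A ≤ δ →
      μ {x | (q ^ k) • x ∈ A} ≤ μ {x | (q ^ k) • x + uu r ∈ A} + ε

theorem periodic_of_primAC {p q r : ℕ} (hp : 2 ≤ p) (hq : 2 ≤ q) (hr : 2 ≤ r) (hrq : r ∣ q)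
    (hrp : Nat.Coprime r p)
    {μ : Measure UnitAddCircle} [IsProbabilityMeasure μ]
    (hμ : Ergodic (fun x : UnitAddCircle => p • x) μ) {K : Set ℕ} (hK : K.Infinite)
    (h : PrimAC q r μ K) : ∃ k l : ℕ, 1 ≤ l ∧ img (q ^ (k + l)) μ = img (q ^ k) μ := by
  have hvol : IsProbabilityMeasure (volume : Measure UnitAddCircle) :=
    ⟨UnitAddCircle.measure_univ⟩
  have hq0 : 0 < q := by omega
  have hr0 : 0 < r := by omega
  have hlam : Ergodic (fun x : UnitAddCircle => p • x) (volume : Measure UnitAddCircle) :=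
    AddCircle.ergodic_nsmul (by omega)
  rcases erg_eq_or hμ hlam with rfl | hs
  · refine ⟨0, 1, le_rfl, ?_⟩
    have hm : ∀ n : ℕ, 0 < n → img n (volume : Measure UnitAddCircle) = volume := fun n hn => by
      refine ext_cf fun k hk => ?_
      rw [cf_map, cf_vol hk, cf_vol (mul_ne_zero hk (by exact_mod_cast hn.ne'))]
    rw [hm _ (pow_pos hq0 _), hm _ (pow_pos hq0 _)]
  by_contra hcon
  push Not at hcon
  have hne : ∀ i j : ℕ, i ≠ j → img (q ^ i) μ ≠ img (q ^ j) μ := by
    intro i j hij heq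
    rcases lt_or_gt_of_ne hij with hlt | hlt
    · refine hcon i (j - i) (by omega) ?_
      rw [show i + (j - i) = j by omega, heq]
    · refine hcon j (i - j) (by omega) ?_
      rw [show j + (i - j) = i by omega, heq]
  have hsing : ∀ i j : ℕ, i ≠ j → img (q ^ i) μ ⟂ₘ img (q ^ j) μ := fun i j hij =>
    (erg_eq_or (img_erg hμ _) (img_erg hμ _)).resolve_left (hne i j hij)
  obtain ⟨A, hAm, hA, hAd⟩ := exists_carriers hsing
  obtain ⟨B, hB, hBt, hBs⟩ := near' hp hq hr hrq hrp hμ.toMeasurePreserving hs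
  obtain ⟨m, hm, hmδ⟩ := h
  obtain ⟨δ, hδ, hδ'⟩ := hmδ (1 / 4) (by simp)
  -- the sets `A k` have small measure
  have h1 : Tendsto (fun k => m (A k)) atTop (𝓝 0) := by
    rw [← Nat.cofinite_eq_atTop]
    refine ENNReal.tendsto_cofinite_zero_of_tsum_ne_top ?_
    rw [← measure_iUnion hAd hAm]
    exact measure_ne_top m _
  have h2 : ∀ᶠ k in atTop, m (A k) ≤ δ := h1.eventually_le_const hδ
  have h3 : ∀ᶠ k in atTop, img (q ^ k) μ (B k)ᶜ < 1 / 4 :=
    hBt.eventually_lt_const (by simp)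
  obtain ⟨k0, hk0⟩ := eventually_atTop.1 (h2.and h3)
  obtain ⟨k, hkK, hk⟩ := hK.exists_gt k0
  obtain ⟨h4, h5⟩ := hk0 k hk.le
  have hT := meas_nsmul (q ^ k)
  have hC : MeasurableSet (A k ∩ B k) := (hAm k).inter (hB k)
  have h6 := hδ' k hkK (A k ∩ B k) hC ((measure_mono inter_subset_left).trans h4)
  have e1 : img (q ^ k) μ (A k ∩ B k) = μ {x | (q ^ k) • x ∈ A k ∩ B k} := Measure.map_apply hT hC
  have hu0 : uu r ≠ 0 := by
    intro h
    have h1 := order_uu hr0
    rw [h, addOrderOf_zero] at h1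
    omega
  have hadd : Measurable fun x : UnitAddCircle => x + uu r := measurable_add_const _
  have e2 : μ {x | (q ^ k) • x + uu r ∈ A k ∩ B k} ≤ img (q ^ k) μ (B k)ᶜ := by
    refine le_trans ?_ (hBs k (uu r) (nsmul_uu hr0) hu0)
    rw [Measure.map_apply hT (hadd (hB k))]
    exact measure_mono fun x hx => hx.2
  have e3 : (1 : ℝ≥0∞) ≤ img (q ^ k) μ (A k ∩ B k) + img (q ^ k) μ (B k)ᶜ := by
    have h7 : img (q ^ k) μ univ ≤ img (q ^ k) μ ((A k ∩ B k) ∪ (B k)ᶜ) + img (q ^ k) μ (A k)ᶜ := by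
      refine (measure_mono ?_).trans (measure_union_le _ _)
      intro x _
      by_cases hxA : x ∈ A k
      · by_cases hxB : x ∈ B k
        · exact Or.inl (Or.inl ⟨hxA, hxB⟩)
        · exact Or.inl (Or.inr hxB)
      · exact Or.inr hxA
    rw [measure_univ, hA k, add_zero] at h7
    exact h7.trans (measure_union_le _ _)
  have e4 : (1 : ℝ≥0∞) ≤ img (q ^ k) μ (B k)ᶜ + 1 / 4 + img (q ^ k) μ (B k)ᶜ := by
    refine e3.trans ?_
    rw [e1]
    gcongr
    exact h6.trans (by gcongr)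
  have e5 : img (q ^ k) μ (B k)ᶜ + 1 / 4 + img (q ^ k) μ (B k)ᶜ < 1 / 4 + 1 / 4 + 1 / 4 := by
    have h14 : (1 / 4 : ℝ≥0∞) ≠ ∞ := ENNReal.div_ne_top ENNReal.one_ne_top (by norm_num)
    refine ENNReal.add_lt_add ?_ h5
    exact ENNReal.add_lt_add_of_lt_of_le h14 h5 le_rfl
  have e6 : (1 / 4 + 1 / 4 + 1 / 4 : ℝ≥0∞) ≤ 1 := by
    have h8 : (4 : ℝ≥0∞) * (1 / 4) = 1 := ENNReal.mul_div_cancel (by norm_num) ENNReal.ofNat_ne_top
    calc (1 / 4 + 1 / 4 + 1 / 4 : ℝ≥0∞) = 3 * (1 / 4) := by ring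
      _ ≤ 4 * (1 / 4) := by gcongr; norm_num
      _ = 1 := h8
  exact absurd (e4.trans_lt (e5.trans_le e6)) (lt_irrefl _)

end Pool.Agent.Helper33.HK
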