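import Pool.Agent.Helper33.HK.Fdim2

/-!
# Ergodic measures: the equivalences and the case of positive entropy
-/

set_option autoImplicit false

open MeasureTheory Filter Topology Set
open scoped ENNReal

namespace Pool.Agent.Helper33.HK

open Pool.Agent.K3h68.IL Pool.Agent.R202.STP

theorem heckeFin_of_periodic {q : ℕ} (r : ℕ) {μ : Measure UnitAddCircle} {k l : ℕ} (hl : 1 ≤ l)
    (h : img (q ^ (k + l)) μ = img (q ^ k) μ) : HeckeFin q r μ univ := by
  have hstep : ∀ j, img (q ^ (k + l + j)) μ = img (q ^ (k + j)) μ := by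
    intro j
    have h1 : q ^ (k + l + j) = q ^ (k + l) * q ^ j := pow_add _ _ _
    have h2 : q ^ (k + j) = q ^ k * q ^ j := pow_add _ _ _
    rw [h1, h2, ← img_img, ← img_img, h]
  have hall : ∀ j, ∃ i, i < k + l ∧ img (q ^ j) μ = img (q ^ i) μ := by
    intro j
    induction j using Nat.strong_induction_on with
    | _ j ih =>
      by_cases hj : j < k + l
      · exact ⟨j, hj, rfl⟩
      · have h3 := hstep (j - (k + l))
        rw [show k + l + (j - (k + l)) = j by omega] at h3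
        obtain ⟨i, hi, hi'⟩ := ih (k + (j - (k + l))) (by omega)
        exact ⟨i, hi, h3.trans hi'⟩
  have hcf : ∀ (k : ℕ) (n : ℤ), cf (img (q ^ k) μ) n =
      ∫ x, (fourier ((q : ℤ) ^ k * n) x : ℂ) ∂μ := by
    intro k n
    rw [cf_map, mul_comm]
    push_cast
    rfl
  refine ⟨k + l, fun j _ => ?_⟩
  obtain ⟨i, hi, hi'⟩ := hall j
  refine ⟨fun i' => if i' = i then 1 else 0, fun n _ => ?_⟩
  rw [Finset.sum_eq_single_of_mem i (Finset.mem_range.2 hi)]
  · simp only [if_true, one_mul]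
    rw [← hcf, ← hcf, hi']
  · intro b _ hb
    simp [hb]

/-- **The equivalences.** -/
theorem tfae_erg {p q r : ℕ} (hp : 2 ≤ p) (hq : 2 ≤ q) (hr : 2 ≤ r) (hrq : r ∣ q)
    (hrp : Nat.Coprime r p)
    {μ : Measure UnitAddCircle} [IsProbabilityMeasure μ]
    (hμ : Ergodic (fun x : UnitAddCircle => p • x) μ) :
    List.TFAE [
      ∃ k l : ℕ, 1 ≤ l ∧ img (q ^ (k + l)) μ = img (q ^ k) μ,
      HeckeFin q r μ univ,
      ∃ K : Set ℕ, K.Infinite ∧ HeckeFin q r μ K,
      PrimAC q r μ univ,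
      ∃ K : Set ℕ, K.Infinite ∧ PrimAC q r μ K] := by
  tfae_have 1 → 2 := by
    rintro ⟨k, l, hl, h⟩
    exact heckeFin_of_periodic r hl h
  tfae_have 2 → 3 := fun h => ⟨univ, infinite_univ, h⟩
  tfae_have 2 → 4 := primAC_of_heckeFin (by omega)
  tfae_have 3 → 5 := by
    rintro ⟨K, hK, h⟩
    exact ⟨K, hK, primAC_of_heckeFin (by omega) h⟩
  tfae_have 4 → 5 := fun h => ⟨univ, infinite_univ, h⟩
  tfae_have 5 → 1 := by
    rintro ⟨K, hK, h⟩
    exact periodic_of_primAC hp hq hr hrq hrp hμ hK h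
  tfae_finish

/-- the map `x ↦ p x` is injective on a Borel set of full measure -/
def AEInj (p : ℕ) (μ : Measure UnitAddCircle) : Prop :=
  ∃ E : Set UnitAddCircle, MeasurableSet E ∧ μ Eᶜ = 0 ∧ InjOn (fun x : UnitAddCircle => p • x) E

lemma finite_ker {p : ℕ} (hp : 0 < p) : {t : UnitAddCircle | p • t = 0}.Finite := by
  refine (fib p 0).finite_toSet.subset fun t ht => ?_
  exact Finset.mem_coe.2 ((mem_fib hp).2 ht)

/-- jointly invariant singular measures have zero entropy -/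
theorem aeinj_of_inv {p q : ℕ} (hp : 2 ≤ p) (hq : 2 ≤ q) (hpq : Nat.Coprime p q)
    {ρ : Measure UnitAddCircle} [IsProbabilityMeasure ρ]
    (h1 : MeasurePreserving (fun x : UnitAddCircle => p • x) ρ ρ)
    (h2 : MeasurePreserving (fun x : UnitAddCircle => q • x) ρ ρ) (hs : ρ ⟂ₘ volume) :
    AEInj q ρ := by
  obtain ⟨B, hB, hBt, hBs⟩ := near hp hq hpq h1 hs
  have hinv : ∀ k : ℕ, img (q ^ k) ρ = ρ := by
    intro k
    induction k with
    | zero =>
      rw [pow_zero]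
      have : (fun x : UnitAddCircle => 1 • x) = id := by
        funext x
        rw [one_nsmul, id]
      unfold img
      rw [this, Measure.map_id]
    | succ k ih => rw [pow_succ, ← img_img, ih, img, h2.map_eq]
  have hBt' : Tendsto (fun k => ρ (B k)ᶜ) atTop (𝓝 0) := by
    refine hBt.congr fun k => ?_
    show img (q ^ k) ρ (B k)ᶜ = _
    rw [hinv]
  have hBs' : ∀ (k : ℕ) (t : UnitAddCircle), q • t = 0 → t ≠ 0 →
      ρ ((fun x => x + t) ⁻¹' (B k)) ≤ ρ (B k)ᶜ := by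
    intro k t ht ht0
    have := hBs k t ht ht0
    change img (q ^ k) ρ _ ≤ img (q ^ k) ρ _ at this
    rwa [hinv] at this
  -- a fast subsequence
  have hsub : ∀ n : ℕ, ∃ k, ρ (B k)ᶜ ≤ (1 / 2 : ℝ≥0∞) ^ n := by
    intro n
    have hpos : (0 : ℝ≥0∞) < (1 / 2) ^ n := by
      refine ENNReal.pow_pos ?_ n
      simp
    exact ((hBt'.eventually_le_const hpos)).exists
  choose κ hκ using hsub
  have hsum : ∑' n : ℕ, (1 / 2 : ℝ≥0∞) ^ n ≠ ∞ := by
    rw [ENNReal.tsum_geometric]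
    refine ENNReal.inv_ne_top.2 ?_
    rw [Ne, tsub_eq_zero_iff_le, not_le]
    exact ENNReal.div_lt_of_lt_mul (by norm_num)
  have a1 : ∀ᵐ x ∂ρ, ∀ᶠ n in atTop, x ∉ (B (κ n))ᶜ := by
    refine ae_eventually_notMem (ne_top_of_le_ne_top hsum ?_)
    exact ENNReal.tsum_le_tsum hκ
  have a2 : ∀ t : UnitAddCircle, q • t = 0 → t ≠ 0 →
      ∀ᵐ x ∂ρ, ∀ᶠ n in atTop, x ∉ (fun x => x + t) ⁻¹' (B (κ n)) := by
    intro t ht ht0
    refine ae_eventually_notMem (ne_top_of_le_ne_top hsum ?_)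
    exact ENNReal.tsum_le_tsum fun n => (hBs' (κ n) t ht ht0).trans (hκ n)
  have hfin := finite_ker (p := q) (by omega)
  have a3 : ∀ᵐ x ∂ρ, ∀ t ∈ {t : UnitAddCircle | q • t = 0}, t ≠ 0 →
      ∀ᶠ n in atTop, x ∉ (fun x => x + t) ⁻¹' (B (κ n)) := by
    rw [ae_ball_iff hfin.countable]
    intro t ht
    by_cases ht0 : t = 0
    · exact Eventually.of_forall fun x h => absurd ht0 h
    · filter_upwards [a2 t ht ht0] with x hx _ using hx
  obtain ⟨s, hs1, hs2, hs3⟩ : ∃ s : Set UnitAddCircle, MeasurableSet s ∧ ρ sᶜ = 0 ∧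
      ∀ x ∈ s, (∀ᶠ n in atTop, x ∉ (B (κ n))ᶜ) ∧ ∀ t ∈ {t : UnitAddCircle | q • t = 0}, t ≠ 0 →
      ∀ᶠ n in atTop, x ∉ (fun x => x + t) ⁻¹' (B (κ n)) := by
    have h4 := a1.and a3
    rw [ae_iff] at h4
    obtain ⟨t, ht1, ht2, ht3⟩ := exists_measurable_superset_of_null h4
    refine ⟨tᶜ, ht2.compl, by rwa [compl_compl], fun x hx => ?_⟩
    by_contra hcon
    exact hx (ht1 hcon)
  refine ⟨s, hs1, hs2, fun x hx y hy hxy => ?_⟩
  by_contra hne
  have hxy' : q • x = q • y := hxy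
  have ht : q • (y - x) = 0 := by rw [smul_sub, hxy', sub_self]
  have ht0 : y - x ≠ 0 := sub_ne_zero.2 (Ne.symm hne)
  obtain ⟨n, hn1, hn2⟩ := (((hs3 x hx).2 _ ht ht0).and (hs3 y hy).1).exists
  apply hn1
  show x + (y - x) ∈ B (κ n)
  rw [add_sub_cancel]
  by_contra h5
  exact hn2 h5

/-- **Positive entropy.** -/
theorem rudolph_hecke {p q r : ℕ} (hp : 2 ≤ p) (hq : 2 ≤ q) (hpq : Nat.Coprime p q)
    (hr : 2 ≤ r) (hrq : r ∣ q)
    {μ : Measure UnitAddCircle} [IsProbabilityMeasure μ]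
    (hμ : Ergodic (fun x : UnitAddCircle => p • x) μ) {K : Set ℕ} (hK : K.Infinite)
    (h : PrimAC q r μ K) : μ = volume ∨ AEInj p μ := by
  obtain ⟨k, l, hl, hkl⟩ := periodic_of_primAC hp hq hr hrq (Nat.Coprime.coprime_dvd_left hrq hpq.symm) hμ hK h
  have hvol : IsProbabilityMeasure (volume : Measure UnitAddCircle) :=
    ⟨UnitAddCircle.measure_univ⟩
  have hlam : Ergodic (fun x : UnitAddCircle => p • x) (volume : Measure UnitAddCircle) :=
    AddCircle.ergodic_nsmul (by omega)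
  have hqk : 0 < q ^ k := pow_pos (by omega) k
  rcases erg_eq_or (img_erg hμ (q ^ k)) hlam with h1 | hs
  · left
    by_contra hne
    exact image_ne hp hμ.toMeasurePreserving hne hqk h1
  · right
    have h2 : MeasurePreserving (fun x : UnitAddCircle => (q ^ l) • x) (img (q ^ k) μ)
        (img (q ^ k) μ) := by
      refine ⟨meas_nsmul _, ?_⟩
      show img (q ^ l) (img (q ^ k) μ) = _
      rw [img_img, ← pow_add, hkl]
    have hql : 2 ≤ q ^ l := by
      calc 2 ≤ q := hq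
        _ = q ^ 1 := (pow_one q).symm
        _ ≤ q ^ l := Nat.pow_le_pow_right (by omega) hl
    obtain ⟨E, hE, hE0, hEi⟩ := aeinj_of_inv (p := q ^ l) (q := p) hql hp
      (hpq.symm.pow_left l) h2 (img_erg hμ (q ^ k)).toMeasurePreserving hs
    refine ⟨(fun x : UnitAddCircle => (q ^ k) • x) ⁻¹' E, meas_nsmul _ hE, ?_, ?_⟩
    · rw [← preimage_compl]
      have : img (q ^ k) μ Eᶜ = μ ((fun x : UnitAddCircle => (q ^ k) • x) ⁻¹' Eᶜ) :=
        Measure.map_apply (meas_nsmul _) hE.compl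
      rw [← this, hE0]
    · intro x hx y hy hxy
      have hxy' : p • x = p • y := hxy
      have h3 : (q ^ k) • x = (q ^ k) • y := by
        refine hEi hx hy ?_
        show p • (q ^ k) • x = p • (q ^ k) • y
        rw [smul_comm p, smul_comm p (q ^ k) y, hxy']
      exact smul_inj (hpq.symm.pow_left k) h3 hxy'

end Pool.Agent.Helper33.HK
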