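import Pool.Agent.Helper33.HK.ErgA

/-!
# Finite Hecke relations give uniformly absolutely continuous primitive parts
-/

set_option autoImplicit false

open MeasureTheory Filter Topology Set
open scoped ENNReal

namespace Pool.Agent.Helper33.HK

open Pool.Agent.K3h68.IL Pool.Agent.R202.STP

lemma cf_shift (μ : Measure UnitAddCircle) (u : UnitAddCircle) (n : ℤ) :
    cf (μ.map fun x => x + u) n = fourier n u * cf μ n := by
  unfold cf
  rw [integral_map (measurable_add_const u).aemeasurable
    (fourier n).continuous.aestronglyMeasurable, ← integral_const_mul]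
  refine integral_congr_ae (Eventually.of_forall fun x => ?_)
  show (fourier n (x + u) : ℂ) = fourier n u * fourier n x
  rw [fourier_apply, fourier_apply, fourier_apply, smul_add, AddCircle.toCircle_add,
    Circle.coe_mul, mul_comm]

lemma int_four1 (μ : Measure UnitAddCircle) [IsFiniteMeasure μ] (n : ℤ) :
    Integrable (fun x : UnitAddCircle => (fourier n x : ℂ)) μ :=
  Integrable.of_bound (fourier n).continuous.aestronglyMeasurable 1
    (Eventually.of_forall fun x => (norm_fourier n x).le)

lemma cf_add (μ ν : Measure UnitAddCircle) [IsFiniteMeasure μ] [IsFiniteMeasure ν] (n : ℤ) :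
    cf (μ + ν) n = cf μ n + cf ν n := integral_add_measure (int_four1 μ n) (int_four1 ν n)

lemma cf_smul (c : ℝ≥0∞) (μ : Measure UnitAddCircle) (n : ℤ) :
    cf (c • μ) n = c.toReal * cf μ n := by
  unfold cf
  rw [integral_smul_measure, Complex.real_smul]

lemma cf_sum {ι : Type*} (s : Finset ι) (η : ι → Measure UnitAddCircle)
    (hη : ∀ i, IsFiniteMeasure (η i)) (n : ℤ) : cf (∑ i ∈ s, η i) n = ∑ i ∈ s, cf (η i) n := by
  unfold cf
  rw [integral_finsetSum_measure]
  intro i _
  exact int_four1 (η i) n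

theorem rel_eq {ι : Type*} [Fintype ι] (τ : Measure UnitAddCircle) [IsFiniteMeasure τ]
    (η : ι → Measure UnitAddCircle) (hη : ∀ i, IsFiniteMeasure (η i)) (b : ι → ℝ)
    (u : UnitAddCircle)
    (h : ∀ n : ℤ, (fourier n u : ℂ) ≠ 1 → cf τ n = ∑ i, (b i : ℂ) * cf (η i) n) :
    τ + ∑ i, (ENNReal.ofReal (-b i) • η i + ENNReal.ofReal (b i) • (η i).map fun x => x + u) =
      (τ.map fun x => x + u) +
        ∑ i, (ENNReal.ofReal (b i) • η i + ENNReal.ofReal (-b i) • (η i).map fun x => x + u) := by
  have f1 : ∀ i, ∀ c : ℝ, IsFiniteMeasure (ENNReal.ofReal c • η i) := fun i c =>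
    Measure.smul_finite _ ENNReal.ofReal_ne_top
  have f2 : ∀ i, ∀ c : ℝ, IsFiniteMeasure (ENNReal.ofReal c • (η i).map fun x => x + u) := fun i c =>
    Measure.smul_finite _ ENNReal.ofReal_ne_top
  have f3 : ∀ i, ∀ c d : ℝ, IsFiniteMeasure (ENNReal.ofReal c • η i +
      ENNReal.ofReal d • (η i).map fun x => x + u) := fun i c d => by
    have := f1 i c
    have := f2 i d
    infer_instance
  have f4 : IsFiniteMeasure (∑ i, (ENNReal.ofReal (-b i) • η i +
      ENNReal.ofReal (b i) • (η i).map fun x => x + u)) := by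
    have := fun i => f3 i (-b i) (b i)
    infer_instance
  have f5 : IsFiniteMeasure (∑ i, (ENNReal.ofReal (b i) • η i +
      ENNReal.ofReal (-b i) • (η i).map fun x => x + u)) := by
    have := fun i => f3 i (b i) (-b i)
    infer_instance
  refine Pool.Agent.R202.ext_fourier fun n => ?_
  show cf _ n = cf _ n
  have hterm : ∀ i, ∀ c d : ℝ, cf (ENNReal.ofReal c • η i +
      ENNReal.ofReal d • (η i).map fun x => x + u) n =
      ((max c 0 : ℝ) : ℂ) * cf (η i) n + ((max d 0 : ℝ) : ℂ) * (fourier n u * cf (η i) n) := by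
    intro i c d
    have := f1 i c
    have := f2 i d
    rw [cf_add, cf_smul, cf_smul, cf_shift, ENNReal.toReal_ofReal', ENNReal.toReal_ofReal']
  rw [cf_add, cf_add, cf_sum _ _ (fun i => f3 i _ _), cf_sum _ _ (fun i => f3 i _ _), cf_shift]
  rw [Finset.sum_congr rfl fun i _ => hterm i (-b i) (b i),
    Finset.sum_congr rfl fun i _ => hterm i (b i) (-b i)]
  have key : (1 - (fourier n u : ℂ)) * cf τ n =
      (1 - (fourier n u : ℂ)) * ∑ i, (b i : ℂ) * cf (η i) n := by
    by_cases hn : (fourier n u : ℂ) = 1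
    · rw [hn]; ring
    · rw [h n hn]
  have hb : ∀ i, (b i : ℂ) = ((max (b i) 0 : ℝ) : ℂ) - ((max (-b i) 0 : ℝ) : ℂ) := by
    intro i
    rw [← Complex.ofReal_sub]
    congr 1
    rcases le_total 0 (b i) with h0 | h0
    · rw [max_eq_left h0, max_eq_right (by linarith)]; ring
    · rw [max_eq_right h0, max_eq_left (by linarith)]; ring
  have key2 : (1 - (fourier n u : ℂ)) * cf τ n =
      ∑ i, (1 - (fourier n u : ℂ)) * ((((max (b i) 0 : ℝ) : ℂ) - ((max (-b i) 0 : ℝ) : ℂ)) *
        cf (η i) n) := by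
    rw [key, Finset.mul_sum]
    refine Finset.sum_congr rfl fun i _ => ?_
    rw [hb i]
  have e1 : cf τ n = fourier n u * cf τ n + ∑ i, (1 - (fourier n u : ℂ)) *
      ((((max (b i) 0 : ℝ) : ℂ) - ((max (-b i) 0 : ℝ) : ℂ)) * cf (η i) n) := by
    rw [← key2]; ring
  conv_lhs => rw [e1]
  rw [add_assoc, ← Finset.sum_add_distrib]
  congr 1
  refine Finset.sum_congr rfl fun i _ => ?_
  ring

theorem dom_of_rel {ι : Type*} [Fintype ι] (τ : Measure UnitAddCircle) [IsFiniteMeasure τ]
    (η : ι → Measure UnitAddCircle) (hη : ∀ i, IsFiniteMeasure (η i)) (b : ι → ℝ) {C : ℝ}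
    (hb : ∀ i, |b i| ≤ C) (u : UnitAddCircle)
    (h : ∀ n : ℤ, (fourier n u : ℂ) ≠ 1 → cf τ n = ∑ i, (b i : ℂ) * cf (η i) n)
    (A : Set UnitAddCircle) :
    τ A ≤ (τ.map fun x => x + u) A +
      ENNReal.ofReal C * (∑ i, (η i + (η i).map fun x => x + u)) A := by
  have h1 := rel_eq τ η hη b u h
  have hm : Measurable fun x : UnitAddCircle => x + u := measurable_add_const u
  calc τ A ≤ (τ + ∑ i, (ENNReal.ofReal (-b i) • η i +
        ENNReal.ofReal (b i) • (η i).map fun x => x + u)) A := by
        rw [Measure.add_apply]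
        exact le_self_add
    _ = (τ.map fun x => x + u) A + ∑ i, (ENNReal.ofReal (b i) * η i A +
          ENNReal.ofReal (-b i) * ((η i).map fun x => x + u) A) := by
        rw [h1, Measure.add_apply, Measure.coe_finsetSum, Finset.sum_apply]
        rfl
    _ ≤ (τ.map fun x => x + u) A + ∑ i, (ENNReal.ofReal C * η i A +
          ENNReal.ofReal C * ((η i).map fun x => x + u) A) := by
        gcongr with i _ i _
        · exact (le_abs_self _).trans (hb i)
        · exact (neg_le_abs _).trans (hb i)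
    _ = _ := by
        rw [Measure.coe_finsetSum, Finset.sum_apply, Finset.mul_sum]
        congr 1
        refine Finset.sum_congr rfl fun i _ => ?_
        rw [Measure.add_apply, mul_add]

end Pool.Agent.Helper33.HK
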