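import Pool.Agent.Helper33.HK.Fdim

/-!
# Finite Hecke relations give uniformly absolutely continuous primitive parts, II
-/

set_option autoImplicit false

open MeasureTheory Filter Topology Set
open scoped ENNReal BoundedContinuousFunction

namespace Pool.Agent.Helper33.HK

open Pool.Agent.K3h68.IL Pool.Agent.R202.STP

theorem bounded_coeffs {V : Type*} [NormedAddCommGroup V] [NormedSpace ℝ V] {r : ℕ}
    (v : Fin r → V) : ∃ C : ℝ, 0 ≤ C ∧ ∀ x ∈ Submodule.span ℝ (range v), ‖x‖ ≤ 1 →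
      ∃ c : Fin r → ℝ, (∀ i, |c i| ≤ C) ∧ x = ∑ i, c i • v i := by
  classical
  obtain ⟨κ, a, ha, hsp, hli⟩ := exists_linearIndependent' ℝ v
  have hfin : Finite κ := Finite.of_injective a ha
  have := Fintype.ofFinite κ
  set f : (κ → ℝ) →ₗ[ℝ] V := Fintype.linearCombination ℝ (v ∘ a) with hf
  have hker : LinearMap.ker f = ⊥ := by
    rw [hf]
    exact LinearMap.ker_eq_bot.2 (linearIndependent_iff_injective_fintypeLinearCombination.1 hli)
  obtain ⟨K, hK, hanti⟩ := f.exists_antilipschitzWith hker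
  refine ⟨K, K.2, fun x hx hx1 => ?_⟩
  rw [← hsp] at hx
  obtain ⟨c, hc⟩ := (Submodule.mem_span_range_iff_exists_fun ℝ).1 hx
  have hfc : f c = x := by
    rw [hf, Fintype.linearCombination_apply]
    exact hc
  have hcn : ‖c‖ ≤ K := by
    have h1 := hanti.le_mul_dist c 0
    rw [dist_zero_right, map_zero, dist_zero_right, hfc] at h1
    exact h1.trans (mul_le_of_le_one_right K.2 hx1)
  refine ⟨fun i => ∑ j, if a j = i then c j else 0, fun i => ?_, ?_⟩
  · by_cases hi : ∃ j, a j = i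
    · obtain ⟨j, rfl⟩ := hi
      have : (∑ j', if a j' = a j then c j' else 0) = c j := by
        rw [Finset.sum_eq_single j]
        · simp
        · intro b _ hb
          rw [if_neg fun h => hb (ha h)]
        · simp
      show |∑ j', if a j' = a j then c j' else 0| ≤ K
      rw [this]
      exact (norm_le_pi_norm c j).trans hcn
    · push Not at hi
      have : (∑ j', if a j' = i then c j' else 0) = 0 :=
        Finset.sum_eq_zero fun j _ => if_neg (hi j)
      show |∑ j', if a j' = i then c j' else 0| ≤ K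
      rw [this, abs_zero]
      exact K.2
  · rw [← hc]
    have : ∀ i, (∑ j, if a j = i then c j else 0) • v i = ∑ j, if a j = i then c j • v i else 0 := by
      intro i
      rw [Finset.sum_smul]
      refine Finset.sum_congr rfl fun j _ => ?_
      split_ifs <;> simp
    simp_rw [this]
    rw [Finset.sum_comm]
    refine Finset.sum_congr rfl fun j _ => ?_
    simp

/-- the primitive coefficients of the `k`-th image -/
noncomputable def phi (q r : ℕ) (μ : Measure UnitAddCircle) (k : ℕ) (n : ℤ) : ℂ :=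
  if (r : ℤ) ∣ n then 0 else cf μ ((q : ℤ) ^ k * n)

lemma norm_cf_le (μ : Measure UnitAddCircle) [IsProbabilityMeasure μ] (n : ℤ) : ‖cf μ n‖ ≤ 1 := by
  unfold cf
  have := norm_integral_le_of_norm_le_const (μ := μ) (f := fun x => (fourier n x : ℂ)) (C := 1)
    (Eventually.of_forall fun x => (norm_fourier n x).le)
  simpa using this

lemma norm_phi_le (q r : ℕ) (μ : Measure UnitAddCircle) [IsProbabilityMeasure μ] (k : ℕ) (n : ℤ) :
    ‖phi q r μ k n‖ ≤ 1 := by
  unfold phi
  split_ifs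
  · simp
  · exact norm_cf_le μ _

lemma cf_conj (μ : Measure UnitAddCircle) (n : ℤ) : cf μ (-n) = (starRingEnd ℂ) (cf μ n) := by
  unfold cf
  rw [← integral_conj]
  exact integral_congr_ae (Eventually.of_forall fun y => fourier_neg)

lemma phi_neg (q r : ℕ) (μ : Measure UnitAddCircle) (k : ℕ) (n : ℤ) :
    phi q r μ k (-n) = (starRingEnd ℂ) (phi q r μ k n) := by
  unfold phi
  by_cases h : (r : ℤ) ∣ n
  · rw [if_pos h, if_pos ((dvd_neg).2 h), map_zero]
  · rw [if_neg h, if_neg fun h' => h ((dvd_neg).1 h'), mul_neg, cf_conj]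

/-- the bounded function -/
noncomputable def Phi (q r : ℕ) (μ : Measure UnitAddCircle) [IsProbabilityMeasure μ] (k : ℕ) :
    ℤ →ᵇ ℂ := BoundedContinuousFunction.ofNormedAddCommGroupDiscrete (phi q r μ k) 1 (norm_phi_le q r μ k)

/-- the functions `n ↦ μ^(q ^ k n)` on the integers that are not multiples of `r`, `k ∈ K`, lie in
the space spanned by finitely many of them -/
def HeckeFin (q r : ℕ) (μ : Measure UnitAddCircle) (K : Set ℕ) : Prop :=
  ∃ N : ℕ, ∀ k ∈ K, ∃ c : ℕ → ℂ, ∀ n : ℤ, ¬ (r : ℤ) ∣ n →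
    ∫ x, (fourier ((q : ℤ) ^ k * n) x : ℂ) ∂μ =
      ∑ i ∈ Finset.range N, c i * ∫ x, (fourier ((q : ℤ) ^ i * n) x : ℂ) ∂μ

lemma four_uu {r : ℕ} (hr : 0 < r) {n : ℤ} (h : (fourier n (uu r) : ℂ) ≠ 1) : ¬ (r : ℤ) ∣ n := by
  rintro ⟨l, rfl⟩
  apply h
  rw [fourier_apply, mul_comm, mul_smul, natCast_zsmul, nsmul_uu hr, smul_zero]
  simp

theorem primAC_of_heckeFin {q r : ℕ} (hr0 : 0 < r) {μ : Measure UnitAddCircle}
    [IsProbabilityMeasure μ] {K : Set ℕ} (h : HeckeFin q r μ K) : PrimAC q r μ K := by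
  obtain ⟨N, hr⟩ := h
  obtain ⟨C, hC, hCc⟩ := bounded_coeffs (V := ℤ →ᵇ ℂ) (r := N) fun i => Phi q r μ i
  have key : ∀ k ∈ K, ∃ c : Fin N → ℝ, (∀ i, |c i| ≤ C) ∧ ∀ n : ℤ, ¬ (r : ℤ) ∣ n →
      cf μ ((q : ℤ) ^ k * n) = ∑ i, (c i : ℂ) * cf μ ((q : ℤ) ^ (i : ℕ) * n) := by
    intro k hk
    obtain ⟨c, hc⟩ := hr k hk
    have h1 : ∀ n : ℤ, phi q r μ k n = ∑ i ∈ Finset.range N, c i * phi q r μ i n := by
      intro n
      unfold phi
      by_cases hn : (r : ℤ) ∣ n
      · simp [hn]
      · simp only [if_neg hn]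
        exact hc n hn
    have h2 : ∀ n : ℤ, phi q r μ k n = ∑ i ∈ Finset.range N, (starRingEnd ℂ) (c i) * phi q r μ i n := by
      intro n
      have h3 := congrArg (starRingEnd ℂ) (h1 (-n))
      rw [phi_neg, Complex.conj_conj, map_sum] at h3
      rw [h3]
      refine Finset.sum_congr rfl fun i _ => ?_
      rw [map_mul, phi_neg, Complex.conj_conj]
    have h3 : ∀ n : ℤ, phi q r μ k n = ∑ i ∈ Finset.range N, ((c i).re : ℂ) * phi q r μ i n := by
      intro n
      have h4 : (2 : ℂ) * phi q r μ k n = 2 * ∑ i ∈ Finset.range N, ((c i).re : ℂ) * phi q r μ i n := by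
        rw [two_mul]
        conv_lhs => rw [h1 n]
        rw [← h1 n]
        conv_lhs =>
          congr
          · rw [h1 n]
          · rw [h2 n]
        rw [← Finset.sum_add_distrib, Finset.mul_sum]
        refine Finset.sum_congr rfl fun i _ => ?_
        have : c i + (starRingEnd ℂ) (c i) = 2 * ((c i).re : ℂ) := by
          rw [Complex.add_conj]
          push_cast
          ring
        rw [← add_mul, this]
        ring
      exact mul_left_cancel₀ two_ne_zero h4
    have h4 : Phi q r μ k = ∑ i : Fin N, (c i).re • Phi q r μ i := by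
      ext n
      show phi q r μ k n = (∑ i : Fin N, (c i).re • Phi q r μ i : ℤ →ᵇ ℂ) n
      rw [h3 n, BoundedContinuousFunction.coe_sum, Finset.sum_apply,
        ← Fin.sum_univ_eq_sum_range (fun i => ((c i).re : ℂ) * phi q r μ i n) N]
      refine Finset.sum_congr rfl fun i _ => ?_
      rfl
    have h5 : Phi q r μ k ∈ Submodule.span ℝ (range fun i : Fin N => Phi q r μ i) := by
      rw [h4]
      exact Submodule.sum_mem _ fun i _ => Submodule.smul_mem _ _ (Submodule.subset_span ⟨i, rfl⟩)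
    have h6 : ‖Phi q r μ k‖ ≤ 1 :=
      (BoundedContinuousFunction.norm_le zero_le_one).2 (norm_phi_le q r μ k)
    obtain ⟨d, hd, hd'⟩ := hCc _ h5 h6
    refine ⟨d, hd, fun n hn => ?_⟩
    have h7 : phi q r μ k n = ∑ i : Fin N, (d i : ℂ) * phi q r μ i n := by
      have h8 : (Phi q r μ k) n = (∑ i : Fin N, d i • Phi q r μ i : ℤ →ᵇ ℂ) n := by rw [hd']
      rw [BoundedContinuousFunction.coe_sum, Finset.sum_apply] at h8
      exact h8
    unfold phi at h7
    simp only [if_neg hn] at h7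
    exact h7
  -- the measure
  have hcf : ∀ (k : ℕ) (n : ℤ), cf (img (q ^ k) μ) n = cf μ ((q : ℤ) ^ k * n) := by
    intro k n
    rw [cf_map, mul_comm]
    push_cast
    rfl
  set m : Measure UnitAddCircle :=
    ∑ i : Fin N, (img (q ^ (i : ℕ)) μ + (img (q ^ (i : ℕ)) μ).map fun x => x + uu r) with hm
  have hmf : IsFiniteMeasure m := by
    rw [hm]
    infer_instance
  have key2 : ∀ k ∈ K, ∀ A : Set UnitAddCircle, MeasurableSet A →
      μ {x | (q ^ k) • x ∈ A} ≤ μ {x | (q ^ k) • x + uu r ∈ A} + ENNReal.ofReal C * m A := by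
    intro k hk A hA
    obtain ⟨c, hc, hrel⟩ := key k hk
    have h1 := dom_of_rel (img (q ^ k) μ) (fun i : Fin N => img (q ^ (i : ℕ)) μ)
      (fun i => inferInstance) c hc (uu r) (fun n hn => by
        rw [hcf, hrel n (four_uu hr0 hn)]
        refine Finset.sum_congr rfl fun i _ => ?_
        rw [hcf]) A
    have hadd : Measurable fun x : UnitAddCircle => x + uu r := measurable_add_const _
    have e1 : img (q ^ k) μ A = μ {x | (q ^ k) • x ∈ A} := Measure.map_apply (meas_nsmul _) hA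
    have e2 : ((img (q ^ k) μ).map fun x => x + uu r) A = μ {x | (q ^ k) • x + uu r ∈ A} := by
      rw [Measure.map_apply hadd hA, Measure.map_apply (meas_nsmul _) (hadd hA)]
      rfl
    rw [e1, e2] at h1
    exact h1
  refine ⟨m, hmf, fun ε hε => ?_⟩
  have hC1 : ENNReal.ofReal C + 1 ≠ 0 := by simp
  have hCt : ENNReal.ofReal C + 1 ≠ ∞ := ENNReal.add_ne_top.2 ⟨ENNReal.ofReal_ne_top, ENNReal.one_ne_top⟩
  refine ⟨ε / (ENNReal.ofReal C + 1), ENNReal.div_pos hε.ne' hCt, fun k hk A hA hmA => ?_⟩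
  refine (key2 k hk A hA).trans ?_
  gcongr
  calc ENNReal.ofReal C * m A ≤ (ENNReal.ofReal C + 1) * (ε / (ENNReal.ofReal C + 1)) :=
        mul_le_mul' le_self_add hmA
    _ ≤ ε := ENNReal.mul_div_le

end Pool.Agent.Helper33.HK
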