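import Pool.Agent.Helper33.HK.Sat

/-!
# Growth of the measures `ω_k` and the coset Parseval identity
-/

set_option autoImplicit false

open MeasureTheory Filter Topology Set
open scoped ENNReal

namespace Pool.Agent.Helper33.HK

open Pool.Agent.K3h68.IL Pool.Agent.R202.STP

lemma av_fourier (p : ℕ) (a : ℤ) (N : ℕ) (x : UnitAddCircle) :
    av (fun x : UnitAddCircle => p • x) (fun x => (fourier a x : ℂ)) N x =
      (N : ℂ)⁻¹ * ∑ i ∈ Finset.range N, (fourier (a * (p : ℤ) ^ i) x : ℂ) := by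
  unfold av
  congr 1
  refine Finset.sum_congr rfl fun i _ => ?_
  show (fourier a ((fun x : UnitAddCircle => p • x)^[i] x) : ℂ) = _
  rw [Pool.Agent.R202.STP.iter_smul, fourier_nsmul]
  push_cast
  rfl

lemma parseval_coset {n N : ℕ} (hn : 0 < n) (hN : 0 < N) (p : ℕ) (a : ℤ)
    (h : ∀ i j : ℕ, i < N → j < N → (n : ℤ) ∣ a * (p : ℤ) ^ i - a * (p : ℤ) ^ j → i = j)
    (z : UnitAddCircle) :
    ∑ j ∈ Finset.range n, ‖av (fun x : UnitAddCircle => p • x) (fun x => (fourier a x : ℂ)) N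
      (pre n z j)‖ ^ 2 = (n : ℝ) / N := by
  have hNC : (N : ℂ) ≠ 0 := by exact_mod_cast hN.ne'
  apply Complex.ofReal_injective
  push_cast
  have e1 : ∀ x : UnitAddCircle, ((‖av (fun x : UnitAddCircle => p • x)
      (fun x => (fourier a x : ℂ)) N x‖ : ℂ)) ^ 2 = (N : ℂ)⁻¹ * (N : ℂ)⁻¹ *
      ∑ i ∈ Finset.range N, ∑ l ∈ Finset.range N,
        (fourier (a * (p : ℤ) ^ i - a * (p : ℤ) ^ l) x : ℂ) := by
    intro x
    rw [av_fourier]
    have : ∀ w : ℂ, ((‖w‖ : ℂ)) ^ 2 = w * (starRingEnd ℂ) w := by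
      intro w
      rw [Complex.mul_conj, Complex.normSq_eq_norm_sq]
      push_cast
      rfl
    rw [this, map_mul, map_inv₀, Complex.conj_natCast, map_sum]
    have e2 : (∑ i ∈ Finset.range N, (fourier (a * (p : ℤ) ^ i) x : ℂ)) *
        ∑ l ∈ Finset.range N, (starRingEnd ℂ) (fourier (a * (p : ℤ) ^ l) x : ℂ) =
        ∑ i ∈ Finset.range N, ∑ l ∈ Finset.range N,
        (fourier (a * (p : ℤ) ^ i - a * (p : ℤ) ^ l) x : ℂ) := by
      rw [Finset.sum_mul_sum]
      refine Finset.sum_congr rfl fun i _ => Finset.sum_congr rfl fun l _ => ?_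
      rw [← fourier_neg, ← fourier_add, sub_eq_add_neg]
    rw [← e2]
    ring
  rw [Finset.sum_congr rfl fun j _ => e1 (pre n z j), ← Finset.mul_sum, Finset.sum_comm]
  have e3 : ∀ i ∈ Finset.range N, ∑ j ∈ Finset.range n, ∑ l ∈ Finset.range N,
      (fourier (a * (p : ℤ) ^ i - a * (p : ℤ) ^ l) (pre n z j) : ℂ) = n := by
    intro i hi
    rw [Finset.sum_comm, Finset.sum_eq_single_of_mem i hi]
    · simp
    · intro l hl hli
      unfold pre
      rw [sum_coset hn, if_neg]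
      intro hd
      exact hli (h i l (Finset.mem_range.1 hi) (Finset.mem_range.1 hl) hd).symm
  rw [Finset.sum_congr rfl e3, Finset.sum_const, Finset.card_range, nsmul_eq_mul]
  field_simp

lemma fs_av_le {n N D : ℕ} (hn : 0 < n) (hN : 0 < N) (hD : n ≤ D * N) (p : ℕ) (a : ℤ)
    (h : ∀ i j : ℕ, i < N → j < N → (n : ℤ) ∣ a * (p : ℤ) ^ i - a * (p : ℤ) ^ j → i = j)
    (z : UnitAddCircle) :
    fs n (fun y => ‖av (fun x : UnitAddCircle => p • x) (fun x => (fourier a x : ℂ)) N y‖ₑ ^ 2) z ≤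
      D := by
  rw [fs_eq hn]
  have e1 : ∀ w : ℂ, ‖w‖ₑ ^ 2 = ENNReal.ofReal (‖w‖ ^ 2) := by
    intro w
    rw [← ofReal_norm, ENNReal.ofReal_pow (norm_nonneg _)]
  simp_rw [e1]
  rw [← ENNReal.ofReal_sum_of_nonneg fun j _ => sq_nonneg _, parseval_coset hn hN p a h z]
  rw [← ENNReal.ofReal_natCast D]
  refine ENNReal.ofReal_le_ofReal ?_
  have hN' : (0 : ℝ) < N := by exact_mod_cast hN
  rw [div_le_iff₀ hN']
  exact_mod_cast hD

open Classical in
/-- the weight -/
noncomputable def wt (B : Set UnitAddCircle) (z : UnitAddCircle) : ℝ≥0∞ :=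
  if z ∈ B then 1 else 3 / 2

lemma one_le_32 : (1 : ℝ≥0∞) ≤ 3 / 2 := by
  rw [ENNReal.le_div_iff_mul_le (Or.inl two_ne_zero) (Or.inl ENNReal.ofNat_ne_top)]
  norm_num

lemma one_le_wt (B : Set UnitAddCircle) (z : UnitAddCircle) : 1 ≤ wt B z := by
  unfold wt
  split_ifs
  · exact le_rfl
  · exact one_le_32

lemma wt_le (B : Set UnitAddCircle) (z : UnitAddCircle) : wt B z ≤ 3 / 2 := by
  unfold wt
  split_ifs
  · exact one_le_32
  · exact le_rfl

lemma meas_wt {B : Set UnitAddCircle} (hB : MeasurableSet B) : Measurable (wt B) :=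
  Measurable.ite hB measurable_const measurable_const

/-- the inequality coming from a Hahn set -/
lemma lintegral_wt_le {τ Ω : Measure UnitAddCircle} (hle : τ ≤ Ω) {B : Set UnitAddCircle}
    (hB : MeasurableSet B)
    (hBc : ∀ t, MeasurableSet t → t ⊆ Bᶜ → 3 * τ t ≤ 2 * Ω t)
    {G : UnitAddCircle → ℝ≥0∞} (hG : Measurable G) :
    ∫⁻ z, wt B z * G z ∂τ ≤ ∫⁻ z, G z ∂Ω := by
  rw [← lintegral_add_compl _ hB, ← lintegral_add_compl (fun z => G z) hB (μ := Ω)]
  refine add_le_add ?_ ?_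
  · have : ∫⁻ z in B, wt B z * G z ∂τ = ∫⁻ z in B, G z ∂τ := by
      refine setLIntegral_congr_fun hB fun z hz => ?_
      show wt B z * G z = G z
      unfold wt
      rw [if_pos hz, one_mul]
    rw [this]
    exact lintegral_mono' (Measure.restrict_mono le_rfl hle) le_rfl
  · have : ∫⁻ z in Bᶜ, wt B z * G z ∂τ = ∫⁻ z, G z ∂((3 / 2 : ℝ≥0∞) • τ.restrict Bᶜ) := by
      rw [lintegral_smul_measure, smul_eq_mul, ← lintegral_const_mul _ hG]
      refine setLIntegral_congr_fun hB.compl fun z hz => ?_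
      show wt B z * G z = 3 / 2 * G z
      unfold wt
      rw [if_neg hz]
    rw [this]
    refine lintegral_mono' ?_ le_rfl
    refine Measure.le_iff.2 fun A hA => ?_
    rw [Measure.smul_apply, Measure.restrict_apply hA, Measure.restrict_apply hA, smul_eq_mul]
    have h1 := hBc (A ∩ Bᶜ) (hA.inter hB.compl) inter_subset_right
    calc 3 / 2 * τ (A ∩ Bᶜ) = (3 * τ (A ∩ Bᶜ)) / 2 := by
          rw [div_eq_mul_inv, div_eq_mul_inv]; ring
      _ ≤ (2 * Ω (A ∩ Bᶜ)) / 2 := ENNReal.div_le_div_right h1 2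
      _ = Ω (A ∩ Bᶜ) := by
          rw [mul_comm, ENNReal.mul_div_cancel_right two_ne_zero ENNReal.ofNat_ne_top]

/-- the product of the weights -/
noncomputable def W (q : ℕ) (B : ℕ → Set UnitAddCircle) (K : ℕ) (x : UnitAddCircle) : ℝ≥0∞ :=
  ∏ k ∈ Finset.range K, wt (B k) ((q ^ k) • x)

lemma meas_W {q : ℕ} {B : ℕ → Set UnitAddCircle} (hB : ∀ k, MeasurableSet (B k)) (K : ℕ) :
    Measurable (W q B K) :=
  Finset.measurable_prod _ fun k _ => (meas_wt (hB k)).comp (meas_nsmul _)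

lemma W_succ (q : ℕ) (B : ℕ → Set UnitAddCircle) (K : ℕ) (x : UnitAddCircle) :
    W q B (K + 1) x = W q B K x * wt (B K) ((q ^ K) • x) := Finset.prod_range_succ _ _

lemma W_mono (q : ℕ) (B : ℕ → Set UnitAddCircle) (x : UnitAddCircle) :
    Monotone fun K => W q B K x := by
  refine monotone_nat_of_le_succ fun K => ?_
  rw [W_succ]
  exact le_mul_of_one_le_right bot_le (one_le_wt _ _)

lemma W_le (q : ℕ) (B : ℕ → Set UnitAddCircle) (K : ℕ) (x : UnitAddCircle) :
    W q B K x ≤ (3 / 2) ^ K := by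
  unfold W
  calc ∏ k ∈ Finset.range K, wt (B k) ((q ^ k) • x) ≤ ∏ _k ∈ Finset.range K, (3 / 2 : ℝ≥0∞) :=
        Finset.prod_le_prod' fun k _ => wt_le _ _
    _ = _ := by rw [Finset.prod_const, Finset.card_range]

/-- **Growth.** -/
theorem growth {q : ℕ} (hq : 0 < q) (σ : Measure UnitAddCircle) {B : ℕ → Set UnitAddCircle}
    (hB : ∀ k, MeasurableSet (B k))
    (hBc : ∀ k t, MeasurableSet t → t ⊆ (B k)ᶜ →
      3 * σ.map (fun x : UnitAddCircle => (q ^ k) • x) t ≤
        2 * sat q (σ.map fun x : UnitAddCircle => (q ^ k) • x) t) (K : ℕ)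
    {F : UnitAddCircle → ℝ≥0∞} (hF : Measurable F) :
    ∫⁻ x, W q B K x * F x ∂σ ≤ ∫⁻ x, fs (q ^ K) F ((q ^ K) • x) ∂σ := by
  induction K generalizing F with
  | zero =>
    refine le_of_eq (lintegral_congr fun x => ?_)
    rw [pow_zero, fs_one, one_nsmul]
    simp [W]
  | succ K ih =>
    have hqK : 0 < q ^ K := pow_pos hq K
    have hm : Measurable fun y : UnitAddCircle => wt (B K) ((q ^ K) • y) * F y :=
      ((meas_wt (hB K)).comp (meas_nsmul _)).mul hF
    have hG : Measurable (fs (q ^ K) F) := meas_fs hqK hF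
    calc ∫⁻ x, W q B (K + 1) x * F x ∂σ =
          ∫⁻ x, W q B K x * (wt (B K) ((q ^ K) • x) * F x) ∂σ := by
          refine lintegral_congr fun x => ?_
          rw [W_succ, mul_assoc]
      _ ≤ ∫⁻ x, fs (q ^ K) (fun y => wt (B K) ((q ^ K) • y) * F y) ((q ^ K) • x) ∂σ := ih hm
      _ = ∫⁻ x, wt (B K) ((q ^ K) • x) * fs (q ^ K) F ((q ^ K) • x) ∂σ := by
          refine lintegral_congr fun x => ?_
          exact fs_weight hqK (wt (B K)) F _
      _ = ∫⁻ z, wt (B K) z * fs (q ^ K) F z ∂(σ.map fun x : UnitAddCircle => (q ^ K) • x) := by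
          exact (lintegral_map ((meas_wt (hB K)).mul hG) (meas_nsmul _)).symm
      _ ≤ ∫⁻ z, fs (q ^ K) F z ∂(sat q (σ.map fun x : UnitAddCircle => (q ^ K) • x)) :=
          lintegral_wt_le (le_sat hq _) (hB K) (hBc K) hG
      _ = ∫⁻ z, fs q (fs (q ^ K) F) (q • z) ∂(σ.map fun x : UnitAddCircle => (q ^ K) • x) :=
          lintegral_sat hq _ hG
      _ = ∫⁻ x, fs q (fs (q ^ K) F) (q • (q ^ K) • x) ∂σ := by
          exact lintegral_map ((meas_fs hq hG).comp (meas_nsmul q)) (meas_nsmul _)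
      _ = ∫⁻ x, fs (q ^ (K + 1)) F ((q ^ (K + 1)) • x) ∂σ := by
          refine lintegral_congr fun x => ?_
          rw [pow_succ, fs_mul hqK hq, smul_smul, mul_comm q]

end Pool.Agent.Helper33.HK
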