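import Pool.Agent.Helper33.HK.ErgB

/-!
# Limits of averages of the images `T_{q ^ k} σ`
-/

set_option autoImplicit false

open MeasureTheory Filter Topology Set
open scoped ENNReal

namespace Pool.Agent.Helper33.HK

open Pool.Agent.K3h68.IL Pool.Agent.R202.STP

/-- averages over the window `[M, M + N)` -/
noncomputable def wav (q : ℕ) (σ : Measure UnitAddCircle) (N M : ℕ) : Measure UnitAddCircle :=
  (N : ℝ≥0∞)⁻¹ • ∑ i ∈ Finset.range N, img (q ^ (M + i)) σ

lemma wav_apply (q : ℕ) (σ : Measure UnitAddCircle) (N M : ℕ) (A : Set UnitAddCircle) :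
    wav q σ N M A = (N : ℝ≥0∞)⁻¹ * ∑ i ∈ Finset.range N, img (q ^ (M + i)) σ A := by
  unfold wav
  rw [Measure.smul_apply, Measure.coe_finsetSum, Finset.sum_apply, smul_eq_mul]

lemma wav_prob (q : ℕ) (σ : Measure UnitAddCircle) [IsProbabilityMeasure σ] {N : ℕ} (hN : 0 < N)
    (M : ℕ) : IsProbabilityMeasure (wav q σ N M) := by
  refine ⟨?_⟩
  rw [wav_apply]
  simp only [measure_univ, Finset.sum_const, Finset.card_range, nsmul_eq_mul, mul_one]
  exact ENNReal.inv_mul_cancel (by exact_mod_cast hN.ne') (ENNReal.natCast_ne_top N)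

lemma cf_wav (q : ℕ) (σ : Measure UnitAddCircle) [IsProbabilityMeasure σ] (N M : ℕ) (n : ℤ) :
    cf (wav q σ N M) n = (N : ℂ)⁻¹ * ∑ i ∈ Finset.range N, cf (img (q ^ (M + i)) σ) n := by
  unfold wav
  rw [cf_smul, cf_sum _ _ (fun i => inferInstance), ENNReal.toReal_inv, ENNReal.toReal_natCast]
  push_cast
  rfl

theorem exists_limit (q : ℕ) (σ : Measure UnitAddCircle) [IsProbabilityMeasure σ] (N M : ℕ → ℕ)
    (hN : ∀ j, j < N j) :
    ∃ (F : Ultrafilter ℕ) (ρ : Measure UnitAddCircle), (F : Filter ℕ) ≤ atTop ∧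
      IsProbabilityMeasure ρ ∧
      (∀ n : ℤ, Tendsto (fun j => cf (wav q σ (N j) (M j)) n) F (𝓝 (cf ρ n))) ∧
      (∀ O : Set UnitAddCircle, IsOpen O →
        ρ O ≤ liminf (fun j => wav q σ (N j) (M j) O) (F : Filter ℕ)) := by
  set u : ℕ → ProbabilityMeasure UnitAddCircle := fun j =>
    ⟨wav q σ (N j) (M j), wav_prob q σ (by have := hN j; omega) (M j)⟩ with hu
  set F : Ultrafilter ℕ := hyperfilter ℕ with hF
  have hFle : (F : Filter ℕ) ≤ atTop := by
    rw [← Nat.cofinite_eq_atTop]; exact hyperfilter_le_cofinite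
  obtain ⟨η, -, hη⟩ := (isCompact_univ (X := ProbabilityMeasure UnitAddCircle)).ultrafilter_le_nhds
    (F.map u) (by simp)
  have ht : Tendsto u F (𝓝 η) := hη
  refine ⟨F, η, hFle, inferInstance, fun n => ?_, fun O hO => ?_⟩
  · exact (ProbabilityMeasure.tendsto_iff_forall_integral_rclike_tendsto ℂ).1 ht
      (BoundedContinuousFunction.mkOfCompact (fourier n))
  · exact ProbabilityMeasure.le_liminf_measure_open_of_tendsto ht hO

lemma inv_of_cf {p : ℕ} {ρ : Measure UnitAddCircle} [IsProbabilityMeasure ρ]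
    (h : ∀ n : ℤ, cf ρ (n * p) = cf ρ n) : MeasurePreserving (fun x : UnitAddCircle => p • x) ρ ρ := by
  refine ⟨meas_nsmul p, ?_⟩
  have : IsProbabilityMeasure (ρ.map fun x : UnitAddCircle => p • x) := img_prob p ρ
  refine ext_cf fun n _ => ?_
  rw [cf_map, h]

theorem limit_inv_p {p q : ℕ} {σ : Measure UnitAddCircle} [IsProbabilityMeasure σ]
    (hσ : MeasurePreserving (fun x : UnitAddCircle => p • x) σ σ) {N M : ℕ → ℕ}
    {F : Ultrafilter ℕ} {ρ : Measure UnitAddCircle} [IsProbabilityMeasure ρ]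
    (hc : ∀ n : ℤ, Tendsto (fun j => cf (wav q σ (N j) (M j)) n) F (𝓝 (cf ρ n))) :
    MeasurePreserving (fun x : UnitAddCircle => p • x) ρ ρ := by
  refine inv_of_cf fun n => ?_
  refine tendsto_nhds_unique (hc (n * p)) ((hc n).congr fun j => ?_)
  rw [cf_wav, cf_wav]
  congr 1
  refine Finset.sum_congr rfl fun i _ => ?_
  rw [cf_map, cf_map, mul_right_comm, cf_mul hσ]

theorem limit_inv_q {q : ℕ} {σ : Measure UnitAddCircle} [IsProbabilityMeasure σ] {N M : ℕ → ℕ}
    (hN : ∀ j, j < N j) {F : Ultrafilter ℕ} (hF : (F : Filter ℕ) ≤ atTop)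
    {ρ : Measure UnitAddCircle} [IsProbabilityMeasure ρ]
    (hc : ∀ n : ℤ, Tendsto (fun j => cf (wav q σ (N j) (M j)) n) F (𝓝 (cf ρ n))) :
    MeasurePreserving (fun x : UnitAddCircle => q • x) ρ ρ := by
  refine inv_of_cf fun n => ?_
  have h1 : Tendsto (fun j => cf (wav q σ (N j) (M j)) (n * q) - cf (wav q σ (N j) (M j)) n) F
      (𝓝 0) := by
    refine Tendsto.mono_left ?_ hF
    refine squeeze_zero_norm (a := fun j : ℕ => 2 * (1 / ((j : ℝ) + 1))) (fun j => ?_) ?_
    · rw [cf_wav, cf_wav, ← mul_sub, ← Finset.sum_sub_distrib]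
      have h2 : ∀ i ∈ Finset.range (N j), cf (img (q ^ (M j + i)) σ) (n * q) -
          cf (img (q ^ (M j + i)) σ) n =
          (fun i => cf σ (n * (q : ℤ) ^ (M j + i))) (i + 1) -
          (fun i => cf σ (n * (q : ℤ) ^ (M j + i))) i := by
        intro i _
        rw [cf_map, cf_map]
        push_cast
        congr 2
        ring
      rw [Finset.sum_congr rfl h2, Finset.sum_range_sub (fun i => cf σ (n * (q : ℤ) ^ (M j + i)))]
      have hN0 : (0 : ℝ) < N j := by exact_mod_cast (show 0 < N j by have := hN j; omega)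
      have hNj : (j : ℝ) + 1 ≤ N j := by exact_mod_cast hN j
      rw [norm_mul, norm_inv, Complex.norm_natCast]
      have h3 : ‖cf σ (n * (q : ℤ) ^ (M j + N j)) - cf σ (n * (q : ℤ) ^ (M j + 0))‖ ≤ 2 := by
        refine (norm_sub_le _ _).trans ?_
        have := norm_cf_le σ (n * (q : ℤ) ^ (M j + N j))
        have := norm_cf_le σ (n * (q : ℤ) ^ (M j + 0))
        linarith
      calc (N j : ℝ)⁻¹ * ‖cf σ (n * (q : ℤ) ^ (M j + N j)) - cf σ (n * (q : ℤ) ^ (M j + 0))‖
          ≤ (N j : ℝ)⁻¹ * 2 := by gcongr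
        _ = 2 * (1 / (N j : ℝ)) := by rw [one_div]; ring
        _ ≤ 2 * (1 / ((j : ℝ) + 1)) := by gcongr
    · have := (tendsto_one_div_add_atTop_nhds_zero_nat (𝕜 := ℝ)).const_mul 2
      rwa [mul_zero] at this
  have h2 := h1.add (hc n)
  rw [zero_add] at h2
  exact tendsto_nhds_unique (hc (n * q)) (h2.congr fun j => by ring)

/-- The absolutely continuous part of an invariant measure. -/
theorem inv_ac_part {X : Type*} [MeasurableSpace X] {T : X → X} {ρ m : Measure X}
    [IsFiniteMeasure ρ] [IsFiniteMeasure m] (hT : MeasurePreserving T ρ ρ) (hm : m.map T ≪ m) :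
    MeasurePreserving T (m.withDensity (ρ.rnDeriv m)) (m.withDensity (ρ.rnDeriv m)) := by
  set w := m.withDensity (ρ.rnDeriv m) with hw
  have hdec : ρ = ρ.singularPart m + w := ρ.haveLebesgueDecomposition_add m
  have hwρ : w ≤ ρ := by
    conv_rhs => rw [hdec]
    exact Measure.le_add_left le_rfl
  have hwf : IsFiniteMeasure w := isFiniteMeasure_of_le ρ hwρ
  have hwm : w ≪ m := withDensity_absolutelyContinuous _ _
  have h1 : w.map T ≪ m := (hwm.map hT.measurable).trans hm
  have h2 : w.map T ≤ ρ := by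
    refine Measure.le_iff.2 fun A hA => ?_
    rw [Measure.map_apply hT.measurable hA]
    calc w (T ⁻¹' A) ≤ ρ (T ⁻¹' A) := hwρ _
      _ = ρ A := hT.measure_preimage hA.nullMeasurableSet
  obtain ⟨S, hS, hS1, hS2⟩ := ρ.mutuallySingular_singularPart m
  -- `ρ.singularPart m S = 0`, `m Sᶜ = 0`
  have h3 : w.map T ≤ w := by
    refine Measure.le_iff.2 fun A hA => ?_
    have e1 : w.map T A ≤ w.map T (A ∩ S) := by
      calc w.map T A ≤ w.map T (A ∩ S ∪ Sᶜ) := by
            refine measure_mono fun x hx => ?_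
            by_cases hxS : x ∈ S
            · exact Or.inl ⟨hx, hxS⟩
            · exact Or.inr hxS
        _ ≤ w.map T (A ∩ S) + w.map T Sᶜ := measure_union_le _ _
        _ = w.map T (A ∩ S) := by rw [h1 hS2, add_zero]
    calc w.map T A ≤ w.map T (A ∩ S) := e1
      _ ≤ ρ (A ∩ S) := h2 _
      _ = ρ.singularPart m (A ∩ S) + w (A ∩ S) := by
          conv_lhs => rw [hdec]
          rfl
      _ = w (A ∩ S) := by
          rw [measure_mono_null inter_subset_right hS1, zero_add]
      _ ≤ w A := measure_mono inter_subset_left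
  refine ⟨hT.measurable, ?_⟩
  have hwTf : IsFiniteMeasure (w.map T) := inferInstance
  refine Measure.ext fun A hA => le_antisymm (h3 A) ?_
  have h4 : w.map T A + w.map T Aᶜ = w A + w Aᶜ := by
    rw [measure_add_measure_compl hA, measure_add_measure_compl hA,
      Measure.map_apply hT.measurable MeasurableSet.univ, preimage_univ]
  have h5 := h3 Aᶜ
  have h6 : w A + w Aᶜ ≤ w.map T A + w Aᶜ := by
    rw [← h4]
    gcongr
  exact (ENNReal.add_le_add_iff_right (measure_ne_top w Aᶜ)).1 h6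

end Pool.Agent.Helper33.HK
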