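import Pool.Agent.Helper33.HK.Dec

/-!
# Uniform absolute continuity of the images, and the largest jointly invariant measure
-/

set_option autoImplicit false

open MeasureTheory Filter Topology Set
open scoped ENNReal

namespace Pool.Agent.Helper33.HK

open Pool.Agent.K3h68.IL Pool.Agent.R202.STP

/-- the images of `μ` under `x ↦ q ^ k x`, `k ∈ K`, are uniformly absolutely continuous -/
def UAC (q : ℕ) (μ : Measure UnitAddCircle) (K : Set ℕ) : Prop :=
  ∃ m : Measure UnitAddCircle, IsFiniteMeasure m ∧ ∀ ε : ℝ≥0∞, 0 < ε → ∃ δ : ℝ≥0∞, 0 < δ ∧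
    ∀ k ∈ K, ∀ A : Set UnitAddCircle, MeasurableSet A → m A ≤ δ → img (q ^ k) μ A ≤ ε

lemma half_ne_top (k : ℕ) : (1 / 2 : ℝ≥0∞) ^ k ≠ ∞ :=
  ENNReal.pow_ne_top (ENNReal.div_ne_top ENNReal.one_ne_top (by norm_num))

lemma img_le_msum (q : ℕ) (μ : Measure UnitAddCircle) (k : ℕ) {A : Set UnitAddCircle}
    (hA : MeasurableSet A) : (1 / 2 : ℝ≥0∞) ^ (k + 1) * img (q ^ k) μ A ≤ msum q μ A := by
  rw [msum_apply q μ hA]
  exact ENNReal.le_tsum k

lemma uac_of_eventually {q : ℕ} {μ m : Measure UnitAddCircle} [IsProbabilityMeasure μ]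
    [IsFiniteMeasure m] {K : Set ℕ}
    (h : ∀ ε : ℝ≥0∞, 0 < ε → ∃ δ : ℝ≥0∞, 0 < δ ∧ ∃ k₀ : ℕ, ∀ k ∈ K, k₀ ≤ k →
      ∀ A : Set UnitAddCircle, MeasurableSet A → m A ≤ δ → img (q ^ k) μ A ≤ ε) :
    UAC q μ K := by
  refine ⟨m + msum q μ, inferInstance, fun ε hε => ?_⟩
  obtain ⟨δ, hδ, k₀, hk₀⟩ := h ε hε
  have hpos : 0 < (1 / 2 : ℝ≥0∞) ^ k₀ * ε :=
    ENNReal.mul_pos (pow_ne_zero _ (by simp)) hε.ne'
  refine ⟨min δ ((1 / 2 : ℝ≥0∞) ^ k₀ * ε), lt_min hδ hpos, fun k hk A hA hmA => ?_⟩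
  rw [Measure.add_apply] at hmA
  have h1 : m A ≤ δ := (le_self_add.trans hmA).trans (min_le_left _ _)
  have h2 : msum q μ A ≤ (1 / 2 : ℝ≥0∞) ^ k₀ * ε := (le_add_self.trans hmA).trans (min_le_right _ _)
  rcases le_or_gt k₀ k with hkk | hkk
  · exact hk₀ k hk hkk A hA h1
  · have h3 := (img_le_msum q μ k hA).trans h2
    have h4 : (1 / 2 : ℝ≥0∞) ^ k₀ * ε ≤ (1 / 2 : ℝ≥0∞) ^ (k + 1) * ε := by
      gcongr ?_ * _
      refine pow_le_pow_of_le_one zero_le ?_ hkk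
      rw [one_div]
      exact ENNReal.inv_le_one.2 (by norm_num)
    exact (ENNReal.mul_le_mul_iff_right (half_ne_zero k) (half_ne_top _)).1 (h3.trans h4)

lemma UAC.of_le {q : ℕ} {μ ν : Measure UnitAddCircle} {K : Set ℕ} {C : ℝ≥0∞} (hC0 : C ≠ 0)
    (hC : C ≠ ∞) (hle : ν ≤ C • μ) (h : UAC q μ K) : UAC q ν K := by
  obtain ⟨m, hm, hmδ⟩ := h
  refine ⟨m, hm, fun ε hε => ?_⟩
  obtain ⟨δ, hδ, hδ'⟩ := hmδ (C⁻¹ * ε) (ENNReal.mul_pos (ENNReal.inv_ne_zero.2 hC) hε.ne')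
  refine ⟨δ, hδ, fun k hk A hA hmA => ?_⟩
  have h1 := hδ' k hk A hA hmA
  calc img (q ^ k) ν A = ν ((fun x : UnitAddCircle => (q ^ k) • x) ⁻¹' A) :=
        Measure.map_apply (meas_nsmul _) hA
    _ ≤ C * μ ((fun x : UnitAddCircle => (q ^ k) • x) ⁻¹' A) := hle _
    _ = C * img (q ^ k) μ A := by
        rw [img, Measure.map_apply (meas_nsmul _) hA]
    _ ≤ C * (C⁻¹ * ε) := by gcongr
    _ = ε := by rw [← mul_assoc, ENNReal.mul_inv_cancel hC0 hC, one_mul]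

lemma UAC.primAC {q : ℕ} (r : ℕ) {μ : Measure UnitAddCircle} {K : Set ℕ} (h : UAC q μ K) :
    PrimAC q r μ K := by
  obtain ⟨m, hm, hmδ⟩ := h
  refine ⟨m, hm, fun ε hε => ?_⟩
  obtain ⟨δ, hδ, hδ'⟩ := hmδ ε hε
  refine ⟨δ, hδ, fun k hk A hA hmA => ?_⟩
  have h1 := hδ' k hk A hA hmA
  rw [img, Measure.map_apply (meas_nsmul _) hA] at h1
  exact h1.trans le_add_self

theorem uac_of_primAC' {p q r : ℕ} (hp : 2 ≤ p) (hq : 2 ≤ q) (hr : 2 ≤ r) (hrq : r ∣ q)
    (hrp : Nat.Coprime r p) {σ : Measure UnitAddCircle} [IsProbabilityMeasure σ]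
    (hσ : MeasurePreserving (fun x : UnitAddCircle => p • x) σ σ) (hs : σ ⟂ₘ volume) {K : Set ℕ}
    (h : PrimAC q r σ K) : UAC q σ K := by
  obtain ⟨m, hm, hmδ⟩ := h
  exact uac_of_eventually (m := m) fun ε hε => uac_of_primAC hp hq hr hrq hrp hσ hs hmδ hε

/-- jointly invariant probability measures absolutely continuous with respect to `M` -/
def JI (p q : ℕ) (M ρ : Measure UnitAddCircle) : Prop :=
  IsProbabilityMeasure ρ ∧ MeasurePreserving (fun x : UnitAddCircle => p • x) ρ ρ ∧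
    MeasurePreserving (fun x : UnitAddCircle => q • x) ρ ρ ∧ ρ ≪ M

/-- the sum of the `2 ^ (-n - 1) ρ n` -/
noncomputable def wsum (ρ : ℕ → Measure UnitAddCircle) : Measure UnitAddCircle :=
  Measure.sum fun k : ℕ => (1 / 2 : ℝ≥0∞) ^ (k + 1) • ρ k

lemma wsum_apply (ρ : ℕ → Measure UnitAddCircle) {A : Set UnitAddCircle} (hA : MeasurableSet A) :
    wsum ρ A = ∑' k : ℕ, (1 / 2 : ℝ≥0∞) ^ (k + 1) * ρ k A := by
  unfold wsum
  rw [Measure.sum_apply _ hA]
  rfl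

lemma wsum_null (ρ : ℕ → Measure UnitAddCircle) {A : Set UnitAddCircle} (hA : MeasurableSet A) :
    wsum ρ A = 0 ↔ ∀ k, ρ k A = 0 := by
  rw [wsum_apply ρ hA, ENNReal.tsum_eq_zero]
  refine forall_congr' fun k => ?_
  rw [mul_eq_zero]
  exact ⟨fun h => h.resolve_left (half_ne_zero k), Or.inr⟩

lemma wsum_prob (ρ : ℕ → Measure UnitAddCircle) (h : ∀ k, IsProbabilityMeasure (ρ k)) :
    IsProbabilityMeasure (wsum ρ) := by
  refine ⟨?_⟩
  rw [wsum_apply ρ MeasurableSet.univ]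
  simp only [measure_univ, mul_one]
  have := ENNReal.tsum_geometric_add_one (1 / 2 : ℝ≥0∞)
  rw [this]
  norm_num
  exact ENNReal.inv_mul_cancel (by norm_num) (by norm_num)

lemma wsum_inv {T : UnitAddCircle → UnitAddCircle} (hT : Measurable T)
    (ρ : ℕ → Measure UnitAddCircle) (h : ∀ k, MeasurePreserving T (ρ k) (ρ k)) :
    MeasurePreserving T (wsum ρ) (wsum ρ) := by
  refine ⟨hT, Measure.ext fun A hA => ?_⟩
  rw [Measure.map_apply hT hA, wsum_apply ρ (hT hA), wsum_apply ρ hA]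
  refine tsum_congr fun k => ?_
  rw [(h k).measure_preimage hA.nullMeasurableSet]

lemma wsum_JI {p q : ℕ} {M : Measure UnitAddCircle} (ρ : ℕ → Measure UnitAddCircle)
    (h : ∀ k, JI p q M (ρ k)) : JI p q M (wsum ρ) := by
  refine ⟨wsum_prob ρ fun k => (h k).1, wsum_inv (meas_nsmul p) ρ fun k => (h k).2.1,
    wsum_inv (meas_nsmul q) ρ fun k => (h k).2.2.1, Measure.AbsolutelyContinuous.mk fun A hA h0 => ?_⟩
  rw [wsum_null ρ hA]
  exact fun k => (h k).2.2.2 h0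

/-- the carrier of a measure which is absolutely continuous with respect to `M` -/
lemma exists_carrier {M ρ : Measure UnitAddCircle} [IsFiniteMeasure M] [IsFiniteMeasure ρ]
    (h : ρ ≪ M) : ∃ C : Set UnitAddCircle, MeasurableSet C ∧ ρ Cᶜ = 0 ∧
      ∀ A, MeasurableSet A → ρ A = 0 → M (A ∩ C) = 0 := by
  have hf := Measure.measurable_rnDeriv ρ M
  have hms : SigmaFinite M := inferInstance
  have hrs : SFinite ρ := inferInstance
  have hLD : ρ.HaveLebesgueDecomposition M :=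
    Measure.haveLebesgueDecomposition_of_sigmaFinite ρ M
  have hd := Measure.withDensity_rnDeriv_eq ρ M h
  have key : ∀ A, ρ A = 0 ↔ M ({x | ρ.rnDeriv M x ≠ 0} ∩ A) = 0 := by
    intro A
    have := withDensity_apply_eq_zero (μ := M) (s := A) hf
    rwa [hd] at this
  refine ⟨{x | ρ.rnDeriv M x ≠ 0}, (measurableSet_eq_fun hf measurable_const).compl, ?_, ?_⟩
  · rw [key, inter_compl_self, measure_empty]
  · intro A hA h0
    rw [inter_comm]
    exact (key A).1 h0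

/-- **The largest jointly invariant measure.** -/
theorem exists_max {p q : ℕ} {M : Measure UnitAddCircle} [IsFiniteMeasure M]
    (hne : ∃ ρ, JI p q M ρ) :
    ∃ (ρ : Measure UnitAddCircle) (C : Set UnitAddCircle), JI p q M ρ ∧ MeasurableSet C ∧
      ρ Cᶜ = 0 ∧ (∀ A, MeasurableSet A → ρ A = 0 → M (A ∩ C) = 0) ∧
      ∀ ρ', JI p q M ρ' → ρ' Cᶜ = 0 := by
  set S : Set ℝ≥0∞ := {t | ∃ (ρ : Measure UnitAddCircle) (C : Set UnitAddCircle), JI p q M ρ ∧
    MeasurableSet C ∧ ρ Cᶜ = 0 ∧ (∀ A, MeasurableSet A → ρ A = 0 → M (A ∩ C) = 0) ∧ M C = t} with hS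
  have hSne : S.Nonempty := by
    obtain ⟨ρ, hρ⟩ := hne
    have := hρ.1
    obtain ⟨C, hC, h1, h2⟩ := exists_carrier hρ.2.2.2
    exact ⟨M C, ρ, C, hρ, hC, h1, h2, rfl⟩
  obtain ⟨u, -, hu, huS⟩ := exists_seq_tendsto_sSup hSne (OrderTop.bddAbove S)
  choose ρ C hρ hC h1 h2 h3 using huS
  have hCU : MeasurableSet (⋃ n, C n) := MeasurableSet.iUnion hC
  have hcar : wsum ρ (⋃ n, C n)ᶜ = 0 := by
    rw [wsum_null ρ hCU.compl]
    exact fun k => measure_mono_null (compl_subset_compl.2 (subset_iUnion C k)) (h1 k)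
  have hac : ∀ A, MeasurableSet A → wsum ρ A = 0 → M (A ∩ ⋃ n, C n) = 0 := by
    intro A hA h0
    rw [inter_iUnion, measure_iUnion_null_iff]
    exact fun k => h2 k A hA ((wsum_null ρ hA).1 h0 k)
  have hsup : sSup S ≤ M (⋃ n, C n) := by
    refine le_of_tendsto' hu fun n => ?_
    rw [← h3 n]
    exact measure_mono (subset_iUnion C n)
  refine ⟨wsum ρ, ⋃ n, C n, wsum_JI ρ hρ, hCU, hcar, hac, fun ρ' hρ' => ?_⟩
  have := hρ'.1
  obtain ⟨C', hC', h1', h2'⟩ := exists_carrier hρ'.2.2.2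
  set ρ2 : ℕ → Measure UnitAddCircle := fun n => if n = 0 then ρ' else wsum ρ with hρ2
  have hJ : JI p q M (wsum ρ2) := by
    refine wsum_JI ρ2 fun k => ?_
    by_cases hk : k = 0
    · simp only [hρ2, hk, if_true]; exact hρ'
    · simp only [hρ2, hk, if_false]; exact wsum_JI ρ hρ
  have hmem : M ((⋃ n, C n) ∪ C') ∈ S := by
    refine ⟨wsum ρ2, (⋃ n, C n) ∪ C', hJ, hCU.union hC', ?_, ?_, rfl⟩
    · rw [wsum_null ρ2 (hCU.union hC').compl]
      intro k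
      by_cases hk : k = 0
      · simp only [hρ2, hk, if_true]
        exact measure_mono_null (compl_subset_compl.2 subset_union_right) h1'
      · simp only [hρ2, hk, if_false]
        exact measure_mono_null (compl_subset_compl.2 subset_union_left) hcar
    · intro A hA h0
      have h4 := (wsum_null ρ2 hA).1 h0
      have h5 : ρ' A = 0 := by simpa [hρ2] using h4 0
      have h6 : wsum ρ A = 0 := by simpa [hρ2] using h4 1
      rw [inter_union_distrib_left]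
      exact measure_union_null (hac A hA h6) (h2' A hA h5)
  have h7 : M ((⋃ n, C n) ∪ C') ≤ M (⋃ n, C n) := (le_sSup hmem).trans hsup
  have h8 : M (C' \ ⋃ n, C n) = 0 := by
    have h9 : M ((⋃ n, C n) ∪ C') = M (⋃ n, C n) + M (C' \ ⋃ n, C n) := by
      rw [← measure_union disjoint_sdiff_self_right (hC'.diff hCU), union_sdiff_self]
    rw [h9] at h7
    have hfin : M (⋃ n, C n) ≠ ∞ := measure_ne_top _ _
    have h10 : M (⋃ n, C n) + M (C' \ ⋃ n, C n) ≤ M (⋃ n, C n) + 0 := by rwa [add_zero]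
    exact le_antisymm ((ENNReal.add_le_add_iff_left hfin).1 h10) zero_le
  have h11 : ρ' (C' \ ⋃ n, C n) = 0 := hρ'.2.2.2 h8
  refine measure_mono_null ?_ (measure_union_null h11 h1')
  intro x hx
  by_cases hxC : x ∈ C'
  · exact Or.inl ⟨hxC, hx⟩
  · exact Or.inr hxC

end Pool.Agent.Helper33.HK
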