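import Pool.Graph.R_pool_sql_team_seeded_5cf16337.K3h68.IL.Fin

/-!
# The mean ergodic theorem for one map, with the integrals over invariant sets
-/

set_option autoImplicit false

open MeasureTheory Filter Topology Set
open scoped ENNReal InnerProductSpace

namespace Pool.Agent.Helper33.HK

open Pool.Agent.R202.TM

variable {X : Type*} [MeasurableSpace X]

/-- the ergodic averages -/
noncomputable def av (T : X → X) (f : X → ℂ) (N : ℕ) (x : X) : ℂ :=
  (N : ℂ)⁻¹ * ∑ i ∈ Finset.range N, f (T^[i] x)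

theorem mean1 {T : X → X} {μ : Measure X} [IsProbabilityMeasure μ]
    (hT : MeasurePreserving T μ μ) {f : X → ℂ} (hf : MemLp f 2 μ) :
    ∃ h : X → ℂ, Measurable h ∧ Integrable h μ ∧ (∀ᵐ x ∂μ, h (T x) = h x) ∧
      (∀ A, MeasurableSet A → T ⁻¹' A =ᵐ[μ] A → ∫ x in A, h x ∂μ = ∫ x in A, f x ∂μ) ∧
      Tendsto (fun N : ℕ => ∫⁻ x, ‖av T f N x - h x‖ₑ ^ 2 ∂μ) atTop (𝓝 0) := by
  obtain ⟨P, hP, hPf, hPe, hPs⟩ := mean (Pool.Agent.R202.TM.comp hT) (comp_norm hT)
  set F := hf.toLp with hF
  set W := P F with hW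
  have hVW : Pool.Agent.R202.TM.comp hT W = W := hPf _
  set u : X → ℂ := (Lp.aestronglyMeasurable W).mk W with hu
  have hum : Measurable u := (Lp.aestronglyMeasurable W).stronglyMeasurable_mk.measurable
  have hue : ∀ᵐ x ∂μ, W x = u x := (Lp.aestronglyMeasurable W).ae_eq_mk
  have hTu : ∀ᵐ x ∂μ, u (T x) = u x := by
    have h3 := comp_coe hT W
    rw [hVW] at h3
    filter_upwards [h3, hue, hT.quasiMeasurePreserving.ae hue] with x a b c
    rw [← c, ← b, a]
    rfl
  have hWi : Integrable W μ := (Lp.memLp W).integrable (by norm_num)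
  refine ⟨u, hum, hWi.congr hue, hTu, ?_, ?_⟩
  · intro A hAm hTA
    set e := indicatorConstLp 2 hAm (measure_ne_top μ A) (1 : ℂ) with he
    have hee : (e : X → ℂ) =ᵐ[μ] A.indicator fun _ => (1 : ℂ) := indicatorConstLp_coeFn
    have hfix : Pool.Agent.R202.TM.comp hT e = e := by
      apply Lp.ext
      filter_upwards [comp_coe hT e, hee, hT.quasiMeasurePreserving.ae hee, hTA] with x h1 h2 h3 h4
      rw [h1, h2]
      show e (T x) = _
      rw [h3]
      have h5 : T x ∈ A ↔ x ∈ A := Iff.of_eq h4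
      by_cases hx : x ∈ A
      · rw [indicator_of_mem hx, indicator_of_mem (h5.2 hx)]
      · rw [indicator_of_notMem hx, indicator_of_notMem fun h => hx (h5.1 h)]
    have h1 : ⟪e, W⟫_ℂ = ⟪e, F⟫_ℂ := by
      rw [hW, ← hPs, hPe e hfix]
    rw [he, L2.inner_indicatorConstLp_one, L2.inner_indicatorConstLp_one] at h1
    calc ∫ x in A, u x ∂μ = ∫ x in A, W x ∂μ := by
          refine setIntegral_congr_ae hAm ?_
          filter_upwards [hue] with x hx _
          exact hx.symm
      _ = ∫ x in A, F x ∂μ := h1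
      _ = ∫ x in A, f x ∂μ := by
          refine setIntegral_congr_ae hAm ?_
          filter_upwards [hf.coeFn_toLp] with x hx _
          exact hx
  · have h1 : Tendsto (fun N : ℕ => ‖birkhoffAverage ℂ (⇑(Pool.Agent.R202.TM.comp hT)) _root_.id N F - W‖)
        atTop (𝓝 0) := tendsto_iff_norm_sub_tendsto_zero.1 (hP F)
    have h2 : ∀ N : ℕ, ∫⁻ x, ‖av T f N x - u x‖ₑ ^ 2 ∂μ =
        ENNReal.ofReal (‖birkhoffAverage ℂ (⇑(Pool.Agent.R202.TM.comp hT)) _root_.id N F - W‖ ^ 2) := by
      intro N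
      set G := birkhoffAverage ℂ (⇑(Pool.Agent.R202.TM.comp hT)) _root_.id N F with hG
      have hGf : ∀ᵐ x ∂μ, G x = av T f N x := by
        rw [hG]
        simp only [birkhoffAverage, birkhoffSum, _root_.id]
        have h2 : ∀ᵐ x ∂μ, ∀ i : ℕ, ((⇑(Pool.Agent.R202.TM.comp hT))^[i] F : Lp ℂ 2 μ) x = f (T^[i] x) := by
          rw [ae_all_iff]
          intro i
          filter_upwards [comp_iter hT F i, (hT.iterate i).quasiMeasurePreserving.ae hf.coeFn_toLp]
            with x a b
          rw [a]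
          exact b
        filter_upwards [Lp.coeFn_smul ((N : ℂ)⁻¹)
            (∑ i ∈ Finset.range N, (⇑(Pool.Agent.R202.TM.comp hT))^[i] F),
          Lp.coeFn_finsetSum (Finset.range N) fun i => (⇑(Pool.Agent.R202.TM.comp hT))^[i] F, h2]
          with x a b c
        rw [a, Pi.smul_apply, b, smul_eq_mul]
        unfold av
        congr 1
        rw [Finset.sum_apply]
        exact Finset.sum_congr rfl fun i _ => c i
      have h3 : ∫⁻ x, ‖av T f N x - u x‖ₑ ^ 2 ∂μ = ‖G - W‖ₑ ^ 2 := by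
        rw [Lp.enorm_def, eLpNorm_eq_lintegral_rpow_enorm_toReal (by norm_num) (by norm_num)]
        rw [← ENNReal.rpow_natCast, ← ENNReal.rpow_mul]
        norm_num
        refine lintegral_congr_ae ?_
        filter_upwards [Lp.coeFn_sub G W, hGf, hue] with x a b c
        have e1 : (G - W : Lp ℂ 2 μ) x = av T f N x - u x := by
          rw [a, Pi.sub_apply, b, c]
        rw [← e1]
        rfl
      rw [h3, ← ofReal_norm, ← ENNReal.ofReal_pow (norm_nonneg _)]
    simp_rw [h2]
    have h3 := h1.pow 2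
    have h4 := ENNReal.tendsto_ofReal h3
    simpa using h4

end Pool.Agent.Helper33.HK
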