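import Pool.Agent.Helper33.HK.Step
import Pool.Agent.Helper33.HK.Equiv

/-!
# Hecke relations at many integers
-/

set_option autoImplicit false

open MeasureTheory Filter Topology Set
open scoped ENNReal

namespace Pool.Agent.Helper33.HK

open Pool.Agent.K3h68.IL Pool.Agent.R202.STP

/-- the state of the construction after the integers of `Fs` have been treated -/
def Good (p : ℕ) (Q : Set ℕ) (g : ℕ → ℕ → ℝ) (σ : Measure UnitAddCircle) (n₀ : ℤ)
    (Fs : Finset ℕ) (ρ : Measure UnitAddCircle) (C : ℝ) : Prop :=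
  IsProbabilityMeasure ρ ∧ 0 ≤ C ∧ MeasurePreserving (fun x : UnitAddCircle => p • x) ρ ρ ∧
    (∀ q ∈ Fs, MeasurePreserving (fun x : UnitAddCircle => q • x) ρ ρ) ∧
    (∀ A, ρ A ≤ ENNReal.ofReal C * σ A) ∧
    (∀ q ∈ Q, q ∉ Fs → ∀ (k : ℕ) (n : ℤ), ¬ (q : ℤ) ∣ n →
      cf ρ ((q : ℤ) ^ k * n) = (g q k : ℂ) * cf ρ n) ∧
    cf ρ n₀ = (C : ℂ) * cf σ n₀

lemma one_le_of_dom {σ ρ : Measure UnitAddCircle} [IsProbabilityMeasure σ] [IsProbabilityMeasure ρ]
    {C : ℝ} (h : ∀ A, ρ A ≤ ENNReal.ofReal C * σ A) : 1 ≤ C := by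
  have h1 := h univ
  rw [measure_univ, measure_univ, mul_one, ENNReal.one_le_ofReal] at h1
  exact h1

lemma sing_of_dom {σ ρ : Measure UnitAddCircle} (hs : σ ⟂ₘ volume)
    {C : ℝ} (h : ∀ A, ρ A ≤ ENNReal.ofReal C * σ A) : ρ ⟂ₘ volume := by
  refine hs.mono_ac ?_ Measure.AbsolutelyContinuous.rfl
  refine Measure.AbsolutelyContinuous.mk fun A _ hA => ?_
  have h1 := h A
  rw [hA, mul_zero] at h1
  exact le_antisymm h1 bot_le

theorem exists_good {p : ℕ} (hp : 2 ≤ p) {Q : Set ℕ} (hQ2 : ∀ q ∈ Q, 2 ≤ q)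
    (hQp : ∀ q ∈ Q, Nat.Coprime q p) (hQQ : Q.Pairwise Nat.Coprime) {g : ℕ → ℕ → ℝ}
    (hg0 : ∀ q k, 0 ≤ g q k) {σ : Measure UnitAddCircle} [IsProbabilityMeasure σ]
    (hσ : MeasurePreserving (fun x : UnitAddCircle => p • x) σ σ) (hs : σ ⟂ₘ volume)
    (hg : ∀ q ∈ Q, ∀ (k : ℕ) (n : ℤ), ¬ (q : ℤ) ∣ n →
      cf σ ((q : ℤ) ^ k * n) = (g q k : ℂ) * cf σ n)
    {n₀ : ℤ} (hn₀ : ∀ q ∈ Q, ¬ (q : ℤ) ∣ n₀) (hc₀ : cf σ n₀ ≠ 0) (Fs : Finset ℕ) :
    (∀ q ∈ Fs, q ∈ Q) → ∃ ρ C, Good p Q g σ n₀ Fs ρ C := by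
  classical
  induction Fs using Finset.induction_on with
  | empty =>
    intro _
    refine ⟨σ, 1, inferInstance, zero_le_one, hσ, by simp, fun A => by simp, ?_, by simp⟩
    intro q hq _ k n hn
    exact hg q hq k n hn
  | insert q Fs hqF ih =>
    intro hsub
    obtain ⟨ρ, C, hρ, hC0, h1, h2, h3, h4, h5⟩ := ih fun q' hq' => hsub q' (Finset.mem_insert_of_mem hq')
    have hqQ : q ∈ Q := hsub q (Finset.mem_insert_self q Fs)
    have hC1 : 1 ≤ C := one_le_of_dom h3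
    have hρc₀ : cf ρ n₀ ≠ 0 := by
      rw [h5]
      refine mul_ne_zero ?_ hc₀
      exact_mod_cast (show C ≠ 0 by linarith)
    obtain ⟨F, ρ', C', hF, hρ', hC', hc, hip, hiq, hdom, hcoef⟩ := step hp (hQ2 q hqQ)
      (hQp q hqQ).symm h1 (sing_of_dom hs h3) (hg0 q) (h4 q hqQ hqF) (hn₀ q hqQ) hρc₀
    refine ⟨ρ', C' * C, hρ', mul_nonneg hC' hC0, hip, ?_, ?_, ?_, ?_⟩
    · intro q' hq'
      rw [Finset.mem_insert] at hq'
      rcases hq' with rfl | hq'
      · exact hiq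
      · exact limit_inv_p (h2 q' hq') hc
    · intro A
      calc ρ' A ≤ ENNReal.ofReal C' * ρ A := hdom A
        _ ≤ ENNReal.ofReal C' * (ENNReal.ofReal C * σ A) := by
            gcongr
            exact h3 A
        _ = ENNReal.ofReal (C' * C) * σ A := by
            rw [ENNReal.ofReal_mul hC', mul_assoc]
    · intro q' hq'Q hq' k n hn
      rw [Finset.mem_insert, not_or] at hq'
      have hcop : Nat.Coprime q' q := hQQ hq'Q hqQ hq'.1
      have h6 : ∀ j : ℕ, cf (wav q ρ (j + 1) 0) ((q' : ℤ) ^ k * n) =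
          (g q' k : ℂ) * cf (wav q ρ (j + 1) 0) n := by
        intro j
        rw [cf_wav, cf_wav, mul_left_comm]
        congr 1
        rw [Finset.mul_sum]
        refine Finset.sum_congr rfl fun i _ => ?_
        rw [cf_map, cf_map]
        have h7 : ¬ (q' : ℤ) ∣ n * ((q ^ (0 + i) : ℕ) : ℤ) := by
          intro hd
          apply hn
          have hc' : IsCoprime (q' : ℤ) (((q ^ (0 + i) : ℕ)) : ℤ) :=
            Nat.isCoprime_iff_coprime.2 (hcop.pow_right _)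
          exact hc'.dvd_of_dvd_mul_right hd
        have h8 := h4 q' hq'Q hq'.2 k _ h7
        rw [← h8]
        congr 1
        ring
      have h9 : Tendsto (fun j => cf (wav q ρ (j + 1) 0) ((q' : ℤ) ^ k * n)) F
          (𝓝 ((g q' k : ℂ) * cf ρ' n)) := by
        simp_rw [h6]
        exact (hc n).const_mul _
      exact tendsto_nhds_unique (hc _) h9
    · rw [hcoef n₀ (hn₀ q hqQ), h5]
      push_cast
      ring

/-- all integers of `Q` at once -/
theorem exists_all {p : ℕ} (hp : 2 ≤ p) {Q : Set ℕ} (hQ2 : ∀ q ∈ Q, 2 ≤ q)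
    (hQp : ∀ q ∈ Q, Nat.Coprime q p) (hQQ : Q.Pairwise Nat.Coprime) {g : ℕ → ℕ → ℝ}
    (hg0 : ∀ q k, 0 ≤ g q k) {σ : Measure UnitAddCircle} [IsProbabilityMeasure σ]
    (hσ : MeasurePreserving (fun x : UnitAddCircle => p • x) σ σ) (hs : σ ⟂ₘ volume)
    (hg : ∀ q ∈ Q, ∀ (k : ℕ) (n : ℤ), ¬ (q : ℤ) ∣ n →
      cf σ ((q : ℤ) ^ k * n) = (g q k : ℂ) * cf σ n)
    {n₀ : ℤ} (hn₀ : ∀ q ∈ Q, ¬ (q : ℤ) ∣ n₀) (hc₀ : cf σ n₀ ≠ 0) :
    ∃ (ρ : Measure UnitAddCircle) (C : ℝ), IsProbabilityMeasure ρ ∧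
      MeasurePreserving (fun x : UnitAddCircle => p • x) ρ ρ ∧
      (∀ q ∈ Q, MeasurePreserving (fun x : UnitAddCircle => q • x) ρ ρ) ∧
      (∀ A, ρ A ≤ ENNReal.ofReal C * σ A) ∧ cf ρ n₀ ≠ 0 := by
  classical
  have hex : ∀ r : ℕ, ∃ ρ C, Good p Q g σ n₀ ((Finset.range r).filter (· ∈ Q)) ρ C := fun r =>
    exists_good hp hQ2 hQp hQQ hg0 hσ hs hg hn₀ hc₀ _ fun q hq => (Finset.mem_filter.1 hq).2
  choose ρ C hG using hex
  have hpos : 0 < ‖cf σ n₀‖ := norm_pos_iff.2 hc₀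
  have hCb : ∀ r, C r ≤ 1 / ‖cf σ n₀‖ := by
    intro r
    obtain ⟨hρ, hC0, -, -, -, -, h5⟩ := hG r
    rw [le_div_iff₀ hpos]
    have h1 := congrArg norm h5
    rw [norm_mul, Complex.norm_real, Real.norm_of_nonneg hC0] at h1
    rw [← h1]
    exact norm_cf_le (ρ r) _
  set u : ℕ → ProbabilityMeasure UnitAddCircle := fun r => ⟨ρ r, (hG r).1⟩ with hu
  set F : Ultrafilter ℕ := hyperfilter ℕ with hF
  have hFle : (F : Filter ℕ) ≤ atTop := by
    rw [← Nat.cofinite_eq_atTop]; exact hyperfilter_le_cofinite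
  obtain ⟨η, -, hη⟩ := (isCompact_univ (X := ProbabilityMeasure UnitAddCircle)).ultrafilter_le_nhds
    (F.map u) (by simp)
  have ht : Tendsto u F (𝓝 η) := hη
  have hc : ∀ n : ℤ, Tendsto (fun r => cf (ρ r) n) F (𝓝 (cf (η : Measure UnitAddCircle) n)) :=
    fun n => (ProbabilityMeasure.tendsto_iff_forall_integral_rclike_tendsto ℂ).1 ht
      (BoundedContinuousFunction.mkOfCompact (fourier n))
  refine ⟨η, 1 / ‖cf σ n₀‖, inferInstance, ?_, ?_, ?_, ?_⟩
  · refine inv_of_cf fun n => ?_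
    refine tendsto_nhds_unique (hc (n * p)) ((hc n).congr fun r => ?_)
    exact (cf_mul (hG r).2.2.1 n).symm
  · intro q hq
    refine inv_of_cf fun n => ?_
    refine tendsto_nhds_unique (hc (n * q)) ((hc n).congr' (hFle ?_))
    filter_upwards [eventually_gt_atTop q] with r hr
    exact (cf_mul ((hG r).2.2.2.1 q (Finset.mem_filter.2 ⟨Finset.mem_range.2 hr, hq⟩)) n).symm
  · refine le_of_open ENNReal.ofReal_ne_top fun O hO => ?_
    have h1 := ProbabilityMeasure.le_liminf_measure_open_of_tendsto ht hO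
    refine h1.trans ((liminf_le_limsup).trans (limsup_le_of_le (h := Eventually.of_forall fun r => ?_)))
    refine ((hG r).2.2.2.2.1 O).trans ?_
    gcongr
    exact hCb r
  · intro h0
    have h1 : Tendsto (fun r => ‖cf (ρ r) n₀‖) F (𝓝 0) := by
      have := (hc n₀).norm
      rwa [h0, norm_zero] at this
    have h2 : ∀ r, ‖cf σ n₀‖ ≤ ‖cf (ρ r) n₀‖ := by
      intro r
      obtain ⟨hρ, hC0, -, -, h3, -, h5⟩ := hG r
      have hC1 : 1 ≤ C r := one_le_of_dom h3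
      rw [h5, norm_mul, Complex.norm_real, Real.norm_of_nonneg hC0]
      exact le_mul_of_one_le_left hpos.le hC1
    have h3 := ge_of_tendsto' h1 h2
    linarith

/-- the symmetrisation -/
noncomputable def sym (μ : Measure UnitAddCircle) : Measure UnitAddCircle :=
  (μ.prod μ).map fun z => z.1 - z.2

lemma sym_prob (μ : Measure UnitAddCircle) [IsProbabilityMeasure μ] :
    IsProbabilityMeasure (sym μ) :=
  Measure.isProbabilityMeasure_map (measurable_fst.sub measurable_snd).aemeasurable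

lemma cf_sym (μ : Measure UnitAddCircle) [IsProbabilityMeasure μ] (n : ℤ) :
    cf (sym μ) n = ((‖cf μ n‖ ^ 2 : ℝ) : ℂ) := by
  have hm : Measurable fun z : UnitAddCircle × UnitAddCircle => z.1 - z.2 :=
    measurable_fst.sub measurable_snd
  unfold sym
  rw [cf, integral_map hm.aemeasurable (fourier n).continuous.aestronglyMeasurable]
  exact sq_coeff μ n

lemma sym_atomless {μ : Measure UnitAddCircle} [IsProbabilityMeasure μ] (h : ∀ x, μ {x} = 0)
    (x : UnitAddCircle) : sym μ {x} = 0 := by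
  have hm : Measurable fun z : UnitAddCircle × UnitAddCircle => z.1 - z.2 :=
    measurable_fst.sub measurable_snd
  unfold sym
  rw [Measure.map_apply hm (measurableSet_singleton x),
    Measure.measure_prod_null (hm (measurableSet_singleton x))]
  refine Eventually.of_forall fun y => ?_
  show μ (Prod.mk y ⁻¹' ((fun z : UnitAddCircle × UnitAddCircle => z.1 - z.2) ⁻¹' {x})) = 0
  refine measure_mono_null (t := {y - x}) ?_ (h _)
  intro z hz
  have hz' : y - z = x := hz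
  rw [Set.mem_singleton_iff, ← hz']
  abel

/-- **Transfer principle.** -/
theorem transfer {p : ℕ} (hp : 2 ≤ p) {Q : Set ℕ} (hQ2 : ∀ q ∈ Q, 2 ≤ q)
    (hQp : ∀ q ∈ Q, Nat.Coprime q p) (hQQ : Q.Pairwise Nat.Coprime)
    {μ : Measure UnitAddCircle} [IsProbabilityMeasure μ]
    (hμ : MeasurePreserving (fun x : UnitAddCircle => p • x) μ μ) (hna : ∀ x, μ {x} = 0)
    (hne : μ ≠ volume)
    (hH : ∀ q ∈ Q, ∀ k : ℕ, ∃ g : ℂ, ∀ n : ℕ, ¬ q ∣ n →
      cf μ ((q : ℤ) ^ k * n) = g * cf μ n) :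
    ∃ (ρ : Measure UnitAddCircle) (n₀ : ℤ), IsProbabilityMeasure ρ ∧
      MeasurePreserving (fun x : UnitAddCircle => p • x) ρ ρ ∧
      (∀ q ∈ Q, MeasurePreserving (fun x : UnitAddCircle => q • x) ρ ρ) ∧
      (∀ x, ρ {x} = 0) ∧ n₀ ≠ 0 ∧ cf ρ n₀ ≠ 0 := by
  have hvol := vol_prob
  have hνp := sym_prob μ
  have hνinv : MeasurePreserving (fun x : UnitAddCircle => p • x) (sym μ) (sym μ) := by
    refine inv_of_cf fun n => ?_
    rw [cf_sym, cf_sym, cf_mul hμ]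
  have hνne : sym μ ≠ volume := by
    intro h
    apply hne
    refine ext_cf fun n hn => ?_
    have h1 := cf_sym μ n
    rw [h, cf_vol hn] at h1
    have h2 : ‖cf μ n‖ ^ 2 = 0 := by exact_mod_cast h1.symm
    have h3 : cf μ n = 0 := by
      rw [← norm_eq_zero]
      exact pow_eq_zero_iff two_ne_zero |>.1 h2
    rw [h3, cf_vol hn]
  obtain ⟨σ, c, b, hσp, hσ, hs, hc0, hct, hbt, hdec⟩ := split hp hνinv hνne
  have hcr : (c.toReal : ℂ) ≠ 0 := by
    exact_mod_cast (ENNReal.toReal_ne_zero.2 ⟨hc0, hct⟩)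
  have hcf : ∀ n : ℤ, n ≠ 0 → cf σ n = ((‖cf μ n‖ ^ 2 : ℝ) : ℂ) / c.toReal := by
    intro n hn
    have h1 := cf_sym μ n
    have f1 : IsFiniteMeasure (c • σ) := Measure.smul_finite _ hct
    have f2 : IsFiniteMeasure (b • (volume : Measure UnitAddCircle)) := Measure.smul_finite _ hbt
    rw [hdec, cf_add, cf_smul, cf_smul, cf_vol hn, mul_zero, add_zero] at h1
    rw [← h1]
    field_simp
  have hqn : ∀ {q : ℕ} {n : ℤ}, ¬ (q : ℤ) ∣ n → n ≠ 0 := by
    rintro q n hn rfl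
    exact hn (dvd_zero _)
  -- the multipliers
  have hmul : ∀ (q k : ℕ), ∃ g : ℝ, 0 ≤ g ∧ (q ∈ Q → ∀ n : ℤ, ¬ (q : ℤ) ∣ n →
      cf σ ((q : ℤ) ^ k * n) = (g : ℂ) * cf σ n) := by
    intro q k
    by_cases hq : q ∈ Q
    · obtain ⟨g, hg⟩ := hH q hq k
      refine ⟨‖g‖ ^ 2, sq_nonneg _, fun _ n hn => ?_⟩
      have hn0 : n ≠ 0 := hqn hn
      have hq0 : (q : ℤ) ≠ 0 := by
        have := hQ2 q hq
        exact_mod_cast (show q ≠ 0 by omega)
      have hn1 : (q : ℤ) ^ k * n ≠ 0 := mul_ne_zero (pow_ne_zero k hq0) hn0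
      rw [hcf n hn0, hcf _ hn1]
      have h1 : ‖cf μ ((q : ℤ) ^ k * n)‖ = ‖g‖ * ‖cf μ n‖ := by
        have h2 : ∀ m : ℤ, ‖cf μ m‖ = ‖cf μ (m.natAbs : ℤ)‖ := by
          intro m
          rcases Int.natAbs_eq m with h | h
          · rw [← h]
          · conv_lhs => rw [h]
            exact cf_neg μ _
        have h3 : ¬ q ∣ n.natAbs := by
          intro hd
          exact hn (Int.natCast_dvd.2 hd)
        have h4 := hg n.natAbs h3
        have h5 : (((((q : ℤ) ^ k * n).natAbs : ℕ)) : ℤ) = (q : ℤ) ^ k * (n.natAbs : ℤ) := by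
          rw [Int.natAbs_mul, Int.natAbs_pow, Int.natAbs_natCast, Nat.cast_mul, Nat.cast_pow]
        rw [h2 n, h2 ((q : ℤ) ^ k * n), h5, h4, norm_mul]
      rw [h1]
      push_cast
      ring
    · exact ⟨0, le_rfl, fun h => absurd h hq⟩
  choose g hg0 hg using hmul
  -- the base point
  have hbase : ∃ n : ℕ, 0 < n ∧ cf σ n ≠ 0 := by
    have hex : ∃ a : ℤ, a ≠ 0 ∧ cf σ a ≠ 0 := by
      by_contra h
      push Not at h
      have h1 : σ = volume := ext_cf fun n hn => by rw [h n hn, cf_vol hn]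
      rw [h1] at hs
      exact self_sing hs
    obtain ⟨a, ha, hca⟩ := hex
    refine ⟨a.natAbs, Int.natAbs_pos.2 ha, ?_⟩
    rcases Int.natAbs_eq a with h | h
    · rw [← h]
      exact hca
    · intro h0
      apply hca
      rw [h, ← norm_eq_zero, cf_neg, h0, norm_zero]
  classical
  set n₀ := Nat.find hbase with hn₀
  obtain ⟨hn₀pos, hn₀c⟩ := Nat.find_spec hbase
  rw [← hn₀] at hn₀pos hn₀c
  have hn₀q : ∀ q ∈ Q, ¬ (q : ℤ) ∣ (n₀ : ℤ) := by
    intro q hq hd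
    have hd' : q ∣ n₀ := Int.natCast_dvd_natCast.1 hd
    have hq2 := hQ2 q hq
    obtain ⟨k, m, hm, hkm⟩ := Nat.exists_eq_pow_mul_and_not_dvd hn₀pos.ne' q (by omega)
    have hk : k ≠ 0 := by
      rintro rfl
      rw [pow_zero, one_mul] at hkm
      rw [hkm] at hd'
      exact hm hd'
    have hm0 : 0 < m := by
      rcases Nat.eq_zero_or_pos m with h | h
      · rw [h, mul_zero] at hkm
        omega
      · exact h
    have hlt : m < n₀ := by
      have h1 : 2 ≤ q ^ k := by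
        calc 2 ≤ q := hq2
          _ = q ^ 1 := (pow_one q).symm
          _ ≤ q ^ k := Nat.pow_le_pow_right (by omega) (by omega)
      rw [hkm]
      nlinarith
    have hmz : ¬ (q : ℤ) ∣ (m : ℤ) := fun h => hm (Int.natCast_dvd_natCast.1 h)
    have h2 := hg q k hq (m : ℤ) hmz
    have h3 : cf σ (m : ℤ) ≠ 0 := by
      intro h0
      apply hn₀c
      rw [hkm]
      push_cast
      rw [h2, h0, mul_zero]
    exact Nat.find_min hbase (hn₀ ▸ hlt) ⟨hm0, h3⟩
  obtain ⟨ρ, C, hρ, h1, h2, h3, h4⟩ := exists_all hp hQ2 hQp hQQ hg0 hσ hs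
    (fun q hq k n hn => hg q k hq n hn) hn₀q hn₀c
  refine ⟨ρ, n₀, hρ, h1, h2, fun x => ?_, by exact_mod_cast hn₀pos.ne', h4⟩
  have h5 : σ {x} = 0 := by
    have h6 := sym_atomless hna x
    rw [hdec, Measure.add_apply, Measure.smul_apply, smul_eq_mul] at h6
    exact (mul_eq_zero.1 (add_eq_zero.1 h6).1).resolve_left hc0
  have h7 := h3 {x}
  rw [h5, mul_zero] at h7
  exact le_antisymm h7 bot_le

end Pool.Agent.Helper33.HK
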