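import Pool.Agent.Helper33.HK.Mult

/-!
# Hecke relations at the elements of a set generating a semigroup of positive upper density
-/

set_option autoImplicit false

open MeasureTheory Filter Topology Set
open scoped ENNReal

namespace Pool.Agent.Helper33.HK

open Pool.Agent.K3h68.IL Pool.Agent.R202.STP

/-- positive upper density -/
def PosUpper (S : Set ℕ) : Prop :=
  ∃ d : ℝ, 0 < d ∧ ∀ N₀ : ℕ, ∃ N : ℕ, N₀ ≤ N ∧ d * N ≤ ((S ∩ Set.Iio N).ncard : ℝ)

lemma inv_closure {S : Set ℕ} {ρ : Measure UnitAddCircle}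
    (h : ∀ s ∈ S, MeasurePreserving (fun x : UnitAddCircle => s • x) ρ ρ) {s : ℕ}
    (hs : s ∈ Submonoid.closure S) : MeasurePreserving (fun x : UnitAddCircle => s • x) ρ ρ := by
  induction hs using Submonoid.closure_induction with
  | mem x hx => exact h x hx
  | one =>
    have : (fun x : UnitAddCircle => 1 • x) = id := by
      funext x
      rw [one_nsmul, id]
    rw [this]
    exact MeasurePreserving.id ρ
  | mul x y _ _ hx hy =>
    have : (fun z : UnitAddCircle => (x * y) • z) =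
        (fun z : UnitAddCircle => x • z) ∘ (fun z : UnitAddCircle => y • z) := by
      funext z
      show (x * y) • z = x • y • z
      rw [smul_smul]
    rw [this]
    exact hx.comp hy

theorem rigid_of_density {p : ℕ} (hp : 2 ≤ p) {Q : Set ℕ} (hQ2 : ∀ q ∈ Q, 2 ≤ q)
    (hQp : ∀ q ∈ Q, Nat.Coprime q p) (hQQ : Q.Pairwise Nat.Coprime)
    (hd : PosUpper (Submonoid.closure (insert p Q) : Submonoid ℕ))
    {μ : Measure UnitAddCircle} [IsProbabilityMeasure μ]
    (hμ : MeasurePreserving (fun x : UnitAddCircle => p • x) μ μ) (hna : ∀ x, μ {x} = 0)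
    (hH : ∀ q ∈ Q, ∀ k : ℕ, ∃ g : ℂ, ∀ n : ℕ, ¬ q ∣ n →
      cf μ ((q : ℤ) ^ k * n) = g * cf μ n) : μ = volume := by
  classical
  by_contra hne
  obtain ⟨ρ, n₀, hρ, h1, h2, h3, h4, h5⟩ := transfer hp hQ2 hQp hQQ hμ hna hne hH
  obtain ⟨d, hd0, hd⟩ := hd
  have hinv : ∀ s ∈ Submonoid.closure (insert p Q), cf ρ (n₀ * s) = cf ρ n₀ := by
    intro s hs
    refine cf_mul (inv_closure (fun t ht => ?_) hs) n₀
    rcases ht with rfl | ht
    · exact h1
    · exact h2 t ht
  have hw := wiener h3 h4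
  have hpos : 0 < d * ‖cf ρ n₀‖ ^ 2 := mul_pos hd0 (pow_pos (norm_pos_iff.2 h5) 2)
  obtain ⟨N₁, hN₁⟩ := eventually_atTop.1 (hw.eventually_lt_const hpos)
  obtain ⟨N, hN, hNd⟩ := hd (N₁ + 1)
  have hNR : (0 : ℝ) < N := by exact_mod_cast (show 0 < N by omega)
  have h6 := hN₁ N (by omega)
  rw [div_lt_iff₀ hNR] at h6
  set S : Set ℕ := ((Submonoid.closure (insert p Q) : Submonoid ℕ) : Set ℕ) with hS
  have h7 : (((S ∩ Set.Iio N).ncard : ℝ)) * ‖cf ρ n₀‖ ^ 2 ≤
      ∑ n ∈ Finset.range N, ‖cf ρ (n₀ * n)‖ ^ 2 := by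
    have hset : S ∩ Set.Iio N = (((Finset.range N).filter (· ∈ S) : Finset ℕ) : Set ℕ) := by
      ext m
      simp [and_comm]
    rw [hset, Set.ncard_coe_finset]
    calc (((Finset.range N).filter (· ∈ S)).card : ℝ) * ‖cf ρ n₀‖ ^ 2
        = ∑ _n ∈ (Finset.range N).filter (· ∈ S), ‖cf ρ n₀‖ ^ 2 := by
          rw [Finset.sum_const, nsmul_eq_mul]
      _ = ∑ n ∈ (Finset.range N).filter (· ∈ S), ‖cf ρ (n₀ * n)‖ ^ 2 := by
          refine Finset.sum_congr rfl fun n hn => ?_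
          rw [hinv n (Finset.mem_filter.1 hn).2]
      _ ≤ _ := Finset.sum_le_sum_of_subset_of_nonneg (Finset.filter_subset _ _)
          fun _ _ _ => sq_nonneg _
  have h8 : d * N * ‖cf ρ n₀‖ ^ 2 ≤ ((S ∩ Set.Iio N).ncard : ℝ) * ‖cf ρ n₀‖ ^ 2 := by
    gcongr
  nlinarith

/-- the integers generated by the primes not dividing `p` have positive upper density -/
theorem posUpper_primes {p : ℕ} (hp : 2 ≤ p) :
    PosUpper (Submonoid.closure (insert p {q : ℕ | q.Prime ∧ ¬ q ∣ p}) : Submonoid ℕ) := by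
  have hmem : ∀ m : ℕ, m ≠ 0 → Nat.Coprime m p →
      m ∈ Submonoid.closure (insert p {q : ℕ | q.Prime ∧ ¬ q ∣ p}) := by
    intro m hm hc
    rw [← Nat.prod_primeFactorsList hm]
    refine Submonoid.list_prod_mem _ fun q hq => ?_
    have hq1 := Nat.prime_of_mem_primeFactorsList hq
    refine Submonoid.subset_closure (Or.inr ⟨hq1, fun hd => ?_⟩)
    have h2 : q ∣ m := Nat.dvd_of_mem_primeFactorsList hq
    have h3 : q ∣ Nat.gcd m p := Nat.dvd_gcd h2 hd
    have h4 : q ∣ 1 := hc ▸ h3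
    exact hq1.one_lt.ne' (Nat.dvd_one.1 h4)
  have hpR : (0 : ℝ) < p := by exact_mod_cast (show 0 < p by omega)
  refine ⟨1 / p, by positivity, fun N₀ => ⟨p * (N₀ + 1), by nlinarith, ?_⟩⟩
  have h1 : (((Finset.range (N₀ + 1)).image fun j => p * j + 1 : Finset ℕ) : Set ℕ) ⊆
      ((Submonoid.closure (insert p {q : ℕ | q.Prime ∧ ¬ q ∣ p}) : Submonoid ℕ) : Set ℕ) ∩
        Set.Iio (p * (N₀ + 1)) := by
    intro m hm
    rw [Finset.mem_coe, Finset.mem_image] at hm
    obtain ⟨j, hj, rfl⟩ := hm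
    rw [Finset.mem_range] at hj
    refine ⟨hmem _ (by omega) ?_, ?_⟩
    · rw [Nat.coprime_iff_gcd_eq_one]
      simp
    · show p * j + 1 < p * (N₀ + 1)
      have : j ≤ N₀ := by omega
      nlinarith
  have h2 := Set.ncard_le_ncard h1 ((Set.finite_Iio _).inter_of_right _)
  rw [Set.ncard_coe_finset, Finset.card_image_of_injective _ (by
    intro a b hab
    have hab' : p * a + 1 = p * b + 1 := hab
    have h3 : p * a = p * b := by omega
    exact Nat.eq_of_mul_eq_mul_left (by omega) h3), Finset.card_range] at h2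
  have h3 : ((N₀ + 1 : ℕ) : ℝ) ≤ (((Submonoid.closure (insert p {q : ℕ | q.Prime ∧ ¬ q ∣ p}) :
      Submonoid ℕ) : Set ℕ) ∩ Set.Iio (p * (N₀ + 1))).ncard := by exact_mod_cast h2
  refine le_trans (le_of_eq ?_) h3
  push_cast
  field_simp

end Pool.Agent.Helper33.HK
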