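import Pool.Agent.Helper33.HK.Grow

/-!
# The images of a singular invariant measure under `x ↦ q ^ k x` are nearly singular to their
translates by `1 / q`.
-/

set_option autoImplicit false

open MeasureTheory Filter Topology Set
open scoped ENNReal

namespace Pool.Agent.Helper33.HK

open Pool.Agent.K3h68.IL Pool.Agent.R202.STP

lemma sq_add_le (a b : ℝ≥0∞) : (a + b) ^ 2 ≤ 4 * (a ^ 2 + b ^ 2) := by
  have h : a + b ≤ 2 * max a b := by
    rw [two_mul]
    exact add_le_add (le_max_left _ _) (le_max_right _ _)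
  calc (a + b) ^ 2 ≤ (2 * max a b) ^ 2 := pow_le_pow_left' h 2
    _ = 4 * (max a b) ^ 2 := by ring
    _ ≤ 4 * (a ^ 2 + b ^ 2) := by
        gcongr
        rcases le_total a b with hab | hab
        · rw [max_eq_right hab]; exact le_add_self
        · rw [max_eq_left hab]; exact le_self_add

lemma tendsto_N {q D : ℕ} (hq : 2 ≤ q) (hD : 1 ≤ D) :
    Tendsto (fun k : ℕ => (q ^ k - 1) / D + 1) atTop atTop := by
  rw [tendsto_atTop]
  intro b
  have h1 : Tendsto (fun k : ℕ => q ^ k) atTop atTop := tendsto_pow_atTop_atTop_of_one_lt (by omega)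
  filter_upwards [h1.eventually_ge_atTop (D * b + 1)] with k hk
  have h2 : b ≤ (q ^ k - 1) / D := by
    rw [Nat.le_div_iff_mul_le (by omega), mul_comm]
    omega
  omega

/-- a set on which all the means vanish is null for a singular measure -/
theorem null_of_zero {σ : Measure UnitAddCircle} [IsProbabilityMeasure σ] (hs : σ ⟂ₘ volume)
    {Z : Set UnitAddCircle}
    (h : ∀ a : ℤ, a ≠ 0 → ∫ x in Z, (fourier a x : ℂ) ∂σ = 0) : σ Z = 0 := by
  by_contra hne
  have hZt : σ Z ≠ ∞ := measure_ne_top σ Z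
  set ν : Measure UnitAddCircle := (σ Z)⁻¹ • σ.restrict Z with hν
  have hνp : IsProbabilityMeasure ν := by
    refine ⟨?_⟩
    rw [hν, Measure.smul_apply, Measure.restrict_apply_univ, smul_eq_mul,
      ENNReal.inv_mul_cancel hne hZt]
  have hvol : IsProbabilityMeasure (volume : Measure UnitAddCircle) :=
    ⟨UnitAddCircle.measure_univ⟩
  have h1 : ν = volume := by
    refine ext_cf fun a ha => ?_
    rw [cf_vol ha]
    unfold cf
    rw [hν, integral_smul_measure, h a ha, smul_zero]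
  obtain ⟨S, hS, hS1, hS2⟩ := hs
  have h2 : (volume : Measure UnitAddCircle) S = 0 := by
    rw [← h1, hν, Measure.smul_apply, smul_eq_mul]
    have : σ.restrict Z S = 0 := le_antisymm ((Measure.restrict_apply_le Z S).trans hS1.le) bot_le
    rw [this, mul_zero]
  have h3 : (volume : Measure UnitAddCircle) univ = 0 := by
    rw [← union_compl_self S]
    exact measure_union_null h2 hS2
  rw [measure_univ] at h3
  exact one_ne_zero h3

/-- the bound for the weighted integrals of the limits -/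
theorem wlim {p q : ℕ} (hp : 2 ≤ p) (hq : 2 ≤ q) (hpq : Nat.Coprime p q)
    {σ : Measure UnitAddCircle} [IsProbabilityMeasure σ] {B : ℕ → Set UnitAddCircle}
    (hB : ∀ k, MeasurableSet (B k))
    (hBc : ∀ k t, MeasurableSet t → t ⊆ (B k)ᶜ →
      3 * σ.map (fun x : UnitAddCircle => (q ^ k) • x) t ≤
        2 * sat q (σ.map fun x : UnitAddCircle => (q ^ k) • x) t)
    {a : ℤ} (ha : a ≠ 0) {h : UnitAddCircle → ℂ} (hh : Measurable h)
    (hlim : Tendsto (fun N : ℕ => ∫⁻ x, ‖av (fun x : UnitAddCircle => p • x)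
      (fun x => (fourier a x : ℂ)) N x - h x‖ₑ ^ 2 ∂σ) atTop (𝓝 0)) :
    ∃ D : ℕ, ∀ K : ℕ, ∫⁻ x, W q B K x * ‖h x‖ₑ ^ 2 ∂σ ≤ 4 * D := by
  obtain ⟨D, hD, hinc⟩ := incong p q hp hq hpq a ha
  refine ⟨D, fun K => ?_⟩
  set N : ℕ → ℕ := fun k => (q ^ k - 1) / D + 1 with hN
  have hmeasA : ∀ n : ℕ, Measurable (av (fun x : UnitAddCircle => p • x)
      (fun x => (fourier a x : ℂ)) n) := by
    intro n
    have : av (fun x : UnitAddCircle => p • x) (fun x => (fourier a x : ℂ)) n =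
        fun x => (n : ℂ)⁻¹ * ∑ i ∈ Finset.range n, (fourier (a * (p : ℤ) ^ i) x : ℂ) :=
      funext (av_fourier p a n)
    rw [this]
    exact (Finset.measurable_sum _ fun i _ => (fourier _).continuous.measurable).const_mul _
  set A : ℕ → UnitAddCircle → ℂ := fun k => av (fun x : UnitAddCircle => p • x)
      (fun x => (fourier a x : ℂ)) (N k) with hA
  have hAm : ∀ k, Measurable (A k) := fun k => hmeasA _
  -- the averages
  have h1 : ∀ k, K ≤ k → ∫⁻ x, W q B K x * ‖A k x‖ₑ ^ 2 ∂σ ≤ D := by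
    intro k hk
    calc ∫⁻ x, W q B K x * ‖A k x‖ₑ ^ 2 ∂σ ≤ ∫⁻ x, W q B k x * ‖A k x‖ₑ ^ 2 ∂σ := by
          refine lintegral_mono fun x => ?_
          exact mul_le_mul_left (W_mono q B x hk) _
      _ ≤ ∫⁻ x, fs (q ^ k) (fun y => ‖A k y‖ₑ ^ 2) ((q ^ k) • x) ∂σ :=
          growth (by omega) σ hB hBc k ((hAm k).enorm.pow_const 2)
      _ ≤ ∫⁻ _x, (D : ℝ≥0∞) ∂σ := by
          refine lintegral_mono fun x => ?_
          refine fs_av_le (pow_pos (by omega) k) (Nat.succ_pos _) (le_mul_N q k D hD (by omega)) p a ?_ _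
          intro i j hi hj hd
          exact hinc k i j hi hj hd
      _ = D := by rw [lintegral_const, measure_univ, mul_one]
  -- the difference
  have h2 : ∀ k, K ≤ k → ∫⁻ x, W q B K x * ‖h x‖ₑ ^ 2 ∂σ ≤
      4 * ((3 / 2) ^ K * ∫⁻ x, ‖A k x - h x‖ₑ ^ 2 ∂σ + D) := by
    intro k hk
    calc ∫⁻ x, W q B K x * ‖h x‖ₑ ^ 2 ∂σ ≤
          ∫⁻ x, 4 * ((3 / 2) ^ K * ‖A k x - h x‖ₑ ^ 2 + W q B K x * ‖A k x‖ₑ ^ 2) ∂σ := by
          refine lintegral_mono fun x => ?_
          have e1 : ‖h x‖ₑ ≤ ‖A k x - h x‖ₑ + ‖A k x‖ₑ := by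
            have : h x = -(A k x - h x) + A k x := by ring
            calc ‖h x‖ₑ = ‖-(A k x - h x) + A k x‖ₑ := by rw [← this]
              _ ≤ ‖-(A k x - h x)‖ₑ + ‖A k x‖ₑ := enorm_add_le _ _
              _ = _ := by rw [enorm_neg]
          have e2 : ‖h x‖ₑ ^ 2 ≤ 4 * (‖A k x - h x‖ₑ ^ 2 + ‖A k x‖ₑ ^ 2) :=
            (pow_le_pow_left' e1 2).trans (sq_add_le _ _)
          calc W q B K x * ‖h x‖ₑ ^ 2 ≤ W q B K x * (4 * (‖A k x - h x‖ₑ ^ 2 + ‖A k x‖ₑ ^ 2)) :=
                mul_le_mul_right e2 _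
            _ = 4 * (W q B K x * ‖A k x - h x‖ₑ ^ 2 + W q B K x * ‖A k x‖ₑ ^ 2) := by ring
            _ ≤ _ := by
                gcongr
                exact W_le q B K x
      _ = 4 * ((3 / 2) ^ K * ∫⁻ x, ‖A k x - h x‖ₑ ^ 2 ∂σ + ∫⁻ x, W q B K x * ‖A k x‖ₑ ^ 2 ∂σ) := by
          have g1 : Measurable fun x => ‖A k x - h x‖ₑ ^ 2 := ((hAm k).sub hh).enorm.pow_const 2
          have g2 : Measurable fun x => (3 / 2 : ℝ≥0∞) ^ K * ‖A k x - h x‖ₑ ^ 2 := g1.const_mul _
          have g3 : Measurable fun x => W q B K x * ‖A k x‖ₑ ^ 2 :=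
            (meas_W hB K).mul ((hAm k).enorm.pow_const 2)
          have g4 : Measurable fun x => (3 / 2 : ℝ≥0∞) ^ K * ‖A k x - h x‖ₑ ^ 2 +
              W q B K x * ‖A k x‖ₑ ^ 2 := g2.add g3
          rw [lintegral_const_mul _ g4]
          congr 1
          rw [lintegral_add_left g2, lintegral_const_mul _ g1]
      _ ≤ _ := by
          gcongr
          exact h1 k hk
  have h3 : Tendsto (fun k => 4 * ((3 / 2 : ℝ≥0∞) ^ K * ∫⁻ x, ‖A k x - h x‖ₑ ^ 2 ∂σ + D)) atTop
      (𝓝 (4 * ((3 / 2) ^ K * 0 + D))) := by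
    have h4 := hlim.comp (tendsto_N hq hD)
    refine ENNReal.Tendsto.const_mul ?_ (Or.inr ENNReal.ofNat_ne_top)
    refine Tendsto.add ?_ tendsto_const_nhds
    refine ENNReal.Tendsto.const_mul h4 (Or.inr ?_)
    exact ENNReal.pow_ne_top (ENNReal.div_ne_top ENNReal.ofNat_ne_top two_ne_zero)
  rw [mul_zero, zero_add] at h3
  exact ge_of_tendsto h3 ((eventually_ge_atTop K).mono fun k hk => h2 k hk)

/-- if a point is outside infinitely many of the sets then the weights are unbounded -/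
lemma W_top {q : ℕ} {B : ℕ → Set UnitAddCircle} {x : UnitAddCircle}
    (hx : ∃ᶠ k in atTop, (q ^ k) • x ∉ B k) : ⨆ K, W q B K x = ∞ := by
  have h1 : ∀ m : ℕ, ∃ K, (3 / 2 : ℝ≥0∞) ^ m ≤ W q B K x := by
    intro m
    induction m with
    | zero => exact ⟨0, by simp [W]⟩
    | succ m ih =>
      obtain ⟨K, hK⟩ := ih
      obtain ⟨k, hk, hkB⟩ := (frequently_atTop.1 hx) K
      refine ⟨k + 1, ?_⟩
      rw [W_succ, pow_succ]
      refine mul_le_mul' (hK.trans (W_mono q B x hk)) ?_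
      unfold wt
      rw [if_neg hkB]
  have h2 : Tendsto (fun m : ℕ => (3 / 2 : ℝ≥0∞) ^ m) atTop (𝓝 ∞) := by
    refine ENNReal.tendsto_pow_atTop_nhds_top_iff.2 ?_
    rw [ENNReal.lt_div_iff_mul_lt (Or.inl two_ne_zero) (Or.inl ENNReal.ofNat_ne_top)]
    norm_num
  refine top_le_iff.1 (le_of_tendsto' h2 fun m => ?_)
  obtain ⟨K, hK⟩ := h1 m
  exact hK.trans (le_iSup (fun K => W q B K x) K)

theorem bad_null {p q : ℕ} (hp : 2 ≤ p) (hq : 2 ≤ q) (hpq : Nat.Coprime p q)
    {σ : Measure UnitAddCircle} [IsProbabilityMeasure σ]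
    (hσ : MeasurePreserving (fun x : UnitAddCircle => p • x) σ σ) (hs : σ ⟂ₘ volume)
    {B : ℕ → Set UnitAddCircle} (hB : ∀ k, MeasurableSet (B k))
    (hBc : ∀ k t, MeasurableSet t → t ⊆ (B k)ᶜ →
      3 * σ.map (fun x : UnitAddCircle => (q ^ k) • x) t ≤
        2 * sat q (σ.map fun x : UnitAddCircle => (q ^ k) • x) t) :
    ∀ᵐ x ∂σ, ∀ᶠ k in atTop, (q ^ k) • x ∈ B k := by
  have h0 := fun a : ℤ => mean1 hσ (memLp_fourier σ a)
  choose h hm hi hinv hint hlim using h0
  have h1 : ∀ᵐ x ∂σ, ∀ a : ℤ, a ≠ 0 → (⨆ K, W q B K x) * ‖h a x‖ₑ ^ 2 ≠ ∞ := by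
    rw [ae_all_iff]
    intro a
    by_cases ha : a = 0
    · exact Eventually.of_forall fun x h => absurd ha h
    obtain ⟨D, hD⟩ := wlim hp hq hpq hB hBc ha (hm a) (hlim a)
    have h2 : ∫⁻ x, (⨆ K, W q B K x) * ‖h a x‖ₑ ^ 2 ∂σ ≤ 4 * D := by
      simp_rw [ENNReal.iSup_mul]
      rw [lintegral_iSup]
      · exact iSup_le hD
      · intro K
        exact (meas_W hB K).mul ((hm a).enorm.pow_const 2)
      · intro K L hKL x
        exact mul_le_mul_left (W_mono q B x hKL) _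
    have h3 := ae_lt_top ((Measurable.iSup fun K => meas_W hB K).mul ((hm a).enorm.pow_const 2))
      (h2.trans_lt (ENNReal.mul_lt_top ENNReal.ofNat_lt_top (ENNReal.natCast_lt_top D))).ne
    filter_upwards [h3] with x hx _
    exact hx.ne
  set Z : Set UnitAddCircle := {x | ∀ a : ℤ, a ≠ 0 → h a x = 0} with hZ
  have hZm : MeasurableSet Z := by
    have : Z = ⋂ a : ℤ, ⋂ (_ : a ≠ 0), (h a) ⁻¹' {0} := by
      ext x
      simp [hZ]
    rw [this]
    exact MeasurableSet.iInter fun a => MeasurableSet.iInter fun _ => hm a (measurableSet_singleton 0)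
  have hZinv : (fun x : UnitAddCircle => p • x) ⁻¹' Z =ᵐ[σ] Z := by
    have : ∀ᵐ x ∂σ, ∀ a : ℤ, h a (p • x) = h a x := ae_all_iff.2 hinv
    filter_upwards [this] with x hx
    refine propext ?_
    show (∀ a : ℤ, a ≠ 0 → h a (p • x) = 0) ↔ (∀ a : ℤ, a ≠ 0 → h a x = 0)
    simp_rw [hx]
  have hZ0 : σ Z = 0 := by
    refine null_of_zero hs fun a ha => ?_
    rw [← hint a Z hZm hZinv]
    rw [setIntegral_congr_fun (g := fun _ => (0 : ℂ)) hZm fun x hx => hx a ha]
    simp
  have hZae : ∀ᵐ x ∂σ, x ∉ Z := measure_eq_zero_iff_ae_notMem.1 hZ0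
  filter_upwards [h1, hZae] with x hx hxZ
  by_contra hcon
  have hf : ∃ᶠ k in atTop, (q ^ k) • x ∉ B k := Filter.not_eventually.1 hcon
  apply hxZ
  intro a ha
  have h2 := hx a ha
  rw [W_top hf] at h2
  by_contra hne
  apply h2
  rw [ENNReal.top_mul]
  exact pow_ne_zero 2 (by simpa using hne)

/-- **Near singularity.** -/
theorem near {p q : ℕ} (hp : 2 ≤ p) (hq : 2 ≤ q) (hpq : Nat.Coprime p q)
    {σ : Measure UnitAddCircle} [IsProbabilityMeasure σ]
    (hσ : MeasurePreserving (fun x : UnitAddCircle => p • x) σ σ) (hs : σ ⟂ₘ volume) :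
    ∃ B : ℕ → Set UnitAddCircle, (∀ k, MeasurableSet (B k)) ∧
      Tendsto (fun k => σ.map (fun x : UnitAddCircle => (q ^ k) • x) (B k)ᶜ) atTop (𝓝 0) ∧
      ∀ (k : ℕ) (t : UnitAddCircle), q • t = 0 → t ≠ 0 →
        σ.map (fun x : UnitAddCircle => (q ^ k) • x) ((fun x => x + t) ⁻¹' (B k)) ≤
        σ.map (fun x : UnitAddCircle => (q ^ k) • x) (B k)ᶜ := by
  have hq0 : 0 < q := by omega
  have hfin : ∀ k : ℕ, IsFiniteMeasure (σ.map fun x : UnitAddCircle => (q ^ k) • x) := fun k =>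
    inferInstance
  have hH' : ∀ k : ℕ, ∃ s, MeasurableSet s ∧ (∀ t, MeasurableSet t → t ⊆ s →
      2 * sat q (σ.map fun x : UnitAddCircle => (q ^ k) • x) t ≤
      3 * σ.map (fun x : UnitAddCircle => (q ^ k) • x) t) ∧
      (∀ t, MeasurableSet t → t ⊆ sᶜ → 3 * σ.map (fun x : UnitAddCircle => (q ^ k) • x) t ≤
        2 * sat q (σ.map fun x : UnitAddCircle => (q ^ k) • x) t) := by
    intro k
    have h3 : IsFiniteMeasure ((3 : ℝ≥0∞) • σ.map fun x : UnitAddCircle => (q ^ k) • x) :=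
      Measure.smul_finite _ ENNReal.ofNat_ne_top
    have h2 : IsFiniteMeasure ((2 : ℝ≥0∞) • sat q (σ.map fun x : UnitAddCircle => (q ^ k) • x)) :=
      Measure.smul_finite _ ENNReal.ofNat_ne_top
    obtain ⟨s, hs, a, b⟩ := hahn_decomposition
      ((3 : ℝ≥0∞) • σ.map fun x : UnitAddCircle => (q ^ k) • x)
      ((2 : ℝ≥0∞) • sat q (σ.map fun x : UnitAddCircle => (q ^ k) • x))
    exact ⟨s, hs, a, b⟩
  choose B hB hB1 hBc using hH'
  refine ⟨B, hB, ?_, fun k t ht ht0 => ?_⟩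
  · have hae := bad_null hp hq hpq hσ hs hB hBc
    -- the measures of the complements
    set U : ℕ → Set UnitAddCircle := fun k => ((fun x : UnitAddCircle => (q ^ k) • x)) ⁻¹' (B k)ᶜ
      with hU
    have hUm : ∀ k, MeasurableSet (U k) := fun k => meas_nsmul _ (hB k).compl
    have h1 : ∀ k, σ.map (fun x : UnitAddCircle => (q ^ k) • x) (B k)ᶜ = σ (U k) := fun k =>
      Measure.map_apply (meas_nsmul _) (hB k).compl
    simp_rw [h1]
    have h2 : Tendsto (fun n => σ (⋃ k ≥ n, U k)) atTop (𝓝 (σ (⋂ n, ⋃ k ≥ n, U k))) := by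
      refine tendsto_measure_iInter_atTop ?_ ?_ ⟨0, measure_ne_top _ _⟩
      · intro n
        exact (MeasurableSet.iUnion fun k => MeasurableSet.iUnion fun _ => hUm k).nullMeasurableSet
      · intro m n hmn
        exact biUnion_subset_biUnion_left fun k hk => le_trans hmn hk
    have h3 : σ (⋂ n, ⋃ k ≥ n, U k) = 0 := by
      rw [measure_eq_zero_iff_ae_notMem]
      filter_upwards [hae] with x hx hmem
      obtain ⟨n, hn⟩ := eventually_atTop.1 hx
      rw [mem_iInter] at hmem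
      obtain ⟨k, hk, hkU⟩ := mem_iUnion₂.1 (hmem n)
      exact hkU (hn k hk)
    rw [h3] at h2
    refine tendsto_of_tendsto_of_tendsto_of_le_of_le tendsto_const_nhds h2 (fun _ => bot_le) ?_
    intro n
    exact measure_mono fun x hx => mem_iUnion₂.2 ⟨n, le_rfl, hx⟩
  · set τ := σ.map fun x : UnitAddCircle => (q ^ k) • x with hτ
    have hmadd : Measurable fun x : UnitAddCircle => x + t := measurable_add_const _
    have hmsub : Measurable fun x : UnitAddCircle => x + -t := measurable_add_const _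
    set C := B k ∩ (fun x => x + t) ⁻¹' (B k) with hC
    have hCm : MeasurableSet C := (hB k).inter (hmadd (hB k))
    set C' := (fun x => x + -t) ⁻¹' C with hC'
    have hCm' : MeasurableSet C' := hmsub hCm
    have hnu : q • (-t) = 0 := by rw [smul_neg, ht, neg_zero]
    have hu0 : -t ≠ 0 := neg_ne_zero.2 ht0
    have e1 : 2 * sat q τ C ≤ 3 * τ C := hB1 k C hCm inter_subset_left
    have e2 : 2 * sat q τ C' ≤ 3 * τ C' := by
      refine hB1 k C' hCm' ?_
      intro x hx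
      have h1 : (x + -t) + t ∈ B k := hx.2
      simpa using h1
    have e3 : sat q τ C' = sat q τ C := by
      rw [← lintegral_indicator_one hCm, ← lintegral_indicator_one hCm',
        lintegral_sat hq0 τ (measurable_one.indicator hCm),
        lintegral_sat hq0 τ (measurable_one.indicator hCm')]
      refine lintegral_congr fun z => ?_
      exact fs_shift hq0 (C.indicator 1) hnu _
    have e4 : τ C + τ C' ≤ sat q τ C := by
      rw [← lintegral_indicator_one hCm, ← lintegral_indicator_one hCm',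
        ← lintegral_indicator_one hCm, lintegral_sat hq0 τ (measurable_one.indicator hCm),
        ← lintegral_add_left (measurable_one.indicator hCm)]
      exact lintegral_mono fun z => two_le_fs hq0 (C.indicator 1) hnu hu0 z
    have e5 : sat q τ C = 0 := by
      by_contra hne
      have hft : sat q τ C ≠ ∞ := measure_ne_top _ _
      rw [e3] at e2
      have e6 : 4 * sat q τ C ≤ 3 * sat q τ C := by
        calc 4 * sat q τ C = 2 * sat q τ C + 2 * sat q τ C := by ring
          _ ≤ 3 * τ C + 3 * τ C' := add_le_add e1 e2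
          _ = 3 * (τ C + τ C') := by ring
          _ ≤ 3 * sat q τ C := by gcongr
      have e7 : (4 : ℝ≥0∞) ≤ 3 := (ENNReal.mul_le_mul_iff_left hne hft).1 e6
      norm_num at e7
    have e8 : τ C = 0 := le_antisymm ((le_sat hq0 τ C).trans e5.le) bot_le
    calc τ ((fun x => x + t) ⁻¹' (B k)) ≤ τ (C ∪ (B k)ᶜ) := by
          refine measure_mono fun x hx => ?_
          by_cases hxB : x ∈ B k
          · exact Or.inl ⟨hxB, hx⟩
          · exact Or.inr hxB
      _ ≤ τ C + τ (B k)ᶜ := measure_union_le _ _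
      _ = τ (B k)ᶜ := by rw [e8, zero_add]

end Pool.Agent.Helper33.HK
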