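import Pool.Agent.Helper33.HK.Near

/-!
# Near singularity when `q` is not coprime to `p` but has a divisor `r ≥ 2` which is
-/

set_option autoImplicit false

open MeasureTheory Filter Topology Set
open scoped ENNReal

namespace Pool.Agent.Helper33.HK

open Pool.Agent.K3h68.IL Pool.Agent.R202.STP

/-- the part of `q` coprime to `p` -/
theorem exists_coprime_part (p : ℕ) (q : ℕ) (hq : 0 < q) :
    ∃ q' q'' j : ℕ, q = q' * q'' ∧ Nat.Coprime q' p ∧ q'' ∣ p ^ j := by
  induction q using Nat.strong_induction_on with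
  | _ q ih =>
    by_cases hc : Nat.Coprime q p
    · exact ⟨q, 1, 0, (mul_one q).symm, hc, one_dvd _⟩
    · set g := Nat.gcd q p with hg
      have hg0 : 0 < g := Nat.gcd_pos_of_pos_left p hq
      have hg1 : 1 < g := by
        rcases Nat.lt_or_ge 1 g with h | h
        · exact h
        · exact absurd (show Nat.gcd q p = 1 by omega) hc
      obtain ⟨q₁, hq₁⟩ : g ∣ q := Nat.gcd_dvd_left q p
      have hq₁0 : 0 < q₁ := by
        rcases Nat.eq_zero_or_pos q₁ with h | h
        · rw [h, mul_zero] at hq₁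
          omega
        · exact h
      have hlt : q₁ < q := by
        rw [hq₁]
        nlinarith
      obtain ⟨a, b, j, h1, h2, h3⟩ := ih q₁ hlt hq₁0
      refine ⟨a, g * b, j + 1, ?_, h2, ?_⟩
      · rw [hq₁, h1]; ring
      · rw [pow_succ', hg]
        exact Nat.mul_dvd_mul (Nat.gcd_dvd_right q p) h3

lemma inv_pow {p : ℕ} {σ : Measure UnitAddCircle}
    (hσ : MeasurePreserving (fun x : UnitAddCircle => p • x) σ σ) (j : ℕ) :
    MeasurePreserving (fun x : UnitAddCircle => (p ^ j) • x) σ σ := by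
  have h := hσ.iterate j
  have : (fun x : UnitAddCircle => p • x)^[j] = fun x => (p ^ j) • x := by
    funext x
    exact Pool.Agent.R202.STP.iter_smul p j x
  rwa [this] at h

/-- **Near singularity**, the general case. -/
theorem near' {p q r : ℕ} (hp : 2 ≤ p) (hq : 2 ≤ q) (hr : 2 ≤ r) (hrq : r ∣ q)
    (hrp : Nat.Coprime r p) {σ : Measure UnitAddCircle} [IsProbabilityMeasure σ]
    (hσ : MeasurePreserving (fun x : UnitAddCircle => p • x) σ σ) (hs : σ ⟂ₘ volume) :
    ∃ B : ℕ → Set UnitAddCircle, (∀ k, MeasurableSet (B k)) ∧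
      Tendsto (fun k => σ.map (fun x : UnitAddCircle => (q ^ k) • x) (B k)ᶜ) atTop (𝓝 0) ∧
      ∀ (k : ℕ) (t : UnitAddCircle), r • t = 0 → t ≠ 0 →
        σ.map (fun x : UnitAddCircle => (q ^ k) • x) ((fun x => x + t) ⁻¹' (B k)) ≤
        σ.map (fun x : UnitAddCircle => (q ^ k) • x) (B k)ᶜ := by
  obtain ⟨q', q'', j, hqq, hq'p, hq''⟩ := exists_coprime_part p q (by omega)
  have hrq'' : Nat.Coprime r q'' := Nat.Coprime.coprime_dvd_right hq'' (hrp.pow_right j)
  have hrq' : r ∣ q' := hrq''.dvd_of_dvd_mul_right (by rwa [hqq] at hrq)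
  have hq'0 : 0 < q' := by
    rcases Nat.eq_zero_or_pos q' with h | h
    · rw [h, zero_mul] at hqq
      omega
    · exact h
  have hq'2 : 2 ≤ q' := hr.trans (Nat.le_of_dvd hq'0 hrq')
  obtain ⟨B', hB', hBt', hBs'⟩ := near hp hq'2 hq'p.symm hσ hs
  -- the multipliers
  have hck : ∀ k : ℕ, ∃ c : ℕ, p ^ (j * k) = q'' ^ k * c := by
    intro k
    obtain ⟨c, hc⟩ := pow_dvd_pow_of_dvd hq'' k
    exact ⟨c, by rw [pow_mul, hc]⟩
  choose c hc using hck
  have hcq : ∀ k, c k * q ^ k = p ^ (j * k) * q' ^ k := by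
    intro k
    rw [hc k, hqq, mul_pow]
    ring
  have hct : ∀ (k : ℕ) (t : UnitAddCircle), r • t = 0 → t ≠ 0 → c k • t ≠ 0 := by
    intro k t ht ht0 h0
    apply ht0
    have hcop : Nat.Coprime r (c k) := by
      refine Nat.Coprime.coprime_dvd_right ?_ (hrp.pow_right (j * k))
      rw [hc k]
      exact Dvd.intro_left _ rfl
    refine smul_inj (y := t) (z := 0) hcop ?_ ?_
    · rw [ht, smul_zero]
    · rw [h0, smul_zero]
  have key : ∀ (k : ℕ) (t : UnitAddCircle), MeasurableSet ((fun x => x + c k • t) ⁻¹' B' k) → 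
      σ.map (fun x : UnitAddCircle => (q ^ k) • x)
      ((fun x => x + t) ⁻¹' ((fun x : UnitAddCircle => c k • x) ⁻¹' (B' k))) =
      σ.map (fun x : UnitAddCircle => (q' ^ k) • x) ((fun x => x + c k • t) ⁻¹' (B' k)) := by
    intro k t hm
    rw [Measure.map_apply (meas_nsmul _) ((measurable_add_const t) (meas_nsmul _ (hB' k))),
      Measure.map_apply (meas_nsmul _) hm]
    rw [← (inv_pow hσ (j * k)).measure_preimage (meas_nsmul _ hm).nullMeasurableSet]
    congr 1
    ext x
    show c k • ((q ^ k) • x + t) ∈ B' k ↔ (q' ^ k) • (p ^ (j * k)) • x + c k • t ∈ B' k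
    rw [smul_add, smul_smul, hcq, mul_comm, mul_smul]
  refine ⟨fun k => (fun x : UnitAddCircle => c k • x) ⁻¹' (B' k), fun k => meas_nsmul _ (hB' k),
    ?_, fun k t ht ht0 => ?_⟩
  · refine hBt'.congr fun k => ?_
    have h1 := key k 0 (by simpa using hB' k)
    simp only [add_zero, smul_zero, preimage_id'] at h1
    have hq1 : IsProbabilityMeasure (σ.map fun x : UnitAddCircle => (q ^ k) • x) :=
      Measure.isProbabilityMeasure_map (meas_nsmul _).aemeasurable
    have hq2 : IsProbabilityMeasure (σ.map fun x : UnitAddCircle => (q' ^ k) • x) :=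
      Measure.isProbabilityMeasure_map (meas_nsmul _).aemeasurable
    rw [prob_compl_eq_one_sub (hB' k), prob_compl_eq_one_sub (meas_nsmul _ (hB' k)), h1]
  · have h1 := key k t ((measurable_add_const _) (hB' k))
    have h2 := key k 0 (by simpa using hB' k)
    simp only [add_zero, smul_zero, preimage_id'] at h2
    have hq1 : IsProbabilityMeasure (σ.map fun x : UnitAddCircle => (q ^ k) • x) :=
      Measure.isProbabilityMeasure_map (meas_nsmul _).aemeasurable
    have hq2 : IsProbabilityMeasure (σ.map fun x : UnitAddCircle => (q' ^ k) • x) :=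
      Measure.isProbabilityMeasure_map (meas_nsmul _).aemeasurable
    rw [prob_compl_eq_one_sub (meas_nsmul _ (hB' k)), h2, ← prob_compl_eq_one_sub (hB' k), h1]
    refine hBs' k (c k • t) ?_ (hct k t ht ht0)
    obtain ⟨s, hs⟩ := hrq'
    rw [hs, smul_comm, mul_comm, mul_smul, ht, smul_zero, smul_zero]

end Pool.Agent.Helper33.HK
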