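import Pool.Agent.Helper33.HK.Mean

/-!
# Norm convergence of the averages of the images of a measure
-/

set_option autoImplicit false

open MeasureTheory Filter Topology Set
open scoped ENNReal InnerProductSpace

namespace Pool.Agent.Helper33.HK

open Pool.Agent.R202.TM

variable {X : Type*} [MeasurableSpace X]

theorem adj_mean {T : X → X} {ρ : Measure X} [IsProbabilityMeasure ρ]
    (hT : MeasurePreserving T ρ ρ) {g : X → ℂ} (hg : MemLp g 2 ρ) :
    ∃ L : Set X → ℂ, ∀ ε : ℝ, 0 < ε → ∃ N₀ : ℕ, ∀ N ≥ N₀, ∀ A, MeasurableSet A →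
      ‖(N : ℂ)⁻¹ * ∑ j ∈ Finset.range N, ∫ x in (T^[j]) ⁻¹' A, g x ∂ρ - L A‖ ≤ ε := by
  set V := Pool.Agent.R202.TM.comp hT with hV
  set V' := ContinuousLinearMap.adjoint V with hV'
  have hn : ‖V'‖ ≤ 1 := by
    rw [hV', LinearIsometryEquiv.norm_map]
    exact comp_norm hT
  obtain ⟨P, hP, -, -, -⟩ := mean V' hn
  set G := hg.toLp with hG
  set W := P G with hW
  classical
  refine ⟨fun A => if hA : MeasurableSet A then
    ⟪indicatorConstLp 2 hA (measure_ne_top ρ A) (1 : ℂ), W⟫_ℂ else 0, fun ε hε => ?_⟩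
  obtain ⟨N₀, hN₀⟩ := Metric.tendsto_atTop.1 (hP G) ε hε
  refine ⟨N₀, fun N hN A hA => ?_⟩
  beta_reduce
  rw [dif_pos hA]
  set e := indicatorConstLp 2 hA (measure_ne_top ρ A) (1 : ℂ) with he
  have hee : (e : X → ℂ) =ᵐ[ρ] A.indicator fun _ => (1 : ℂ) := indicatorConstLp_coeFn
  have hadj : ∀ j : ℕ, ⟪e, V'^[j] G⟫_ℂ = ⟪V^[j] e, G⟫_ℂ := by
    intro j
    have : ∀ (j : ℕ) (y : Lp ℂ 2 ρ), ⟪y, V'^[j] G⟫_ℂ = ⟪V^[j] y, G⟫_ℂ := by
      intro j
      induction j with
      | zero => intro y; rfl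
      | succ j ih =>
        intro y
        rw [Function.iterate_succ_apply', hV', ContinuousLinearMap.adjoint_inner_right, ← hV', ih,
          Function.iterate_succ_apply]
    exact this j e
  have hint : ∀ j : ℕ, ⟪e, V'^[j] G⟫_ℂ = ∫ x in (T^[j]) ⁻¹' A, g x ∂ρ := by
    intro j
    rw [hadj]
    have hTj := (hT.iterate j).measurable hA
    set e' := indicatorConstLp 2 hTj (measure_ne_top ρ ((T^[j]) ⁻¹' A)) (1 : ℂ) with he'
    have hee' : (e' : X → ℂ) =ᵐ[ρ] ((T^[j]) ⁻¹' A).indicator fun _ => (1 : ℂ) :=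
      indicatorConstLp_coeFn
    have h1 : V^[j] e = e' := by
      apply Lp.ext
      filter_upwards [comp_iter hT e j, hee', (hT.iterate j).quasiMeasurePreserving.ae hee]
        with x h1 h2 h3
      rw [h1, h2]
      show e (T^[j] x) = _
      rw [h3]
      rfl
    rw [h1, he', L2.inner_indicatorConstLp_one]
    refine setIntegral_congr_ae hTj ?_
    filter_upwards [hg.coeFn_toLp] with x hx _
    exact hx
  have hnorm : ‖e‖ ≤ 1 := by
    rw [he, norm_indicatorConstLp (by norm_num) (by norm_num)]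
    simp only [norm_one, one_mul]
    refine Real.rpow_le_one measureReal_nonneg ?_ (by positivity)
    exact measureReal_le_one
  have h1 : (N : ℂ)⁻¹ * ∑ j ∈ Finset.range N, ∫ x in (T^[j]) ⁻¹' A, g x ∂ρ - ⟪e, W⟫_ℂ =
      ⟪e, birkhoffAverage ℂ (⇑V') _root_.id N G - W⟫_ℂ := by
    rw [inner_sub_right]
    congr 1
    simp only [birkhoffAverage, birkhoffSum, _root_.id]
    rw [inner_smul_right, inner_sum]
    congr 1
    exact Finset.sum_congr rfl fun j _ => (hint j).symm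
  rw [h1]
  calc ‖⟪e, birkhoffAverage ℂ (⇑V') _root_.id N G - W⟫_ℂ‖
      ≤ ‖e‖ * ‖birkhoffAverage ℂ (⇑V') _root_.id N G - W‖ := norm_inner_le_norm _ _
    _ ≤ 1 * ‖birkhoffAverage ℂ (⇑V') _root_.id N G - W‖ := by gcongr
    _ ≤ ε := by
        rw [one_mul, ← dist_eq_norm]
        exact (hN₀ N hN).le

/-- the averages of the values of the images of `μ` -/
noncomputable def avg (T : X → X) (μ : Measure X) (N : ℕ) (A : Set X) : ℝ :=
  (N : ℝ)⁻¹ * ∑ j ∈ Finset.range N, (μ ((T^[j]) ⁻¹' A)).toReal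

/-- a finite measure is, up to `ε`, the sum of its singular part and of a measure with a density in
`L ^ 2` -/
lemma approx_density {D ρ : Measure X} [IsProbabilityMeasure D] [IsProbabilityMeasure ρ] {ε : ℝ}
    (hε : 0 < ε) : ∃ g : X → ℂ, MemLp g 2 ρ ∧ ∀ A, MeasurableSet A →
      ‖((D A).toReal : ℂ) - ∫ x in A, g x ∂ρ‖ ≤ (D.singularPart ρ univ).toReal + ε := by
  have hint : Integrable (fun x => (D.rnDeriv ρ x).toReal) ρ := Measure.integrable_toReal_rnDeriv
  have hmem : MemLp (fun x => (D.rnDeriv ρ x).toReal) 1 ρ := memLp_one_iff_integrable.2 hint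
  obtain ⟨g, hg, hg1⟩ := hmem.exists_simpleFunc_eLpNorm_sub_lt ENNReal.one_ne_top
    (ε := ENNReal.ofReal ε) (by simpa using hε)
  have hg2 : MemLp g 2 ρ := g.memLp_of_isFiniteMeasure 2 ρ
  have hgi : Integrable g ρ := memLp_one_iff_integrable.1 hg1
  refine ⟨fun x => (g x : ℂ), hg2.ofReal, fun A hA => ?_⟩
  have e1 : ∫ x in A, (g x : ℂ) ∂ρ = ((∫ x in A, g x ∂ρ : ℝ) : ℂ) := integral_ofReal
  rw [e1, ← Complex.ofReal_sub, Complex.norm_real]
  have hdec : (D A).toReal = (D.singularPart ρ A).toReal + ∫ x in A, (D.rnDeriv ρ x).toReal ∂ρ := by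
    have h1 : D = D.singularPart ρ + ρ.withDensity (D.rnDeriv ρ) := D.haveLebesgueDecomposition_add ρ
    have h2 : D A = D.singularPart ρ A + ρ.withDensity (D.rnDeriv ρ) A := by
      conv_lhs => rw [h1]
      rfl
    have hfin : ρ.withDensity (D.rnDeriv ρ) A ≠ ∞ := by
      intro h
      rw [h, add_top] at h2
      exact measure_ne_top D A h2
    have hfin' : D.singularPart ρ A ≠ ∞ := by
      intro h
      rw [h, top_add] at h2
      exact measure_ne_top D A h2
    rw [h2, ENNReal.toReal_add hfin' hfin, withDensity_apply _ hA, ← integral_toReal]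
    · exact (Measure.measurable_rnDeriv D ρ).aemeasurable
    · exact ae_restrict_of_ae (Measure.rnDeriv_lt_top D ρ)
  rw [hdec]
  have h3 : |∫ x in A, (D.rnDeriv ρ x).toReal ∂ρ - ∫ x in A, g x ∂ρ| ≤ ε := by
    rw [← integral_sub hint.integrableOn hgi.integrableOn]
    calc |∫ x in A, ((D.rnDeriv ρ x).toReal - g x) ∂ρ|
        ≤ ∫ x in A, ‖(D.rnDeriv ρ x).toReal - g x‖ ∂ρ := by
          rw [← Real.norm_eq_abs]
          exact norm_integral_le_integral_norm _
      _ ≤ ∫ x, ‖(D.rnDeriv ρ x).toReal - g x‖ ∂ρ :=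
          setIntegral_le_integral (hint.sub hgi).norm (Eventually.of_forall fun x => norm_nonneg _)
      _ ≤ ε := by
          have h4 : eLpNorm ((fun x => (D.rnDeriv ρ x).toReal) - ⇑g) 1 ρ =
              ENNReal.ofReal (∫ x, ‖(D.rnDeriv ρ x).toReal - g x‖ ∂ρ) := by
            rw [eLpNorm_one_eq_lintegral_enorm]
            exact (ofReal_integral_norm_eq_lintegral_enorm (hint.sub hgi)).symm
          rw [h4] at hg
          exact ((ENNReal.ofReal_lt_ofReal_iff hε).1 hg).le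
  calc ‖(D.singularPart ρ A).toReal + ∫ x in A, (D.rnDeriv ρ x).toReal ∂ρ - ∫ x in A, g x ∂ρ‖
      = |(D.singularPart ρ A).toReal + (∫ x in A, (D.rnDeriv ρ x).toReal ∂ρ -
          ∫ x in A, g x ∂ρ)| := by rw [add_sub_assoc]; rfl
    _ ≤ |(D.singularPart ρ A).toReal| + |∫ x in A, (D.rnDeriv ρ x).toReal ∂ρ -
          ∫ x in A, g x ∂ρ| := abs_add_le _ _
    _ ≤ (D.singularPart ρ univ).toReal + ε := by
        rw [abs_of_nonneg ENNReal.toReal_nonneg]
        have hsf : IsFiniteMeasure (D.singularPart ρ) := inferInstance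
        refine add_le_add (ENNReal.toReal_mono (measure_ne_top _ _) (measure_mono (subset_univ _))) h3

/-- **Norm convergence.** -/
theorem avg_cauchy {T : X → X} {μ ρ : Measure X} [IsProbabilityMeasure μ] [IsProbabilityMeasure ρ]
    (hT : MeasurePreserving T ρ ρ)
    (h : Tendsto (fun k => ((μ.map T^[k]).singularPart ρ) univ) atTop (𝓝 0)) :
    ∀ ε : ℝ, 0 < ε → ∃ N₀ : ℕ, ∀ N ≥ N₀, ∀ N' ≥ N₀, ∀ A, MeasurableSet A →
      |avg T μ N A - avg T μ N' A| ≤ ε := by
  intro ε hε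
  have hTm := hT.measurable
  -- the choice of `k₀`
  obtain ⟨k₀, hk₀⟩ : ∃ k₀, ((μ.map T^[k₀]).singularPart ρ) univ < ENNReal.ofReal (ε / 8) :=
    (h.eventually_lt_const (by simpa using (by positivity : 0 < ε / 8))).exists
  have hprob : ∀ k, IsProbabilityMeasure (μ.map T^[k]) := fun k =>
    Measure.isProbabilityMeasure_map (hTm.iterate k).aemeasurable
  obtain ⟨g, hg, hgA⟩ := approx_density (D := μ.map T^[k₀]) (ρ := ρ) (ε := ε / 8) (by positivity)
  have hs : (((μ.map T^[k₀]).singularPart ρ) univ).toReal ≤ ε / 8 := by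
    have h1 := ENNReal.toReal_mono ENNReal.ofReal_ne_top hk₀.le
    rwa [ENNReal.toReal_ofReal (by positivity)] at h1
  obtain ⟨L, hL⟩ := adj_mean hT hg
  obtain ⟨N₁, hN₁⟩ := hL (ε / 8) (by positivity)
  obtain ⟨N₂, hN₂⟩ := exists_nat_gt (2 * (k₀ : ℝ) / (ε / 8))
  -- each average is close to `L A`
  have key : ∀ N ≥ max (max N₁ N₂) 1, ∀ A, MeasurableSet A → ‖((avg T μ N A : ℝ) : ℂ) - L A‖ ≤ ε / 2 := by
    intro N hN A hA
    have hN1 : N₁ ≤ N := le_trans (le_trans (le_max_left _ _) (le_max_left _ _)) hN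
    have hN2 : N₂ ≤ N := le_trans (le_trans (le_max_right _ _) (le_max_left _ _)) hN
    have hN3 : 1 ≤ N := le_trans (le_max_right _ _) hN
    have hNpos : (0 : ℝ) < N := by exact_mod_cast hN3
    have h1 := hN₁ N hN1 A hA
    -- shift
    have h2 : |avg T μ N A - (N : ℝ)⁻¹ * ∑ j ∈ Finset.range N, (μ ((T^[j + k₀]) ⁻¹' A)).toReal| ≤
        ε / 8 := by
      unfold avg
      rw [← mul_sub, abs_mul, abs_of_nonneg (by positivity : (0 : ℝ) ≤ (N : ℝ)⁻¹)]
      have h3 : |∑ j ∈ Finset.range N, (μ ((T^[j]) ⁻¹' A)).toReal -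
          ∑ j ∈ Finset.range N, (μ ((T^[j + k₀]) ⁻¹' A)).toReal| ≤ 2 * k₀ := by
        have h4 : ∀ m : ℕ, |∑ j ∈ Finset.range N, (μ ((T^[j]) ⁻¹' A)).toReal -
          ∑ j ∈ Finset.range N, (μ ((T^[j + m]) ⁻¹' A)).toReal| ≤ 2 * m := by
          intro m
          induction m with
          | zero => simp
          | succ m ih =>
            have h5 : ∑ j ∈ Finset.range N, (μ ((T^[j + m]) ⁻¹' A)).toReal -
                ∑ j ∈ Finset.range N, (μ ((T^[j + (m + 1)]) ⁻¹' A)).toReal =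
                (μ ((T^[0 + m]) ⁻¹' A)).toReal - (μ ((T^[N + m]) ⁻¹' A)).toReal := by
              rw [← Finset.sum_sub_distrib]
              have := Finset.sum_range_sub' (fun j => (μ ((T^[j + m]) ⁻¹' A)).toReal) N
              rw [← this]
              refine Finset.sum_congr rfl fun j _ => ?_
              rw [show j + (m + 1) = j + 1 + m by ring]
            have h6 : |(μ ((T^[0 + m]) ⁻¹' A)).toReal - (μ ((T^[N + m]) ⁻¹' A)).toReal| ≤ 2 := by
              have a1 : (μ ((T^[0 + m]) ⁻¹' A)).toReal ≤ 1 := measureReal_le_one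
              have a2 : (μ ((T^[N + m]) ⁻¹' A)).toReal ≤ 1 := measureReal_le_one
              have a3 : 0 ≤ (μ ((T^[0 + m]) ⁻¹' A)).toReal := ENNReal.toReal_nonneg
              have a4 : 0 ≤ (μ ((T^[N + m]) ⁻¹' A)).toReal := ENNReal.toReal_nonneg
              rw [abs_le]
              constructor <;> linarith
            rw [← h5] at h6
            have h7 := abs_add_le (∑ j ∈ Finset.range N, (μ ((T^[j]) ⁻¹' A)).toReal -
              ∑ j ∈ Finset.range N, (μ ((T^[j + m]) ⁻¹' A)).toReal)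
              (∑ j ∈ Finset.range N, (μ ((T^[j + m]) ⁻¹' A)).toReal -
                ∑ j ∈ Finset.range N, (μ ((T^[j + (m + 1)]) ⁻¹' A)).toReal)
            rw [sub_add_sub_cancel] at h7
            push_cast
            linarith
        exact h4 k₀
      calc (N : ℝ)⁻¹ * |_| ≤ (N : ℝ)⁻¹ * (2 * k₀) := by gcongr
        _ ≤ ε / 8 := by
            rw [inv_mul_le_iff₀ hNpos]
            rw [div_lt_iff₀ (by positivity)] at hN₂
            have : (N₂ : ℝ) ≤ N := by exact_mod_cast hN2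
            nlinarith
    -- approximation
    have h3 : ‖(((N : ℝ)⁻¹ * ∑ j ∈ Finset.range N, (μ ((T^[j + k₀]) ⁻¹' A)).toReal : ℝ) : ℂ) -
        (N : ℂ)⁻¹ * ∑ j ∈ Finset.range N, ∫ x in (T^[j]) ⁻¹' A, g x ∂ρ‖ ≤ ε / 4 := by
      push_cast
      rw [← mul_sub, ← Finset.sum_sub_distrib, norm_mul, norm_inv, Complex.norm_natCast]
      have h4 : ∀ j ∈ Finset.range N, ‖((μ ((T^[j + k₀]) ⁻¹' A)).toReal : ℂ) -
          ∫ x in (T^[j]) ⁻¹' A, g x ∂ρ‖ ≤ ε / 4 := by
        intro j _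
        have hA' : MeasurableSet ((T^[j]) ⁻¹' A) := (hTm.iterate j) hA
        have h5 := hgA _ hA'
        rw [Measure.map_apply (hTm.iterate k₀) hA', ← preimage_comp, ← Function.iterate_add] at h5
        linarith
      calc (N : ℝ)⁻¹ * ‖_‖ ≤ (N : ℝ)⁻¹ * (N * (ε / 4)) := by
            gcongr
            refine (norm_sum_le_of_le _ h4).trans ?_
            rw [Finset.sum_const, Finset.card_range, nsmul_eq_mul]
        _ = ε / 4 := by rw [← mul_assoc, inv_mul_cancel₀ hNpos.ne', one_mul]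
    have h4 : ‖((avg T μ N A : ℝ) : ℂ) -
        (((N : ℝ)⁻¹ * ∑ j ∈ Finset.range N, (μ ((T^[j + k₀]) ⁻¹' A)).toReal : ℝ) : ℂ)‖ ≤ ε / 8 := by
      rw [← Complex.ofReal_sub, Complex.norm_real]
      exact h2
    calc ‖((avg T μ N A : ℝ) : ℂ) - L A‖
        ≤ ‖((avg T μ N A : ℝ) : ℂ) -
            (((N : ℝ)⁻¹ * ∑ j ∈ Finset.range N, (μ ((T^[j + k₀]) ⁻¹' A)).toReal : ℝ) : ℂ)‖ +
          ‖(((N : ℝ)⁻¹ * ∑ j ∈ Finset.range N, (μ ((T^[j + k₀]) ⁻¹' A)).toReal : ℝ) : ℂ) -
            (N : ℂ)⁻¹ * ∑ j ∈ Finset.range N, ∫ x in (T^[j]) ⁻¹' A, g x ∂ρ‖ +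
          ‖(N : ℂ)⁻¹ * ∑ j ∈ Finset.range N, ∫ x in (T^[j]) ⁻¹' A, g x ∂ρ - L A‖ := by
          refine le_trans ?_ (add_le_add_left (norm_add_le _ _) _)
          refine le_trans (le_of_eq ?_) (norm_add_le _ _)
          congr 1
          ring
      _ ≤ ε / 8 + ε / 4 + ε / 8 := add_le_add (add_le_add h4 h3) h1
      _ = ε / 2 := by ring
  refine ⟨max (max N₁ N₂) 1, fun N hN N' hN' A hA => ?_⟩
  have h1 := key N hN A hA
  have h2 := key N' hN' A hA
  have h3 : |avg T μ N A - avg T μ N' A| = ‖(((avg T μ N A : ℝ) : ℂ) - L A) -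
      (((avg T μ N' A : ℝ) : ℂ) - L A)‖ := by
    rw [sub_sub_sub_cancel_right, ← Complex.ofReal_sub, Complex.norm_real]
    rfl
  rw [h3]
  refine (norm_sub_le _ _).trans ?_
  linarith

end Pool.Agent.Helper33.HK
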