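import Mathlib

/-!
# The order of `p` modulo powers of `q`

If `p` and `q` are coprime then `q ^ k ∣ A * (p ^ d - 1)` with `d ≥ 1` forces `q ^ k ≤ D * d`, where
`D` depends on `A`, `p`, `q` only (lifting the exponent).
-/

namespace Pool.Agent.Helper33.HK

theorem emult_pow (l : ℕ) (hl : l.Prime) (u : ℤ) (hu : (l : ℤ) ^ 2 ∣ u - 1) (d : ℕ) :
    emultiplicity (l : ℤ) (u ^ d - 1) = emultiplicity (l : ℤ) ((u - 1) * d) := by
  have hlp : Prime (l : ℤ) := Nat.prime_iff_prime_int.1 hl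
  have h1 : (l : ℤ) ∣ u - 1 := (dvd_pow_self (l : ℤ) two_ne_zero).trans hu
  have h2 : ¬ (l : ℤ) ∣ u := by
    intro h
    have : (l : ℤ) ∣ 1 := by
      have := dvd_sub h h1
      simpa using this
    exact hlp.not_dvd_one this
  rw [emultiplicity_mul hlp]
  rcases hl.eq_two_or_odd' with rfl | ho
  · have h4 : (4 : ℤ) ∣ u - 1 := by
      have : ((2 : ℕ) : ℤ) ^ 2 = 4 := by norm_num
      rw [← this]; exact hu
    have := Int.two_pow_sub_pow' (x := u) (y := 1) d h4 (by exact_mod_cast h2)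
    simpa using this
  · have := Int.emultiplicity_pow_sub_pow hl ho (x := u) (y := 1) h1 h2 d
    simp only [one_pow] at this
    rw [this]
    congr 1
    exact (Int.natCast_emultiplicity l d).symm

theorem dvd_key (q k A u d : ℕ) (hu1 : 1 ≤ u) (hu : q ^ 2 ∣ u - 1)
    (h : q ^ k ∣ A * (u ^ d - 1)) : q ^ k ∣ A * (u - 1) * d := by
  rw [Nat.dvd_iff_prime_pow_dvd_dvd]
  intro l j hl hj
  rcases Nat.eq_zero_or_pos j with rfl | hj0
  · simp
  have hlq : l ∣ q := hl.dvd_of_dvd_pow ((dvd_pow_self l hj0.ne').trans hj)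
  have hlu : l ^ 2 ∣ u - 1 := (pow_dvd_pow_of_dvd hlq 2).trans hu
  have hlu' : (l : ℤ) ^ 2 ∣ (u : ℤ) - 1 := by
    have := Int.natCast_dvd_natCast.2 hlu
    push_cast [Nat.cast_sub hu1] at this
    exact this
  have hlp : Prime (l : ℤ) := Nat.prime_iff_prime_int.1 hl
  have h1 : l ^ j ∣ A * (u ^ d - 1) := hj.trans h
  have hud : 1 ≤ u ^ d := Nat.one_le_pow _ _ hu1
  have h2 : (l : ℤ) ^ j ∣ (A : ℤ) * ((u : ℤ) ^ d - 1) := by
    have := Int.natCast_dvd_natCast.2 h1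
    push_cast [Nat.cast_sub hud] at this
    exact this
  have h3 : (l : ℤ) ^ j ∣ (A : ℤ) * (((u : ℤ) - 1) * d) := by
    rw [pow_dvd_iff_le_emultiplicity] at h2 ⊢
    rw [emultiplicity_mul hlp] at h2 ⊢
    rwa [emult_pow l hl u hlu' d] at h2
  have h4 : (((l ^ j : ℕ)) : ℤ) ∣ ((A * (u - 1) * d : ℕ) : ℤ) := by
    push_cast [Nat.cast_sub hu1]
    rw [mul_assoc]
    exact h3
  exact Int.natCast_dvd_natCast.1 h4

/-- The constant `D`. -/
theorem ord_bound (p q : ℕ) (hp : 2 ≤ p) (hq : 2 ≤ q) (hpq : Nat.Coprime p q) (A : ℕ) (hA : 1 ≤ A) :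
    ∃ D : ℕ, 1 ≤ D ∧ ∀ k d : ℕ, 1 ≤ d → q ^ k ∣ A * (p ^ d - 1) → q ^ k ≤ D * d := by
  set m := Nat.totient (q ^ 2) with hm
  have hm0 : 0 < m := Nat.totient_pos.2 (by positivity)
  have hcop : Nat.Coprime p (q ^ 2) := hpq.pow_right 2
  have hmod : p ^ m ≡ 1 [MOD q ^ 2] := Nat.ModEq.pow_totient hcop
  have hpm : 2 ≤ p ^ m := by
    calc 2 ≤ p := hp
      _ = p ^ 1 := (pow_one p).symm
      _ ≤ p ^ m := Nat.pow_le_pow_right (by omega) hm0
  have hu : q ^ 2 ∣ p ^ m - 1 := (Nat.modEq_iff_dvd' (by omega)).1 hmod.symm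
  refine ⟨A * (p ^ m - 1), Nat.one_le_iff_ne_zero.2 (by
    have : p ^ m - 1 ≠ 0 := by omega
    positivity), ?_⟩
  intro k d hd h
  have h1 : p ^ d - 1 ∣ (p ^ m) ^ d - 1 := by
    rw [← pow_mul, mul_comm m d, pow_mul]
    simpa using Nat.sub_dvd_pow_sub_pow (p ^ d) 1 m
  have h2 : q ^ k ∣ A * ((p ^ m) ^ d - 1) := h.trans (Nat.mul_dvd_mul_left A h1)
  have h3 := dvd_key q k A (p ^ m) d (by omega) hu h2
  refine Nat.le_of_dvd ?_ h3
  have : 0 < p ^ m - 1 := by omega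
  positivity

/-- The form used for orthogonality: for a nonzero integer `a` there is `D ≥ 1` such that, with
`N = (q ^ k - 1) / D + 1`, the numbers `a p ^ i` (`i < N`) are pairwise incongruent modulo `q ^ k`. -/
theorem incong (p q : ℕ) (hp : 2 ≤ p) (hq : 2 ≤ q) (hpq : Nat.Coprime p q) (a : ℤ) (ha : a ≠ 0) :
    ∃ D : ℕ, 1 ≤ D ∧ ∀ k i j : ℕ, i < (q ^ k - 1) / D + 1 → j < (q ^ k - 1) / D + 1 →
      ((q ^ k : ℕ) : ℤ) ∣ a * (p : ℤ) ^ i - a * (p : ℤ) ^ j → i = j := by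
  obtain ⟨D, hD, h⟩ := ord_bound p q hp hq hpq a.natAbs (Nat.one_le_iff_ne_zero.2 (Int.natAbs_ne_zero.2 ha))
  refine ⟨D, hD, ?_⟩
  have key : ∀ k i j : ℕ, i < j → j < (q ^ k - 1) / D + 1 →
      ¬ ((q ^ k : ℕ) : ℤ) ∣ a * (p : ℤ) ^ j - a * (p : ℤ) ^ i := by
    intro k i j hij hj hdvd
    have hqk : 1 ≤ q ^ k := Nat.one_le_pow _ _ (by omega)
    have e1 : a * (p : ℤ) ^ j - a * (p : ℤ) ^ i = (p : ℤ) ^ i * (a * ((p : ℤ) ^ (j - i) - 1)) := by
      have : (p : ℤ) ^ j = (p : ℤ) ^ i * (p : ℤ) ^ (j - i) := by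
        rw [← pow_add]; congr 1; omega
      rw [this]; ring
    rw [e1] at hdvd
    have hc : IsCoprime ((q ^ k : ℕ) : ℤ) ((p : ℤ) ^ i) := by
      have : Nat.Coprime (q ^ k) (p ^ i) := (hpq.symm.pow_left k).pow_right i
      have := Nat.isCoprime_iff_coprime.2 this
      push_cast at this ⊢
      exact this
    have h1 := hc.dvd_of_dvd_mul_left hdvd
    have hp1 : 1 ≤ p ^ (j - i) := Nat.one_le_pow _ _ (by omega)
    have h2 : q ^ k ∣ a.natAbs * (p ^ (j - i) - 1) := by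
      have := Int.natAbs_dvd_natAbs.2 h1
      rw [Int.natAbs_mul] at this
      have e2 : ((p : ℤ) ^ (j - i) - 1).natAbs = p ^ (j - i) - 1 := by
        have : ((p : ℤ) ^ (j - i) - 1) = ((p ^ (j - i) - 1 : ℕ) : ℤ) := by
          push_cast [Nat.cast_sub hp1]; rfl
        rw [this, Int.natAbs_natCast]
      rw [e2, Int.natAbs_natCast] at this
      exact this
    have h3 := h k (j - i) (by omega) h2
    have h4 : D * (j - i) ≤ q ^ k - 1 := by
      calc D * (j - i) ≤ D * ((q ^ k - 1) / D) := Nat.mul_le_mul_left D (by omega)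
        _ ≤ q ^ k - 1 := Nat.mul_div_le _ _
    omega
  intro k i j hi hj hdvd
  rcases lt_trichotomy i j with hij | hij | hij
  · exact absurd ((dvd_sub_comm).1 hdvd) (key k i j hij hj)
  · exact hij
  · exact absurd hdvd (key k j i hij hi)

/-- The number `N` of terms satisfies `q ^ k ≤ D * N`. -/
theorem le_mul_N (q k D : ℕ) (hD : 1 ≤ D) (hq : 1 ≤ q) : q ^ k ≤ D * ((q ^ k - 1) / D + 1) := by
  have hqk : 1 ≤ q ^ k := Nat.one_le_pow _ _ hq
  have := Nat.lt_mul_div_succ (q ^ k - 1) (show 0 < D by omega)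
  omega

end Pool.Agent.Helper33.HK
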