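import Pool.Agent.Helper33.HK.Mean
import Pool.Agent.Helper33.HK.Ord

/-!
# Sums over the fibres of `x ↦ n x`
-/

set_option autoImplicit false

open MeasureTheory Filter Topology Set
open scoped ENNReal

namespace Pool.Agent.Helper33.HK

open Pool.Agent.K3h68.IL Pool.Agent.R202.STP

/-- the sum over the fibre of `x ↦ n x` -/
noncomputable def fs (n : ℕ) (F : UnitAddCircle → ℝ≥0∞) (z : UnitAddCircle) : ℝ≥0∞ :=
  ∑ y ∈ fib n z, F y

lemma fs_eq {n : ℕ} (hn : 0 < n) (F : UnitAddCircle → ℝ≥0∞) (z : UnitAddCircle) :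
    fs n F z = ∑ j ∈ Finset.range n, F (pre n z j) := by
  classical
  unfold fs fib
  rw [Finset.sum_image]
  intro i hi j hj h
  exact pre_inj hn z (Finset.mem_range.1 hi) (Finset.mem_range.1 hj) h

lemma meas_fs {n : ℕ} (hn : 0 < n) {F : UnitAddCircle → ℝ≥0∞} (hF : Measurable F) :
    Measurable (fs n F) := by
  have : fs n F = fun z => ∑ j ∈ Finset.range n, F (pre n z j) := funext (fs_eq hn F)
  rw [this]
  exact Finset.measurable_sum _ fun j _ => hF.comp (meas_pre n j)

lemma fs_one (F : UnitAddCircle → ℝ≥0∞) (z : UnitAddCircle) : fs 1 F z = F z := by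
  unfold fs
  have : fib 1 z = {z} := by
    ext y
    rw [mem_fib one_pos, one_nsmul, Finset.mem_singleton]
  rw [this, Finset.sum_singleton]

lemma fs_mul {n m : ℕ} (hn : 0 < n) (hm : 0 < m) (F : UnitAddCircle → ℝ≥0∞) (w : UnitAddCircle) :
    fs (n * m) F w = fs m (fs n F) w := by
  classical
  unfold fs
  have h1 : ∀ y ∈ fib (n * m) w, n • y ∈ fib m w := by
    intro y hy
    rw [mem_fib (Nat.mul_pos hn hm)] at hy
    rw [mem_fib hm, smul_smul, mul_comm]
    exact hy
  rw [← Finset.sum_fiberwise_of_maps_to h1]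
  refine Finset.sum_congr rfl fun z hz => ?_
  refine Finset.sum_congr ?_ fun _ _ => rfl
  ext y
  rw [Finset.mem_filter, mem_fib hn, mem_fib (Nat.mul_pos hn hm)]
  rw [mem_fib hm] at hz
  constructor
  · exact fun h => h.2
  · intro h
    refine ⟨?_, h⟩
    rw [mul_comm, mul_smul, h, hz]

lemma fs_weight {n : ℕ} (hn : 0 < n) (r F : UnitAddCircle → ℝ≥0∞) (z : UnitAddCircle) :
    fs n (fun y => r (n • y) * F y) z = r z * fs n F z := by
  unfold fs
  rw [Finset.mul_sum]
  refine Finset.sum_congr rfl fun y hy => ?_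
  show r (n • y) * F y = r z * F y
  rw [(mem_fib hn).1 hy]

lemma le_fs {n : ℕ} (hn : 0 < n) (F : UnitAddCircle → ℝ≥0∞) (x : UnitAddCircle) :
    F x ≤ fs n F (n • x) :=
  Finset.single_le_sum (f := F) (fun _ _ => bot_le) ((mem_fib hn).2 rfl)

lemma two_le_fs {n : ℕ} (hn : 0 < n) (F : UnitAddCircle → ℝ≥0∞) {t : UnitAddCircle}
    (ht : n • t = 0) (ht0 : t ≠ 0) (x : UnitAddCircle) : F x + F (x + t) ≤ fs n F (n • x) := by
  classical
  unfold fs
  have hne : x ≠ x + t := by
    intro h
    exact ht0 (left_eq_add.1 h)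
  have hsub : ({x, x + t} : Finset UnitAddCircle) ⊆ fib n (n • x) := by
    intro y hy
    rw [Finset.mem_insert, Finset.mem_singleton] at hy
    rw [mem_fib hn]
    rcases hy with rfl | rfl
    · rfl
    · rw [smul_add, ht, add_zero]
  calc F x + F (x + t) = ∑ y ∈ ({x, x + t} : Finset UnitAddCircle), F y := by
        rw [Finset.sum_pair hne]
    _ ≤ _ := Finset.sum_le_sum_of_subset hsub

lemma fs_shift {n : ℕ} (hn : 0 < n) (F : UnitAddCircle → ℝ≥0∞) {t : UnitAddCircle}
    (ht : n • t = 0) (z : UnitAddCircle) : fs n (fun y => F (y + t)) z = fs n F z := by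
  classical
  unfold fs
  refine Finset.sum_bij' (fun y _ => y + t) (fun y _ => y - t) ?_ ?_ ?_ ?_ ?_
  · intro y hy
    rw [mem_fib hn] at hy ⊢
    rw [smul_add, ht, add_zero, hy]
  · intro y hy
    rw [mem_fib hn] at hy ⊢
    rw [smul_sub, ht, sub_zero, hy]
  · intro y _
    simp
  · intro y _
    simp
  · intro y _
    rfl

/-- the sum of the translates of a measure by the points of order dividing `n` -/
noncomputable def sat (n : ℕ) (ν : Measure UnitAddCircle) : Measure UnitAddCircle :=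
  ∑ j ∈ Finset.range n, ν.map fun z => pre n (n • z) j

lemma meas_nsmul (n : ℕ) : Measurable fun x : UnitAddCircle => n • x :=
  (continuous_nsmul n).measurable

lemma meas_pre' (n j : ℕ) : Measurable fun z : UnitAddCircle => pre n (n • z) j :=
  (meas_pre n j).comp (meas_nsmul n)

lemma lintegral_sat {n : ℕ} (hn : 0 < n) (ν : Measure UnitAddCircle) {F : UnitAddCircle → ℝ≥0∞}
    (hF : Measurable F) : ∫⁻ y, F y ∂(sat n ν) = ∫⁻ z, fs n F (n • z) ∂ν := by
  unfold sat
  rw [lintegral_finsetSum_measure]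
  simp_rw [fs_eq hn]
  rw [lintegral_finsetSum]
  · refine Finset.sum_congr rfl fun j _ => ?_
    rw [lintegral_map hF (meas_pre' n j)]
  · intro j _
    exact hF.comp (meas_pre' n j)

instance sat_finite (n : ℕ) (ν : Measure UnitAddCircle) [IsFiniteMeasure ν] :
    IsFiniteMeasure (sat n ν) := by
  unfold sat
  infer_instance

lemma le_sat {n : ℕ} (hn : 0 < n) (ν : Measure UnitAddCircle) : ν ≤ sat n ν := by
  refine Measure.le_iff.2 fun A hA => ?_
  rw [← lintegral_indicator_one hA, ← lintegral_indicator_one hA,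
    lintegral_sat hn ν (measurable_one.indicator hA)]
  exact lintegral_mono fun x => le_fs hn _ x

end Pool.Agent.Helper33.HK
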