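import Pool.Agent.Helper33.HK.Dec

/-!
# One Hecke relation with nonnegative multipliers
-/

set_option autoImplicit false

open MeasureTheory Filter Topology Set
open scoped ENNReal

namespace Pool.Agent.Helper33.HK

open Pool.Agent.K3h68.IL Pool.Agent.R202.STP

/-- domination on open sets passes to all sets -/
theorem le_of_open {ρ σ : Measure UnitAddCircle} [IsFiniteMeasure σ] {C : ℝ≥0∞} (hC : C ≠ ∞)
    (h : ∀ O : Set UnitAddCircle, IsOpen O → ρ O ≤ C * σ O) (A : Set UnitAddCircle) :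
    ρ A ≤ C * σ A := by
  refine ENNReal.le_of_forall_pos_le_add fun ε hε _ => ?_
  have hC1 : C + 1 ≠ 0 := by simp
  have hCt : C + 1 ≠ ∞ := ENNReal.add_ne_top.2 ⟨hC, ENNReal.one_ne_top⟩
  have hη : (ε : ℝ≥0∞) / (C + 1) ≠ 0 := (ENNReal.div_pos (by exact_mod_cast hε.ne') hCt).ne'
  obtain ⟨U, hU1, hU2, hU3⟩ := A.exists_isOpen_le_add σ hη
  calc ρ A ≤ ρ U := measure_mono hU1
    _ ≤ C * σ U := h U hU2
    _ ≤ C * (σ A + (ε : ℝ≥0∞) / (C + 1)) := by gcongr
    _ = C * σ A + C * ((ε : ℝ≥0∞) / (C + 1)) := mul_add _ _ _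
    _ ≤ C * σ A + (C + 1) * ((ε : ℝ≥0∞) / (C + 1)) := by
        gcongr
        exact le_self_add
    _ ≤ C * σ A + ε := by
        gcongr
        exact ENNReal.mul_div_le

theorem dom_one {τ σ : Measure UnitAddCircle} [IsFiniteMeasure τ] [IsFiniteMeasure σ] {g : ℝ}
    (hg : 0 ≤ g) {u : UnitAddCircle}
    (h : ∀ n : ℤ, (fourier n u : ℂ) ≠ 1 → cf τ n = (g : ℂ) * cf σ n) (A : Set UnitAddCircle) :
    τ A ≤ (τ.map fun x => x + u) A + ENNReal.ofReal g * σ A := by
  have h1 := rel_eq τ (fun _ : Unit => σ) (fun _ => inferInstance) (fun _ => g) u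
    (fun n hn => by simpa using h n hn)
  simp only [Finset.univ_unique, Finset.sum_singleton] at h1
  rw [ENNReal.ofReal_of_nonpos (show -g ≤ 0 by linarith)] at h1
  simp only [zero_smul, zero_add, add_zero] at h1
  calc τ A ≤ (τ + ENNReal.ofReal g • σ.map fun x => x + u) A := by
        rw [Measure.add_apply]
        exact le_self_add
    _ = _ := by
        rw [h1, Measure.add_apply]
        rfl

theorem step {p q : ℕ} (hp : 2 ≤ p) (hq : 2 ≤ q) (hpq : Nat.Coprime p q)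
    {σ : Measure UnitAddCircle} [IsProbabilityMeasure σ]
    (hσ : MeasurePreserving (fun x : UnitAddCircle => p • x) σ σ) (hs : σ ⟂ₘ volume)
    {g : ℕ → ℝ} (hg0 : ∀ k, 0 ≤ g k)
    (hg : ∀ (k : ℕ) (n : ℤ), ¬ (q : ℤ) ∣ n → cf σ ((q : ℤ) ^ k * n) = (g k : ℂ) * cf σ n)
    {n₀ : ℤ} (hn₀ : ¬ (q : ℤ) ∣ n₀) (hc₀ : cf σ n₀ ≠ 0) :
    ∃ (F : Ultrafilter ℕ) (ρ : Measure UnitAddCircle) (C : ℝ), (F : Filter ℕ) ≤ atTop ∧
      IsProbabilityMeasure ρ ∧ 0 ≤ C ∧
      (∀ n : ℤ, Tendsto (fun j => cf (wav q σ (j + 1) 0) n) F (𝓝 (cf ρ n))) ∧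
      MeasurePreserving (fun x : UnitAddCircle => p • x) ρ ρ ∧
      MeasurePreserving (fun x : UnitAddCircle => q • x) ρ ρ ∧
      (∀ A, ρ A ≤ ENNReal.ofReal C * σ A) ∧ (∀ n : ℤ, ¬ (q : ℤ) ∣ n → cf ρ n = (C : ℂ) * cf σ n) := by
  have hq0 : 0 < q := by omega
  obtain ⟨F, ρ, hF, hρ, hc, hO⟩ := exists_limit q σ (fun j => j + 1) (fun _ => 0)
    (fun j => Nat.lt_succ_self j)
  have hip := limit_inv_p hσ hc
  have hiq := limit_inv_q (fun j => Nat.lt_succ_self j) hF hc
  -- the bound for `g`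
  have hpos : 0 < ‖cf σ n₀‖ := norm_pos_iff.2 hc₀
  have hgb : ∀ k, g k ≤ 1 / ‖cf σ n₀‖ := by
    intro k
    rw [le_div_iff₀ hpos]
    have h1 := congrArg norm (hg k n₀ hn₀)
    rw [norm_mul, Complex.norm_real, Real.norm_of_nonneg (hg0 k)] at h1
    rw [← h1]
    exact norm_cf_le σ _
  set G : ℕ → ℝ := fun j => ((j : ℝ) + 1)⁻¹ * ∑ i ∈ Finset.range (j + 1), g i with hG
  have hGmem : ∀ j, G j ∈ Set.Icc (0 : ℝ) (1 / ‖cf σ n₀‖) := by
    intro j
    have hj : (0 : ℝ) < (j : ℝ) + 1 := by positivity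
    constructor
    · exact mul_nonneg (by positivity) (Finset.sum_nonneg fun i _ => hg0 i)
    · rw [hG]
      simp only
      rw [inv_mul_le_iff₀ hj]
      calc ∑ i ∈ Finset.range (j + 1), g i ≤ ∑ _i ∈ Finset.range (j + 1), 1 / ‖cf σ n₀‖ :=
            Finset.sum_le_sum fun i _ => hgb i
        _ = _ := by
            rw [Finset.sum_const, Finset.card_range, nsmul_eq_mul]
            push_cast
            ring
  obtain ⟨C, hCmem, hC⟩ := (isCompact_Icc (a := (0 : ℝ)) (b := 1 / ‖cf σ n₀‖)).ultrafilter_le_nhds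
    (F.map G) (by
      rw [Ultrafilter.coe_map, Filter.le_principal_iff, Filter.mem_map]
      exact Filter.univ_mem' hGmem)
  have hCt : Tendsto G F (𝓝 C) := hC
  -- the coefficients
  have hcoef : ∀ n : ℤ, ¬ (q : ℤ) ∣ n → cf ρ n = (C : ℂ) * cf σ n := by
    intro n hn
    have h1 : ∀ j, cf (wav q σ (j + 1) 0) n = (G j : ℂ) * cf σ n := by
      intro j
      rw [cf_wav]
      have h2 : ∀ i ∈ Finset.range (j + 1), cf (img (q ^ (0 + i)) σ) n = (g i : ℂ) * cf σ n := by
        intro i _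
        rw [zero_add, cf_map, ← hg i n hn, mul_comm]
        push_cast
        rfl
      rw [Finset.sum_congr rfl h2, ← Finset.sum_mul, hG]
      push_cast
      ring
    have h3 : Tendsto (fun j => cf (wav q σ (j + 1) 0) n) F (𝓝 ((C : ℂ) * cf σ n)) := by
      simp_rw [h1]
      exact ((Complex.continuous_ofReal.tendsto C).comp hCt).mul_const _
    exact tendsto_nhds_unique (hc n) h3
  refine ⟨F, ρ, C, hF, hρ, hCmem.1, hc, hip, hiq, ?_, hcoef⟩
  -- the domination
  obtain ⟨B, hB, hBt, hBs⟩ := near hp hq hpq hσ hs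
  have hu0 : uu q ≠ 0 := by
    intro h
    have h1 := order_uu hq0
    rw [h, addOrderOf_zero] at h1
    omega
  have hdom : ∀ (k : ℕ) (A : Set UnitAddCircle), MeasurableSet A →
      img (q ^ k) σ A ≤ ENNReal.ofReal (g k) * σ A + 2 * img (q ^ k) σ (B k)ᶜ := by
    intro k A hA
    have hadd : Measurable fun x : UnitAddCircle => x + uu q := measurable_add_const _
    have h1 := dom_one (τ := img (q ^ k) σ) (σ := σ) (hg0 k) (u := uu q) (fun n hn => by
      rw [cf_map, ← hg k n (four_uu hq0 hn), mul_comm]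
      push_cast
      rfl) (A ∩ B k)
    have h2 : ((img (q ^ k) σ).map fun x => x + uu q) (A ∩ B k) ≤ img (q ^ k) σ (B k)ᶜ := by
      rw [Measure.map_apply hadd (hA.inter (hB k))]
      exact (measure_mono fun x hx => hx.2).trans (hBs k (uu q) (nsmul_uu hq0) hu0)
    calc img (q ^ k) σ A ≤ img (q ^ k) σ (A ∩ B k ∪ (B k)ᶜ) := by
          refine measure_mono fun x hx => ?_
          by_cases hxB : x ∈ B k
          · exact Or.inl ⟨hx, hxB⟩
          · exact Or.inr hxB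
      _ ≤ img (q ^ k) σ (A ∩ B k) + img (q ^ k) σ (B k)ᶜ := measure_union_le _ _
      _ ≤ (img (q ^ k) σ (B k)ᶜ + ENNReal.ofReal (g k) * σ A) + img (q ^ k) σ (B k)ᶜ := by
          gcongr
          refine h1.trans ?_
          gcongr
          exact inter_subset_left
      _ = _ := by ring
  set e : ℕ → ℝ := fun k => (img (q ^ k) σ (B k)ᶜ).toReal with he
  have het : Tendsto e atTop (𝓝 0) := by
    have h1 := (ENNReal.tendsto_toReal ENNReal.zero_ne_top).comp hBt
    rw [ENNReal.toReal_zero] at h1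
    exact h1
  have hces : Tendsto (fun j : ℕ => ((j : ℝ) + 1)⁻¹ * ∑ i ∈ Finset.range (j + 1), e i) atTop
      (𝓝 0) := by
    have h1 := het.cesaro.comp (tendsto_add_atTop_nat 1)
    refine h1.congr fun j => ?_
    simp
  refine le_of_open ENNReal.ofReal_ne_top fun O hOo => ?_
  have hreal : ∀ j : ℕ, wav q σ (j + 1) 0 O ≤
      ENNReal.ofReal (G j * (σ O).toReal + 2 * (((j : ℝ) + 1)⁻¹ * ∑ i ∈ Finset.range (j + 1), e i)) := by
    intro j
    have hp' := wav_prob q σ (Nat.succ_pos j) 0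
    rw [← ENNReal.ofReal_toReal (measure_ne_top (wav q σ (j + 1) 0) O)]
    refine ENNReal.ofReal_le_ofReal ?_
    rw [wav_apply, ENNReal.toReal_mul, ENNReal.toReal_inv, ENNReal.toReal_natCast,
      ENNReal.toReal_sum fun i _ => measure_ne_top _ _]
    have hj : (0 : ℝ) < (j : ℝ) + 1 := by positivity
    have hterm : ∀ i ∈ Finset.range (j + 1), (img (q ^ (0 + i)) σ O).toReal ≤
        g i * (σ O).toReal + 2 * e i := by
      intro i _
      rw [zero_add]
      have h1 := hdom i O hOo.measurableSet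
      have h2 := ENNReal.toReal_mono (by
        refine ENNReal.add_ne_top.2 ⟨ENNReal.mul_ne_top ENNReal.ofReal_ne_top (measure_ne_top _ _),
          ENNReal.mul_ne_top ENNReal.ofNat_ne_top (measure_ne_top _ _)⟩) h1
      rw [ENNReal.toReal_add (ENNReal.mul_ne_top ENNReal.ofReal_ne_top (measure_ne_top _ _))
        (ENNReal.mul_ne_top ENNReal.ofNat_ne_top (measure_ne_top _ _)), ENNReal.toReal_mul,
        ENNReal.toReal_mul, ENNReal.toReal_ofReal (hg0 i)] at h2
      simpa using h2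
    push_cast
    calc ((j : ℝ) + 1)⁻¹ * ∑ i ∈ Finset.range (j + 1), (img (q ^ (0 + i)) σ O).toReal
        ≤ ((j : ℝ) + 1)⁻¹ * ∑ i ∈ Finset.range (j + 1), (g i * (σ O).toReal + 2 * e i) := by
          gcongr with i hi
          exact hterm i hi
      _ = _ := by
          rw [Finset.sum_add_distrib, ← Finset.sum_mul, ← Finset.mul_sum, hG]
          ring
  have hlim : Tendsto (fun j : ℕ => ENNReal.ofReal (G j * (σ O).toReal +
      2 * (((j : ℝ) + 1)⁻¹ * ∑ i ∈ Finset.range (j + 1), e i))) F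
      (𝓝 (ENNReal.ofReal (C * (σ O).toReal + 2 * 0))) :=
    ENNReal.tendsto_ofReal ((hCt.mul_const _).add ((hces.mono_left hF).const_mul 2))
  calc ρ O ≤ liminf (fun j => wav q σ (j + 1) 0 O) (F : Filter ℕ) := hO O hOo
    _ ≤ liminf (fun j : ℕ => ENNReal.ofReal (G j * (σ O).toReal +
      2 * (((j : ℝ) + 1)⁻¹ * ∑ i ∈ Finset.range (j + 1), e i))) (F : Filter ℕ) :=
        liminf_le_liminf (Eventually.of_forall hreal)
    _ = ENNReal.ofReal (C * (σ O).toReal + 2 * 0) := hlim.liminf_eq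
    _ = ENNReal.ofReal C * σ O := by
        rw [mul_zero, add_zero, ENNReal.ofReal_mul hCmem.1, ENNReal.ofReal_toReal (measure_ne_top _ _)]

end Pool.Agent.Helper33.HK
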