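import Pool.Agent.Helper33.HK.Asym
import Pool.Agent.Helper33.HK.Norm
import Pool.Agent.Helper33.HK.Equiv

/-!
# The structure of the invariant measures with uniformly absolutely continuous primitive parts
-/

set_option autoImplicit false

open MeasureTheory Filter Topology Set
open scoped ENNReal

namespace Pool.Agent.Helper33.HK

open Pool.Agent.K3h68.IL Pool.Agent.R202.STP

lemma singularPart_le {D ρ : Measure UnitAddCircle} {C : Set UnitAddCircle}
    (h : ∀ A, MeasurableSet A → ρ A = 0 → D (A ∩ C) = 0) : D.singularPart ρ univ ≤ D Cᶜ := by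
  obtain ⟨S, hS, hS1, hS2⟩ := D.mutuallySingular_singularPart ρ
  calc D.singularPart ρ univ ≤ D.singularPart ρ S + D.singularPart ρ Sᶜ := by
        rw [← union_compl_self S]
        exact measure_union_le _ _
    _ ≤ 0 + D Sᶜ := by
        rw [hS1]
        gcongr
        exact Measure.singularPart_le D ρ
    _ ≤ 0 + (D (Sᶜ ∩ C) + D Cᶜ) := by
        gcongr
        refine (measure_mono fun x hx => ?_).trans (measure_union_le _ _)
        by_cases hxC : x ∈ C
        · exact Or.inl ⟨hx, hxC⟩
        · exact Or.inr hxC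
    _ = D Cᶜ := by rw [h Sᶜ hS.compl hS2, zero_add, zero_add]

/-- asymptotic absolute continuity with respect to a jointly invariant measure -/
def AsymAC (p q : ℕ) (μ : Measure UnitAddCircle) : Prop :=
  ∃ ρ : Measure UnitAddCircle, IsProbabilityMeasure ρ ∧
    MeasurePreserving (fun x : UnitAddCircle => p • x) ρ ρ ∧
    MeasurePreserving (fun x : UnitAddCircle => q • x) ρ ρ ∧
    Tendsto (fun k => (img (q ^ k) μ).singularPart ρ univ) atTop (𝓝 0)

lemma vol_inv {n : ℕ} (hn : 0 < n) :
    MeasurePreserving (fun x : UnitAddCircle => n • x) (volume : Measure UnitAddCircle) volume :=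
  ⟨meas_nsmul n, img_vol hn⟩

theorem asym_of_primAC {p q r : ℕ} (hp : 2 ≤ p) (hq : 2 ≤ q) (hr : 2 ≤ r) (hrq : r ∣ q)
    (hrp : Nat.Coprime r p) {μ : Measure UnitAddCircle} [IsProbabilityMeasure μ]
    (hμ : MeasurePreserving (fun x : UnitAddCircle => p • x) μ μ) {K : Set ℕ}
    (hK : PosDensity K) (h : PrimAC q r μ K) : AsymAC p q μ := by
  have hvol := vol_prob
  by_cases hne : μ = volume
  · refine ⟨volume, hvol, vol_inv (by omega), vol_inv (by omega), ?_⟩
    have h0 : ∀ k, (img (q ^ k) μ).singularPart volume univ = 0 := by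
      intro k
      refine le_antisymm ?_ zero_le
      have h1 := singularPart_le (D := img (q ^ k) μ) (ρ := volume) (C := univ) (fun A hA h0 => by
        rw [hne, img_vol (pow_pos (by omega) k), inter_univ, h0])
      simpa using h1
    simp_rw [h0]
    exact tendsto_const_nhds
  obtain ⟨σ, c, b, hσp, hσ, hs, hc0, hct, hbt, hdec⟩ := split hp hμ hne
  have hac := uac_of_primAC' hp hq hr hrq hrp hσ hs (primAC_split (by omega) hc0 hct hbt hdec h)
  obtain ⟨ρ, C, hρ, hC, hC0, hCac, hlim⟩ := exists_asymp hp hq hr hrq hrp hσ hs hK hac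
  have hρp := hρ.1
  set π : Measure UnitAddCircle := (1 / 2 : ℝ≥0∞) • ρ + (1 / 2 : ℝ≥0∞) • volume with hπ
  have hhalf : (1 / 2 : ℝ≥0∞) + 1 / 2 = 1 := ENNReal.add_halves 1
  refine ⟨π, ⟨?_⟩, ?_, ?_, ?_⟩
  · rw [hπ]
    simp only [Measure.add_apply, Measure.smul_apply, measure_univ, smul_eq_mul, mul_one]
    exact hhalf
  · refine ⟨meas_nsmul p, ?_⟩
    rw [hπ, Measure.map_add _ _ (meas_nsmul p), Measure.map_smul, Measure.map_smul, hρ.2.1.map_eq,
      (vol_inv (by omega)).map_eq]
  · refine ⟨meas_nsmul q, ?_⟩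
    rw [hπ, Measure.map_add _ _ (meas_nsmul q), Measure.map_smul, Measure.map_smul, hρ.2.2.1.map_eq,
      (vol_inv (by omega)).map_eq]
  · have hle : ∀ k, (img (q ^ k) μ).singularPart π univ ≤ c * img (q ^ k) σ Cᶜ := by
      intro k
      obtain ⟨S, hS, hS1, hS2⟩ := (img (q ^ k) μ).mutuallySingular_singularPart π
      have hπ0 : ρ Sᶜ = 0 ∧ (volume : Measure UnitAddCircle) Sᶜ = 0 := by
        rw [hπ, Measure.add_apply, Measure.smul_apply, Measure.smul_apply, smul_eq_mul, smul_eq_mul,
          add_eq_zero] at hS2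
        have h2 : (1 / 2 : ℝ≥0∞) ≠ 0 := by simp
        exact ⟨(mul_eq_zero.1 hS2.1).resolve_left h2, (mul_eq_zero.1 hS2.2).resolve_left h2⟩
      have himg : ∀ A, MeasurableSet A →
          img (q ^ k) μ A = c * img (q ^ k) σ A + b * (volume : Measure UnitAddCircle) A := by
        intro A hA
        rw [img_apply _ _ hA, img_apply _ _ hA, hdec, Measure.add_apply, Measure.smul_apply,
          Measure.smul_apply, smul_eq_mul, smul_eq_mul,
          (vol_inv (pow_pos (by omega) k)).measure_preimage hA.nullMeasurableSet]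
      calc (img (q ^ k) μ).singularPart π univ
          ≤ (img (q ^ k) μ).singularPart π S + (img (q ^ k) μ).singularPart π Sᶜ := by
            rw [← union_compl_self S]
            exact measure_union_le _ _
        _ ≤ 0 + img (q ^ k) μ Sᶜ := by
            rw [hS1]
            gcongr
            exact Measure.singularPart_le _ _
        _ = c * img (q ^ k) σ Sᶜ := by rw [himg _ hS.compl, hπ0.2, mul_zero, add_zero, zero_add]
        _ ≤ c * (img (q ^ k) σ (Sᶜ ∩ C) + img (q ^ k) σ Cᶜ) := by
            gcongr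
            refine (measure_mono fun x hx => ?_).trans (measure_union_le _ _)
            by_cases hxC : x ∈ C
            · exact Or.inl ⟨hx, hxC⟩
            · exact Or.inr hxC
        _ = c * img (q ^ k) σ Cᶜ := by
            rw [(msum_null q σ (hS.compl.inter hC)).1 (hCac _ hS.compl hπ0.1) k, zero_add]
    have h1 : Tendsto (fun k => c * img (q ^ k) σ Cᶜ) atTop (𝓝 0) := by
      have := ENNReal.Tendsto.const_mul hlim (Or.inr hct)
      rwa [mul_zero] at this
    exact tendsto_of_tendsto_of_tendsto_of_le_of_le tendsto_const_nhds h1 (fun _ => zero_le) hle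

lemma iter_nsmul (q k : ℕ) :
    (fun x : UnitAddCircle => q • x)^[k] = fun x => (q ^ k) • x := by
  induction k with
  | zero => ext x; simp
  | succ k ih =>
    ext x
    rw [Function.iterate_succ_apply', ih]
    simp only [pow_succ', mul_smul]

lemma img_iter (q k : ℕ) (μ : Measure UnitAddCircle) :
    μ.map (fun x : UnitAddCircle => q • x)^[k] = img (q ^ k) μ := by
  rw [iter_nsmul, img]

theorem uac_of_asym {p q : ℕ} (hq : 2 ≤ q) {μ : Measure UnitAddCircle} [IsProbabilityMeasure μ]
    (h : AsymAC p q μ) : UAC q μ univ := by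
  obtain ⟨ρ, hρ, -, hρq, hlim⟩ := h
  refine uac_of_eventually (m := ρ) fun ε hε => ?_
  have hε2 : (0 : ℝ≥0∞) < ε / 2 := ENNReal.div_pos hε.ne' ENNReal.ofNat_ne_top
  obtain ⟨k₀, hk₀⟩ := (hlim.eventually_le_const hε2).exists
  set D := img (q ^ k₀) μ with hD
  have hDp : IsProbabilityMeasure D := Measure.isProbabilityMeasure_map (meas_nsmul _).aemeasurable
  have hint : ∫⁻ x, D.rnDeriv ρ x ∂ρ ≠ ∞ := (Measure.lintegral_rnDeriv_lt_top D ρ).ne
  obtain ⟨δ, hδ, hδ'⟩ := exists_pos_setLIntegral_lt_of_measure_lt hint hε2.ne'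
  have hδ2 : min (δ / 2) 1 < δ := by
    rcases eq_or_ne δ ∞ with h | h
    · rw [h]
      exact (min_le_right _ _).trans_lt ENNReal.one_lt_top
    · exact (min_le_left _ _).trans_lt (ENNReal.half_lt_self hδ.ne' h)
  refine ⟨min (δ / 2) 1, lt_min (ENNReal.div_pos hδ.ne' ENNReal.ofNat_ne_top) zero_lt_one, k₀,
    fun k _ hk A hA hmA => ?_⟩
  have e1 : img (q ^ k) μ A = D ((fun x : UnitAddCircle => (q ^ (k - k₀)) • x) ⁻¹' A) := by
    rw [← img_apply _ _ hA, hD, img_img, ← pow_add, show k₀ + (k - k₀) = k by omega]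
  have hA' : MeasurableSet ((fun x : UnitAddCircle => (q ^ (k - k₀)) • x) ⁻¹' A) :=
    (meas_nsmul _) hA
  have e2 : ρ ((fun x : UnitAddCircle => (q ^ (k - k₀)) • x) ⁻¹' A) = ρ A := by
    have h1 := (hρq.iterate (k - k₀)).measure_preimage hA.nullMeasurableSet
    rwa [iter_nsmul] at h1
  rw [e1]
  have hDs : SFinite D := inferInstance
  have hLD : D.HaveLebesgueDecomposition ρ := Measure.haveLebesgueDecomposition_of_sigmaFinite D ρ
  conv_lhs => rw [D.haveLebesgueDecomposition_add ρ]
  rw [Measure.add_apply, withDensity_apply _ hA']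
  calc D.singularPart ρ ((fun x : UnitAddCircle => (q ^ (k - k₀)) • x) ⁻¹' A) +
        ∫⁻ x in (fun x : UnitAddCircle => (q ^ (k - k₀)) • x) ⁻¹' A, D.rnDeriv ρ x ∂ρ
      ≤ ε / 2 + ε / 2 := by
        refine add_le_add ((measure_mono (subset_univ _)).trans hk₀) (hδ' _ ?_).le
        rw [e2]
        exact hmA.trans_lt hδ2
    _ = ε := ENNReal.add_halves ε

/-- the averages over windows -/
noncomputable def winAvg (q : ℕ) (μ : Measure UnitAddCircle) (M N : ℕ) (A : Set UnitAddCircle) : ℝ :=
  (N : ℝ)⁻¹ * ∑ i ∈ Finset.range N, (img (q ^ (M + i)) μ A).toReal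

lemma winAvg_eq_avg (q : ℕ) (μ : Measure UnitAddCircle) (N : ℕ) {A : Set UnitAddCircle}
    (hA : MeasurableSet A) : winAvg q μ 0 N A = avg (fun x : UnitAddCircle => q • x) μ N A := by
  unfold winAvg avg
  congr 1
  refine Finset.sum_congr rfl fun i _ => ?_
  rw [zero_add, img_apply _ _ hA, iter_nsmul]

lemma wav_toReal (q : ℕ) (μ : Measure UnitAddCircle) [IsProbabilityMeasure μ] (N M : ℕ)
    (A : Set UnitAddCircle) : (wav q μ N M A).toReal = winAvg q μ M N A := by
  unfold winAvg
  rw [wav_apply, ENNReal.toReal_mul, ENNReal.toReal_inv, ENNReal.toReal_natCast,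
    ENNReal.toReal_sum fun i _ => measure_ne_top _ _]

/-- the averages converge in norm to a jointly invariant measure -/
def NormConv (p q : ℕ) (μ : Measure UnitAddCircle) : Prop :=
  ∃ π : Measure UnitAddCircle, IsProbabilityMeasure π ∧
    MeasurePreserving (fun x : UnitAddCircle => p • x) π π ∧
    MeasurePreserving (fun x : UnitAddCircle => q • x) π π ∧
    ∀ ε : ℝ, 0 < ε → ∃ N₀ : ℕ, ∀ N ≥ N₀, ∀ A, MeasurableSet A →
      |winAvg q μ 0 N A - (π A).toReal| ≤ ε

theorem normConv_of_asym {p q : ℕ} (hq : 2 ≤ q) {μ : Measure UnitAddCircle}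
    [IsProbabilityMeasure μ] (hμ : MeasurePreserving (fun x : UnitAddCircle => p • x) μ μ)
    (h : AsymAC p q μ) : NormConv p q μ := by
  obtain ⟨m, hm, hmδ⟩ := uac_of_asym hq h
  obtain ⟨ρ, hρ, -, hρq, hlim⟩ := h
  have hcau := avg_cauchy (μ := μ) hρq (by simpa only [img_iter] using hlim)
  obtain ⟨F, π, hF, hπ, hc, hO⟩ := exists_limit q μ (fun j => j + 1) (fun _ => 0)
    (fun j => Nat.lt_succ_self j)
  have hip := limit_inv_p hμ hc
  have hiq := limit_inv_q (fun j => Nat.lt_succ_self j) hF hc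
  refine ⟨π, hπ, hip, hiq, ?_⟩
  -- the limits `α A`
  have hconv : ∀ A, MeasurableSet A → ∃ a : ℝ, Tendsto (fun N => winAvg q μ 0 N A) atTop (𝓝 a) := by
    intro A hA
    refine cauchySeq_tendsto_of_complete ?_
    rw [Metric.cauchySeq_iff]
    intro ε hε
    obtain ⟨N₀, hN₀⟩ := hcau (ε / 2) (by positivity)
    refine ⟨N₀, fun N hN N' hN' => ?_⟩
    rw [winAvg_eq_avg q μ N hA, winAvg_eq_avg q μ N' hA, Real.dist_eq]
    exact (hN₀ N hN N' hN' A hA).trans_lt (by linarith)
  choose! α hα using hconv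
  have hαF : ∀ A, MeasurableSet A →
      Tendsto (fun j => wav q μ (j + 1) 0 A) F (𝓝 (ENNReal.ofReal (α A))) := by
    intro A hA
    have h1 : Tendsto (fun j : ℕ => winAvg q μ 0 (j + 1) A) F (𝓝 (α A)) :=
      ((hα A hA).comp (tendsto_add_atTop_nat 1)).mono_left hF
    have h2 := ENNReal.tendsto_ofReal h1
    refine h2.congr fun j => ?_
    have := wav_prob q μ (Nat.succ_pos j) 0
    rw [← wav_toReal, ENNReal.ofReal_toReal (measure_ne_top _ _)]
  have hopen : ∀ O, IsOpen O → π O ≤ ENNReal.ofReal (α O) := by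
    intro O hOo
    refine (hO O hOo).trans ?_
    exact (hαF O hOo.measurableSet).liminf_eq.le
  have hle : ∀ A, MeasurableSet A → π A ≤ ENNReal.ofReal (α A) := by
    intro A hA
    refine ENNReal.le_of_forall_pos_le_add fun ε hε _ => ?_
    obtain ⟨δ, hδ, hδ'⟩ := hmδ ε (by exact_mod_cast hε)
    obtain ⟨U, hU1, hU2, _, hU3⟩ := hA.exists_isOpen_sdiff_lt (measure_ne_top m A) hδ.ne'
    refine (measure_mono hU1).trans ((hopen U hU2).trans ?_)
    have h1 : ∀ j : ℕ, wav q μ (j + 1) 0 U ≤ wav q μ (j + 1) 0 A + ε := by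
      intro j
      have h2 : wav q μ (j + 1) 0 (U \ A) ≤ ε := by
        rw [wav_apply]
        have h3 : ∑ i ∈ Finset.range (j + 1), img (q ^ (0 + i)) μ (U \ A) ≤ ((j + 1 : ℕ) : ℝ≥0∞) * ε := by
          calc ∑ i ∈ Finset.range (j + 1), img (q ^ (0 + i)) μ (U \ A)
              ≤ ∑ _i ∈ Finset.range (j + 1), (ε : ℝ≥0∞) :=
                Finset.sum_le_sum fun i _ => hδ' _ (mem_univ _) _ (hU2.measurableSet.diff hA) hU3.le
            _ = _ := by rw [Finset.sum_const, Finset.card_range, nsmul_eq_mul]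
        calc ((j + 1 : ℕ) : ℝ≥0∞)⁻¹ * ∑ i ∈ Finset.range (j + 1), img (q ^ (0 + i)) μ (U \ A)
            ≤ ((j + 1 : ℕ) : ℝ≥0∞)⁻¹ * (((j + 1 : ℕ) : ℝ≥0∞) * ε) := by gcongr
          _ = ε := by
              rw [← mul_assoc, ENNReal.inv_mul_cancel (by exact_mod_cast Nat.succ_ne_zero j)
                (ENNReal.natCast_ne_top _), one_mul]
      calc wav q μ (j + 1) 0 U ≤ wav q μ (j + 1) 0 (A ∪ U \ A) := by
            refine measure_mono fun x hx => ?_
            by_cases hxA : x ∈ A
            · exact Or.inl hxA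
            · exact Or.inr ⟨hx, hxA⟩
        _ ≤ _ := (measure_union_le _ _).trans (by gcongr)
    exact le_of_tendsto_of_tendsto' (hαF U hU2.measurableSet)
      ((hαF A hA).add tendsto_const_nhds) h1
  have hα0 : ∀ A, MeasurableSet A → 0 ≤ α A := fun A hA =>
    ge_of_tendsto' (hα A hA) fun N => by unfold winAvg; positivity
  have hαc : ∀ A, MeasurableSet A → α A + α Aᶜ = 1 := by
    intro A hA
    have h1 := (hα A hA).add (hα Aᶜ hA.compl)
    refine tendsto_nhds_unique h1 ?_
    refine tendsto_const_nhds.congr' ?_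
    filter_upwards [eventually_ge_atTop 1] with N hN
    unfold winAvg
    rw [← mul_add, ← Finset.sum_add_distrib]
    have h2 : ∀ i ∈ Finset.range N, (img (q ^ (0 + i)) μ A).toReal + (img (q ^ (0 + i)) μ Aᶜ).toReal
        = 1 := by
      intro i _
      have hprob : IsProbabilityMeasure (img (q ^ (0 + i)) μ) :=
        Measure.isProbabilityMeasure_map (meas_nsmul _).aemeasurable
      rw [← ENNReal.toReal_add (measure_ne_top _ _) (measure_ne_top _ _),
        measure_add_measure_compl hA, measure_univ, ENNReal.toReal_one]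
    rw [Finset.sum_congr rfl h2, Finset.sum_const, Finset.card_range, nsmul_eq_mul, mul_one,
      inv_mul_cancel₀ (by exact_mod_cast (by omega : N ≠ 0))]
  have heq : ∀ A, MeasurableSet A → (π A).toReal = α A := by
    intro A hA
    have h1 : (π A).toReal ≤ α A := by
      have := ENNReal.toReal_mono ENNReal.ofReal_ne_top (hle A hA)
      rwa [ENNReal.toReal_ofReal (hα0 A hA)] at this
    have h2 : (π Aᶜ).toReal ≤ α Aᶜ := by
      have := ENNReal.toReal_mono ENNReal.ofReal_ne_top (hle Aᶜ hA.compl)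
      rwa [ENNReal.toReal_ofReal (hα0 _ hA.compl)] at this
    have h3 : (π A).toReal + (π Aᶜ).toReal = 1 := by
      rw [← ENNReal.toReal_add (measure_ne_top _ _) (measure_ne_top _ _),
        measure_add_measure_compl hA, measure_univ, ENNReal.toReal_one]
    have h4 := hαc A hA
    linarith
  intro ε hε
  obtain ⟨N₀, hN₀⟩ := hcau ε hε
  refine ⟨N₀, fun N hN A hA => ?_⟩
  rw [heq A hA]
  have h1 : Tendsto (fun N' => |winAvg q μ 0 N A - winAvg q μ 0 N' A|) atTop
      (𝓝 |winAvg q μ 0 N A - α A|) := (tendsto_const_nhds.sub (hα A hA)).abs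
  refine le_of_tendsto h1 ?_
  filter_upwards [eventually_ge_atTop N₀] with N' hN'
  rw [winAvg_eq_avg q μ N hA, winAvg_eq_avg q μ N' hA]
  exact hN₀ N hN N' hN' A hA

/-- norm convergence of some averages over long windows -/
def SomeConv (q : ℕ) (μ : Measure UnitAddCircle) : Prop :=
  ∃ π : Measure UnitAddCircle, IsProbabilityMeasure π ∧
    ∀ ε : ℝ, 0 < ε → ∀ N₀ : ℕ, ∃ N ≥ N₀, ∃ M : ℕ, ∀ A, MeasurableSet A →
      |winAvg q μ M N A - (π A).toReal| ≤ ε

theorem asym_of_someConv {p q : ℕ} {μ : Measure UnitAddCircle}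
    [IsProbabilityMeasure μ] (hμ : MeasurePreserving (fun x : UnitAddCircle => p • x) μ μ)
    (h : SomeConv q μ) : AsymAC p q μ := by
  obtain ⟨π, hπ, hc⟩ := h
  have hprob : ∀ k, IsProbabilityMeasure (img (q ^ k) μ) := fun k =>
    Measure.isProbabilityMeasure_map (meas_nsmul _).aemeasurable
  -- invariance
  have hip : MeasurePreserving (fun x : UnitAddCircle => p • x) π π := by
    refine ⟨meas_nsmul p, Measure.ext fun A hA => ?_⟩
    rw [Measure.map_apply (meas_nsmul p) hA]
    have hpA := meas_nsmul p hA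
    have h1 : (π ((fun x : UnitAddCircle => p • x) ⁻¹' A)).toReal = (π A).toReal := by
      refine eq_of_abs_sub_le_all fun ε hε => ?_
      obtain ⟨N, -, M, hM⟩ := hc (ε / 2) (by positivity) 0
      have h2 : winAvg q μ M N ((fun x : UnitAddCircle => p • x) ⁻¹' A) = winAvg q μ M N A := by
        unfold winAvg
        congr 1
        refine Finset.sum_congr rfl fun i _ => ?_
        rw [(image_inv hμ (q ^ (M + i))).measure_preimage hA.nullMeasurableSet]
      have h3 := hM _ hpA
      have h4 := hM A hA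
      rw [h2] at h3
      rw [abs_le] at h3 h4 ⊢
      constructor <;> linarith
    exact (ENNReal.toReal_eq_toReal_iff' (measure_ne_top _ _) (measure_ne_top _ _)).1 h1
  have hiq : MeasurePreserving (fun x : UnitAddCircle => q • x) π π := by
    refine ⟨meas_nsmul q, Measure.ext fun A hA => ?_⟩
    rw [Measure.map_apply (meas_nsmul q) hA]
    have hqA := meas_nsmul q hA
    have h1 : (π ((fun x : UnitAddCircle => q • x) ⁻¹' A)).toReal = (π A).toReal := by
      refine eq_of_abs_sub_le_all fun ε hε => ?_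
      obtain ⟨N₀, hN₀⟩ := exists_nat_gt (2 / (ε / 2))
      obtain ⟨N, hN, M, hM⟩ := hc (ε / 4) (by positivity) (max N₀ 1)
      have hN0 : N₀ ≤ N := (le_max_left _ _).trans hN
      have hN1 : 1 ≤ N := (le_max_right _ _).trans hN
      have hNpos : (0 : ℝ) < N := by exact_mod_cast hN1
      have h2 : |winAvg q μ M N ((fun x : UnitAddCircle => q • x) ⁻¹' A) - winAvg q μ M N A| ≤
          ε / 2 := by
        unfold winAvg
        rw [← mul_sub, ← Finset.sum_sub_distrib]
        have h5 : ∀ i ∈ Finset.range N, (img (q ^ (M + i)) μ ((fun x : UnitAddCircle => q • x) ⁻¹' A)).toReal -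
            (img (q ^ (M + i)) μ A).toReal =
            (fun i => (img (q ^ (M + i)) μ A).toReal) (i + 1) -
              (fun i => (img (q ^ (M + i)) μ A).toReal) i := by
          intro i _
          beta_reduce
          congr 2
          rw [← img_apply _ _ hA, img_img, ← pow_succ, add_assoc]
        rw [Finset.sum_congr rfl h5, Finset.sum_range_sub (fun i => (img (q ^ (M + i)) μ A).toReal),
          abs_mul, abs_of_nonneg (by positivity : (0 : ℝ) ≤ (N : ℝ)⁻¹)]
        have a1 : (img (q ^ (M + N)) μ A).toReal ≤ 1 := measureReal_le_one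
        have a2 : (img (q ^ (M + 0)) μ A).toReal ≤ 1 := measureReal_le_one
        have a3 : 0 ≤ (img (q ^ (M + N)) μ A).toReal := ENNReal.toReal_nonneg
        have a4 : 0 ≤ (img (q ^ (M + 0)) μ A).toReal := ENNReal.toReal_nonneg
        have h6 : |(img (q ^ (M + N)) μ A).toReal - (img (q ^ (M + 0)) μ A).toReal| ≤ 2 := by
          rw [abs_le]
          constructor <;> linarith
        calc (N : ℝ)⁻¹ * |_| ≤ (N : ℝ)⁻¹ * 2 := by gcongr
          _ ≤ ε / 2 := by
              rw [inv_mul_le_iff₀ hNpos]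
              rw [div_lt_iff₀ (by positivity)] at hN₀
              have : (N₀ : ℝ) ≤ N := by exact_mod_cast hN0
              nlinarith
      have h3 := hM _ hqA
      have h4 := hM A hA
      rw [abs_le] at h2 h3 h4 ⊢
      constructor <;> linarith
    exact (ENNReal.toReal_eq_toReal_iff' (measure_ne_top _ _) (measure_ne_top _ _)).1 h1
  -- absolute continuity
  have hac : π ≪ msum q μ := by
    refine Measure.AbsolutelyContinuous.mk fun A hA h0 => ?_
    have h1 := (msum_null q μ hA).1 h0
    have h2 : (π A).toReal = 0 := by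
      refine eq_of_abs_sub_le_all fun ε hε => ?_
      obtain ⟨N, -, M, hM⟩ := hc ε hε 0
      have h3 := hM A hA
      have h4 : winAvg q μ M N A = 0 := by
        unfold winAvg
        rw [Finset.sum_eq_zero fun i _ => by rw [h1, ENNReal.toReal_zero], mul_zero]
      rw [h4, zero_sub, abs_neg] at h3
      rwa [sub_zero]
    exact (ENNReal.toReal_eq_zero_iff _).1 h2 |>.resolve_right (measure_ne_top _ _)
  obtain ⟨C, hC, hC0, hCac⟩ := exists_carrier hac
  have hCq : msum q μ (C \ (fun x : UnitAddCircle => q • x) ⁻¹' C) = 0 := by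
    have h1 : π ((fun x : UnitAddCircle => q • x) ⁻¹' C)ᶜ = 0 := by
      rw [← preimage_compl, hiq.measure_preimage hC.compl.nullMeasurableSet, hC0]
    have h2 := hCac _ ((meas_nsmul q) hC).compl h1
    rwa [inter_comm, ← Set.sdiff_eq] at h2
  have hD : ∀ k, img (q ^ k) μ (C \ (fun x : UnitAddCircle => q • x) ⁻¹' C) = 0 :=
    (msum_null q μ (hC.diff ((meas_nsmul q) hC))).1 hCq
  have hmono : Monotone fun k => img (q ^ k) μ C := by
    refine monotone_nat_of_le_succ fun k => ?_
    calc img (q ^ k) μ C ≤ img (q ^ k) μ ((fun x : UnitAddCircle => q • x) ⁻¹' C ∪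
          C \ (fun x : UnitAddCircle => q • x) ⁻¹' C) := by
          refine measure_mono fun x hx => ?_
          by_cases hx' : x ∈ (fun x : UnitAddCircle => q • x) ⁻¹' C
          · exact Or.inl hx'
          · exact Or.inr ⟨hx, hx'⟩
      _ ≤ img (q ^ k) μ ((fun x : UnitAddCircle => q • x) ⁻¹' C) + 0 := by
          rw [← hD k]
          exact measure_union_le _ _
      _ = img (q ^ (k + 1)) μ C := by
          rw [add_zero, ← img_apply _ _ hC, img_img, ← pow_succ]
  have hπC : (π C).toReal = 1 := by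
    have : π C = 1 := by
      have := prob_compl_eq_one_sub (μ := π) hC.compl
      rwa [compl_compl, hC0, tsub_zero] at this
    rw [this, ENNReal.toReal_one]
  have hlim : Tendsto (fun k => img (q ^ k) μ Cᶜ) atTop (𝓝 0) := by
    rw [ENNReal.tendsto_atTop_zero]
    intro ε hε
    obtain ⟨η, hη, hηε⟩ : ∃ η : ℝ, 0 < η ∧ ENNReal.ofReal η ≤ ε := by
      rcases eq_or_ne ε ∞ with h | h
      · exact ⟨1, one_pos, by rw [h]; exact le_top⟩
      · exact ⟨ε.toReal, ENNReal.toReal_pos hε.ne' h, by rw [ENNReal.ofReal_toReal h]⟩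
    obtain ⟨N, hN, M, hM⟩ := hc η hη 1
    have hNpos : (0 : ℝ) < N := by exact_mod_cast (show 0 < N by omega)
    have h1 := hM C hC
    rw [hπC] at h1
    have h2 : winAvg q μ M N C ≤ (img (q ^ (M + N)) μ C).toReal := by
      unfold winAvg
      rw [inv_mul_le_iff₀ hNpos]
      calc ∑ i ∈ Finset.range N, (img (q ^ (M + i)) μ C).toReal
          ≤ ∑ _i ∈ Finset.range N, (img (q ^ (M + N)) μ C).toReal := by
            refine Finset.sum_le_sum fun i hi => ?_
            have := Finset.mem_range.1 hi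
            exact ENNReal.toReal_mono (measure_ne_top _ _) (hmono (by omega))
        _ = _ := by rw [Finset.sum_const, Finset.card_range, nsmul_eq_mul]
    refine ⟨M + N, fun k hk => ?_⟩
    have h3 : (img (q ^ (M + N)) μ C).toReal ≤ (img (q ^ k) μ C).toReal :=
      ENNReal.toReal_mono (measure_ne_top _ _) (hmono hk)
    have h4 : (img (q ^ k) μ C).toReal + (img (q ^ k) μ Cᶜ).toReal = 1 := by
      rw [← ENNReal.toReal_add (measure_ne_top _ _) (measure_ne_top _ _),
        measure_add_measure_compl hC, measure_univ, ENNReal.toReal_one]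
    have h5 : (img (q ^ k) μ Cᶜ).toReal ≤ η := by
      rw [abs_le] at h1
      linarith
    calc img (q ^ k) μ Cᶜ = ENNReal.ofReal (img (q ^ k) μ Cᶜ).toReal :=
          (ENNReal.ofReal_toReal (measure_ne_top _ _)).symm
      _ ≤ ENNReal.ofReal η := ENNReal.ofReal_le_ofReal h5
      _ ≤ ε := hηε
  refine ⟨π, hπ, hip, hiq, ?_⟩
  refine tendsto_of_tendsto_of_tendsto_of_le_of_le tendsto_const_nhds hlim (fun _ => zero_le)
    fun k => ?_
  refine singularPart_le fun A hA h0 => ?_
  exact (msum_null q μ (hA.inter hC)).1 (hCac A hA h0) k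

end Pool.Agent.Helper33.HK
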