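import Pool.Agent.Helper33.HK.Struct
import Pool.Graph.R_seed8.W765.Sta4

/-!
# Full support
-/

set_option autoImplicit false

open MeasureTheory Filter Topology Set
open scoped ENNReal

namespace Pool.Agent.Helper33.HK

open Pool.Agent.K3h68.IL Pool.Agent.R202.STP

lemma mulIndep {p q r : ℕ} (hp : 2 ≤ p) (hr : 2 ≤ r) (hrq : r ∣ q)
    (hrp : Nat.Coprime r p) : Pool.Agent.H705R2.MulIndep p q := by
  intro m n h
  have hn : n = 0 := by
    by_contra hn
    have h1 : r ∣ p ^ m := by
      rw [h]
      exact hrq.trans (dvd_pow_self q hn)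
    have h2 : Nat.Coprime r (p ^ m) := Nat.Coprime.pow_right m hrp
    have h3 := Nat.eq_one_of_dvd_coprimes h2 dvd_rfl h1
    omega
  refine ⟨?_, hn⟩
  rw [hn, pow_zero] at h
  by_contra hm
  have := Nat.one_lt_pow hm (by omega : 1 < p)
  omega

/-- the image of a set under `x ↦ n x` -/
lemma vol_image_le {n : ℕ} (hn : 0 < n) {F : Set UnitAddCircle} (hF : MeasurableSet F)
    (hnF : MeasurableSet ((fun x : UnitAddCircle => n • x) '' F)) :
    (volume : Measure UnitAddCircle) ((fun x : UnitAddCircle => n • x) '' F) ≤ n * volume F := by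
  have h1 : (volume : Measure UnitAddCircle) ((fun x : UnitAddCircle => n • x) '' F) =
      volume ((fun x : UnitAddCircle => n • x) ⁻¹' ((fun x : UnitAddCircle => n • x) '' F)) :=
    ((vol_inv hn).measure_preimage hnF.nullMeasurableSet).symm
  rw [h1]
  have h2 : (fun x : UnitAddCircle => n • x) ⁻¹' ((fun x : UnitAddCircle => n • x) '' F) ⊆
      ⋃ t ∈ fib n 0, (fun x : UnitAddCircle => x + t) ⁻¹' F := by
    intro x hx
    obtain ⟨y, hy, hxy⟩ := hx
    refine mem_biUnion (x := y - x) (Finset.mem_coe.2 ?_) ?_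
    · rw [mem_fib hn, smul_sub]
      exact sub_eq_zero.2 hxy
    · show x + (y - x) ∈ F
      rwa [add_sub_cancel]
  refine (measure_mono h2).trans ((measure_biUnion_finset_le _ _).trans ?_)
  have h3 : ∀ t ∈ fib n 0, (volume : Measure UnitAddCircle) ((fun x : UnitAddCircle => x + t) ⁻¹' F) =
      volume F := fun t _ => measure_preimage_add_right _ _ _
  rw [Finset.sum_congr rfl h3, Finset.sum_const, card_fib hn, nsmul_eq_mul]

/-- a closed set mapped into itself, some image of which has positive measure -/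
lemma closed_full {p q r : ℕ} (hp : 2 ≤ p) (hq : 2 ≤ q) (hr : 2 ≤ r) (hrq : r ∣ q)
    (hrp : Nat.Coprime r p) {ρ : Measure UnitAddCircle} [IsProbabilityMeasure ρ]
    (hρq : MeasurePreserving (fun x : UnitAddCircle => q • x) ρ ρ) (hna : ∀ x, ρ {x} = 0)
    {F : Set UnitAddCircle} (hF : IsClosed F) (hFp : ∀ x ∈ F, p • x ∈ F) {k : ℕ}
    (hpos : ρ ((fun x : UnitAddCircle => (q ^ k) • x) '' F) ≠ 0) : F = univ := by
  have hdo := Pool.Agent.W765.Sta.dense_orbit hp hq (mulIndep hp hr hrq hrp) hna hρq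
  set n := q ^ k with hn
  have hn0 : 0 < n := pow_pos (by omega) k
  have hcl : IsClosed ((fun x : UnitAddCircle => n • x) '' F) :=
    (hF.isCompact.image (continuous_nsmul n)).isClosed
  -- a point with a dense orbit
  have hex : ∃ x ∈ (fun x : UnitAddCircle => n • x) '' F, Dense (range fun j : ℕ => p ^ j • x) := by
    by_contra hcon
    push Not at hcon
    apply hpos
    rw [← ae_iff.1 hdo]
    refine le_antisymm (measure_mono fun x hx => hcon x hx) ?_
    rw [ae_iff.1 hdo]
    exact zero_le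
  obtain ⟨x, hx, hxd⟩ := hex
  have hinv : ∀ y ∈ (fun x : UnitAddCircle => n • x) '' F, p • y ∈ (fun x : UnitAddCircle => n • x) '' F := by
    rintro _ ⟨z, hz, rfl⟩
    exact ⟨p • z, hFp z hz, smul_comm _ _ _⟩
  have hpow : ∀ j : ℕ, p ^ j • x ∈ (fun x : UnitAddCircle => n • x) '' F := by
    intro j
    induction j with
    | zero => simpa using hx
    | succ j ih =>
      rw [pow_succ', mul_smul]
      exact hinv _ ih
  have huniv : (fun x : UnitAddCircle => n • x) '' F = univ := by
    have h1 := hxd.closure_eq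
    have h2 : closure (range fun j : ℕ => p ^ j • x) ⊆ (fun x : UnitAddCircle => n • x) '' F := by
      refine closure_minimal ?_ hcl
      rintro _ ⟨j, rfl⟩
      exact hpow j
    rw [h1] at h2
    exact univ_subset_iff.1 h2
  have hvol := vol_prob
  have h3 := vol_image_le hn0 hF.measurableSet (by rw [huniv]; exact MeasurableSet.univ)
  rw [huniv, measure_univ] at h3
  have hF0 : (volume : Measure UnitAddCircle) F ≠ 0 := by
    intro h0
    rw [h0, mul_zero] at h3
    exact absurd h3 (by simp)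
  have hlam : Ergodic (fun x : UnitAddCircle => p • x) (volume : Measure UnitAddCircle) :=
    AddCircle.ergodic_nsmul (by omega)
  have h4 : F ≤ᵐ[volume] (fun x : UnitAddCircle => p • x) ⁻¹' F :=
    Eventually.of_forall fun x hx => hFp x hx
  have h5 := hlam.ae_empty_or_univ_of_ae_le_preimage hF.measurableSet.nullMeasurableSet h4
  rcases h5 with h5 | h5
  · exact absurd (by rw [measure_congr h5, measure_empty]) hF0
  · have h6 : (volume : Measure UnitAddCircle) Fᶜ = 0 := by
      rw [← measure_empty (μ := (volume : Measure UnitAddCircle)), ← compl_univ]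
      exact measure_congr h5.compl
    have h7 : Fᶜ = ∅ := (hF.isOpen_compl.measure_eq_zero_iff volume).1 h6
    rwa [compl_empty_iff] at h7

/-- the singular case -/
theorem supp_sing {p q r : ℕ} (hp : 2 ≤ p) (hq : 2 ≤ q) (hr : 2 ≤ r) (hrq : r ∣ q)
    (hrp : Nat.Coprime r p) {σ : Measure UnitAddCircle} [IsProbabilityMeasure σ]
    (hσ : MeasurePreserving (fun x : UnitAddCircle => p • x) σ σ) (hs : σ ⟂ₘ volume)
    (hna : ∀ x, σ {x} = 0) {K : Set ℕ}
    (hK : PosDensity K) (h : UAC q σ K) {U : Set UnitAddCircle} (hU : IsOpen U) (hUne : U.Nonempty) :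
    σ U ≠ 0 := by
  intro h0
  obtain ⟨ρ, hρ, h1, h2, h3⟩ := exists_inv_sing hp hq hr hrq hrp hσ hs hK (h.primAC r)
  have hρna : ∀ x, ρ {x} = 0 := fun x => h3 ((msum_null q σ (measurableSet_singleton x)).2 fun k =>
    img_atomless hna (pow_pos (by omega) k) x)
  set O : Set UnitAddCircle := ⋃ n : ℕ, (fun x : UnitAddCircle => (p ^ n) • x) ⁻¹' U with hO
  have hOo : IsOpen O := isOpen_iUnion fun n => hU.preimage (continuous_nsmul _)
  have hO0 : σ O = 0 := by
    rw [hO, measure_iUnion_null_iff]
    intro n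
    have h4 := (hσ.iterate n).measure_preimage hU.measurableSet.nullMeasurableSet
    rw [iter_nsmul] at h4
    rw [h4, h0]
  have hFp : ∀ x ∈ Oᶜ, p • x ∈ Oᶜ := by
    intro x hx hpx
    apply hx
    obtain ⟨n, hn⟩ := mem_iUnion.1 hpx
    refine mem_iUnion.2 ⟨n + 1, ?_⟩
    show (p ^ (n + 1)) • x ∈ U
    rw [pow_succ, mul_smul]
    exact hn
  have hFc : IsClosed Oᶜ := hOo.isClosed_compl
  have hcl : ∀ k, IsClosed ((fun x : UnitAddCircle => (q ^ k) • x) '' Oᶜ) := fun k =>
    (hFc.isCompact.image (continuous_nsmul _)).isClosed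
  have hex : ∃ k, ρ ((fun x : UnitAddCircle => (q ^ k) • x) '' Oᶜ) ≠ 0 := by
    by_contra hcon
    push Not at hcon
    have h5 : ρ (⋃ k, (fun x : UnitAddCircle => (q ^ k) • x) '' Oᶜ) = 0 :=
      measure_iUnion_null_iff.2 hcon
    have h6 : ρ (⋃ k, (fun x : UnitAddCircle => (q ^ k) • x) '' Oᶜ)ᶜ = 0 := by
      refine h3 ((msum_null q σ (MeasurableSet.iUnion fun k => (hcl k).measurableSet).compl).2
        fun k => ?_)
      rw [img_apply _ _ (MeasurableSet.iUnion fun k => (hcl k).measurableSet).compl]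
      refine measure_mono_null ?_ hO0
      intro x hx
      by_contra hxO
      exact hx (mem_iUnion.2 ⟨k, x, hxO, rfl⟩)
    have h7 : ρ univ = 0 := by
      rw [← union_compl_self (⋃ k, (fun x : UnitAddCircle => (q ^ k) • x) '' Oᶜ)]
      exact measure_union_null h5 h6
    rw [measure_univ] at h7
    exact one_ne_zero h7
  obtain ⟨k, hk⟩ := hex
  have h8 := closed_full hp hq hr hrq hrp h2 hρna hFc hFp hk
  obtain ⟨x, hx⟩ := hUne
  have h9 : x ∈ Oᶜ := by rw [h8]; trivial
  exact h9 (mem_iUnion.2 ⟨0, by simpa using hx⟩)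

/-- **Full support of the invariant subsets.** -/
theorem supp_full {p q r : ℕ} (hp : 2 ≤ p) (hq : 2 ≤ q) (hr : 2 ≤ r) (hrq : r ∣ q)
    (hrp : Nat.Coprime r p) {μ : Measure UnitAddCircle} [IsProbabilityMeasure μ]
    (hμ : MeasurePreserving (fun x : UnitAddCircle => p • x) μ μ)
    (hna : ∀ x, μ {x} = 0) {K : Set ℕ}
    (hK : PosDensity K) (h : PrimAC q r μ K) {A : Set UnitAddCircle} (hA : MeasurableSet A)
    (hApos : 0 < μ A) (hAinv : ∀ᵐ x ∂μ, x ∈ A → p • x ∈ A)
    {U : Set UnitAddCircle} (hU : IsOpen U) (hUne : U.Nonempty) : 0 < μ (A ∩ U) := by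
  have hvol := vol_prob
  have hlam : Ergodic (fun x : UnitAddCircle => p • x) (volume : Measure UnitAddCircle) :=
    AddCircle.ergodic_nsmul (by omega)
  have hUv : (volume : Measure UnitAddCircle) U ≠ 0 := (hU.measure_pos volume hUne).ne'
  -- for Lebesgue measure
  have hvolA : (∀ᵐ x ∂(volume : Measure UnitAddCircle), x ∈ A → p • x ∈ A) →
      (volume : Measure UnitAddCircle) A ≠ 0 → (volume : Measure UnitAddCircle) (A ∩ U) ≠ 0 := by
    intro h1 h2
    rcases hlam.ae_empty_or_univ_of_ae_le_preimage hA.nullMeasurableSet h1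
      with h5 | h5
    · exact absurd (by rw [measure_congr h5, measure_empty]) h2
    · have h6 : (A ∩ U : Set UnitAddCircle) =ᵐ[volume] U := by
        have := h5.inter (EventuallyEq.refl (ae volume) U)
        rwa [univ_inter] at this
      rwa [measure_congr h6]
  rw [pos_iff_ne_zero]
  by_cases hne : μ = volume
  · rw [hne] at hApos hAinv ⊢
    exact hvolA hAinv hApos.ne'
  obtain ⟨σ, c, b, hσp, hσ, hs, hc0, hct, hbt, hdec⟩ := split hp hμ hne
  have hac := uac_of_primAC' hp hq hr hrq hrp hσ hs (primAC_split (by omega) hc0 hct hbt hdec h)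
  have hμA : ∀ B : Set UnitAddCircle, μ B = c * σ B + b * (volume : Measure UnitAddCircle) B := by
    intro B
    rw [hdec, Measure.add_apply, Measure.smul_apply, Measure.smul_apply, smul_eq_mul, smul_eq_mul]
  have hσac : σ ≪ μ := by
    refine Measure.AbsolutelyContinuous.mk fun B hB h0 => ?_
    rw [hμA, add_eq_zero] at h0
    exact (mul_eq_zero.1 h0.1).resolve_left hc0
  intro h0
  by_cases hσA : σ A = 0
  · -- the Lebesgue part
    have hb : b ≠ 0 := by
      intro hb
      rw [hμA, hσA, hb, mul_zero, zero_mul, add_zero] at hApos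
      exact lt_irrefl _ hApos
    have hvac : (volume : Measure UnitAddCircle) ≪ μ := by
      refine Measure.AbsolutelyContinuous.mk fun B hB h0 => ?_
      rw [hμA, add_eq_zero] at h0
      exact (mul_eq_zero.1 h0.2).resolve_left hb
    have h1 : (volume : Measure UnitAddCircle) A ≠ 0 := by
      intro h1
      rw [hμA, hσA, h1, mul_zero, mul_zero, add_zero] at hApos
      exact lt_irrefl _ hApos
    exact hvolA (hvac.ae_le hAinv) h1 (hvac h0)
  · -- the singular part
    have hTp : Measurable fun x : UnitAddCircle => p • x := meas_nsmul p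
    have hAinvσ : ∀ᵐ x ∂σ, x ∈ A → p • x ∈ A := hσac.ae_le hAinv
    have hAσ : (fun x : UnitAddCircle => p • x) ⁻¹' A =ᵐ[σ] A := by
      have h1 : A ≤ᵐ[σ] (fun x : UnitAddCircle => p • x) ⁻¹' A := hAinvσ
      refine (ae_eq_of_ae_subset_of_measure_ge h1 ?_ hA.nullMeasurableSet (measure_ne_top _ _)).symm
      exact (hσ.measure_preimage hA.nullMeasurableSet).le
    have hnt : σ A ≠ ∞ := measure_ne_top _ _
    set ν : Measure UnitAddCircle := (σ A)⁻¹ • σ.restrict A with hν
    have hνp : IsProbabilityMeasure ν := by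
      refine ⟨?_⟩
      rw [hν, Measure.smul_apply, Measure.restrict_apply MeasurableSet.univ, univ_inter, smul_eq_mul,
        ENNReal.inv_mul_cancel hσA hnt]
    have hνi : MeasurePreserving (fun x : UnitAddCircle => p • x) ν ν := by
      have h1 := hσ.restrict_preimage hA
      rw [Measure.restrict_congr_set hAσ] at h1
      exact ⟨hTp, by
        rw [hν, Measure.map_smul]
        exact congrArg _ h1.map_eq⟩
    have hνle : ν ≤ (σ A)⁻¹ • σ := by
      rw [hν]
      refine Measure.le_iff.2 fun B hB => ?_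
      simp only [Measure.smul_apply, smul_eq_mul]
      gcongr
      exact Measure.restrict_le_self
    have hνac : ν ≪ σ := Measure.AbsolutelyContinuous.mk fun B hB h0 => by
      have h1 : ν B ≤ (σ A)⁻¹ * σ B := hνle B
      rw [h0, mul_zero] at h1
      exact le_antisymm h1 zero_le
    have hνs : ν ⟂ₘ volume := hs.mono_ac hνac Measure.AbsolutelyContinuous.rfl
    have hνu : UAC q ν K := hac.of_le (ENNReal.inv_ne_zero.2 hnt) (ENNReal.inv_ne_top.2 hσA) hνle
    have hνna : ∀ x, ν {x} = 0 := fun x => hνac (hσac (hna x))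
    have h1 := supp_sing hp hq hr hrq hrp hνi hνs hνna hK hνu hU hUne
    apply h1
    rw [hν, Measure.smul_apply, Measure.restrict_apply hU.measurableSet, inter_comm, hσac h0,
      smul_zero]

end Pool.Agent.Helper33.HK
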