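import Pool.Agent.Helper33.HK.Lim

/-!
# The invariant measure produced by uniformly absolutely continuous primitive parts
-/

set_option autoImplicit false

open MeasureTheory Filter Topology Set
open scoped ENNReal

namespace Pool.Agent.Helper33.HK

open Pool.Agent.K3h68.IL Pool.Agent.R202.STP

/-- positive upper Banach density -/
def PosDensity (K : Set ℕ) : Prop :=
  ∃ d : ℝ, 0 < d ∧ ∀ N₀ : ℕ, ∃ N M : ℕ, N₀ ≤ N ∧ d * N ≤ ((K ∩ Set.Ico M (M + N)).ncard : ℝ)

/-- uniform absolute continuity of the images themselves -/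
theorem uac_of_primAC {p q r : ℕ} (hp : 2 ≤ p) (hq : 2 ≤ q) (hr : 2 ≤ r) (hrq : r ∣ q)
    (hrp : Nat.Coprime r p) {σ : Measure UnitAddCircle} [IsProbabilityMeasure σ]
    (hσ : MeasurePreserving (fun x : UnitAddCircle => p • x) σ σ) (hs : σ ⟂ₘ volume) {K : Set ℕ}
    {m : Measure UnitAddCircle}
    (hm : ∀ ε : ℝ≥0∞, 0 < ε → ∃ δ : ℝ≥0∞, 0 < δ ∧
      ∀ k ∈ K, ∀ A : Set UnitAddCircle, MeasurableSet A → m A ≤ δ →
        σ {x | (q ^ k) • x ∈ A} ≤ σ {x | (q ^ k) • x + uu r ∈ A} + ε)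
    {ε : ℝ≥0∞} (hε : 0 < ε) :
    ∃ δ : ℝ≥0∞, 0 < δ ∧ ∃ k₀ : ℕ, ∀ k ∈ K, k₀ ≤ k → ∀ A : Set UnitAddCircle, MeasurableSet A →
      m A ≤ δ → img (q ^ k) σ A ≤ ε := by
  have hr0 : 0 < r := by omega
  obtain ⟨B, hB, hBt, hBs⟩ := near' hp hq hr hrq hrp hσ hs
  have hε3 : (0 : ℝ≥0∞) < ε / 3 := ENNReal.div_pos hε.ne' ENNReal.ofNat_ne_top
  obtain ⟨δ, hδ, hδ'⟩ := hm (ε / 3) hε3
  obtain ⟨k₀, hk₀⟩ := eventually_atTop.1 (hBt.eventually_le_const hε3)
  have hu0 : uu r ≠ 0 := by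
    intro h
    have h1 := order_uu hr0
    rw [h, addOrderOf_zero] at h1
    omega
  refine ⟨δ, hδ, k₀, fun k hk hkk A hA hmA => ?_⟩
  have hT := meas_nsmul (q ^ k)
  have hC : MeasurableSet (A ∩ B k) := hA.inter (hB k)
  have hadd : Measurable fun x : UnitAddCircle => x + uu r := measurable_add_const _
  have h6 := hδ' k hk (A ∩ B k) hC ((measure_mono inter_subset_left).trans hmA)
  have e1 : img (q ^ k) σ (A ∩ B k) = σ {x | (q ^ k) • x ∈ A ∩ B k} := Measure.map_apply hT hC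
  have e2 : σ {x | (q ^ k) • x + uu r ∈ A ∩ B k} ≤ img (q ^ k) σ (B k)ᶜ := by
    refine le_trans ?_ (hBs k (uu r) (nsmul_uu hr0) hu0)
    rw [Measure.map_apply hT (hadd (hB k))]
    exact measure_mono fun x hx => hx.2
  have e3 : img (q ^ k) σ (B k)ᶜ ≤ ε / 3 := hk₀ k hkk
  calc img (q ^ k) σ A ≤ img (q ^ k) σ (A ∩ B k ∪ (B k)ᶜ) := by
        refine measure_mono fun x hx => ?_
        by_cases hxB : x ∈ B k
        · exact Or.inl ⟨hx, hxB⟩
        · exact Or.inr hxB
    _ ≤ img (q ^ k) σ (A ∩ B k) + img (q ^ k) σ (B k)ᶜ := measure_union_le _ _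
    _ ≤ (ε / 3 + ε / 3) + ε / 3 := by
        rw [e1]
        gcongr
        exact h6.trans (by gcongr; exact e2.trans e3)
    _ = ε := ENNReal.add_thirds ε

/-- the weighted sum of the images -/
noncomputable def msum (q : ℕ) (σ : Measure UnitAddCircle) : Measure UnitAddCircle :=
  Measure.sum fun k : ℕ => (1 / 2 : ℝ≥0∞) ^ (k + 1) • img (q ^ k) σ

lemma msum_apply (q : ℕ) (σ : Measure UnitAddCircle) {A : Set UnitAddCircle} (hA : MeasurableSet A) :
    msum q σ A = ∑' k : ℕ, (1 / 2 : ℝ≥0∞) ^ (k + 1) * img (q ^ k) σ A := by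
  unfold msum
  rw [Measure.sum_apply _ hA]
  rfl

lemma half_ne_zero (k : ℕ) : (1 / 2 : ℝ≥0∞) ^ (k + 1) ≠ 0 := by
  refine pow_ne_zero _ ?_
  simp

lemma msum_null (q : ℕ) (σ : Measure UnitAddCircle) {A : Set UnitAddCircle} (hA : MeasurableSet A) :
    msum q σ A = 0 ↔ ∀ k, img (q ^ k) σ A = 0 := by
  rw [msum_apply q σ hA, ENNReal.tsum_eq_zero]
  refine forall_congr' fun k => ?_
  rw [mul_eq_zero]
  exact ⟨fun h => h.resolve_left (half_ne_zero k), Or.inr⟩

instance msum_finite (q : ℕ) (σ : Measure UnitAddCircle) [IsProbabilityMeasure σ] :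
    IsFiniteMeasure (msum q σ) := by
  refine ⟨?_⟩
  rw [msum_apply q σ MeasurableSet.univ]
  simp only [measure_univ, mul_one]
  have : ∑' k : ℕ, (1 / 2 : ℝ≥0∞) ^ (k + 1) = 1 := by
    have := ENNReal.tsum_geometric_add_one (1 / 2 : ℝ≥0∞)
    rw [this]
    norm_num
    exact ENNReal.inv_mul_cancel (by norm_num) (by norm_num)
  rw [this]
  exact ENNReal.one_lt_top

lemma msum_q (q : ℕ) (σ : Measure UnitAddCircle) :
    (msum q σ).map (fun x : UnitAddCircle => q • x) ≪ msum q σ := by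
  refine Measure.AbsolutelyContinuous.mk fun A hA h => ?_
  rw [Measure.map_apply (meas_nsmul q) hA, msum_null q σ (meas_nsmul q hA)]
  intro k
  have h1 := (msum_null q σ hA).1 h (k + 1)
  rw [pow_succ, ← img_img] at h1
  rwa [img, Measure.map_apply (meas_nsmul q) hA] at h1

lemma msum_p {p : ℕ} (q : ℕ) {σ : Measure UnitAddCircle}
    (hσ : MeasurePreserving (fun x : UnitAddCircle => p • x) σ σ) :
    (msum q σ).map (fun x : UnitAddCircle => p • x) ≪ msum q σ := by
  refine Measure.AbsolutelyContinuous.mk fun A hA h => ?_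
  rw [Measure.map_apply (meas_nsmul p) hA, msum_null q σ (meas_nsmul p hA)]
  intro k
  have h1 := (msum_null q σ hA).1 h k
  have h2 := (image_inv hσ (q ^ k)).measure_preimage hA.nullMeasurableSet
  exact h2.trans h1

/-- the averages are bounded on sets on which many of the images are small -/
theorem wav_le {q : ℕ} {σ : Measure UnitAddCircle} [IsProbabilityMeasure σ] {K : Set ℕ} {d : ℝ}
    {N M k₀ : ℕ} (hN : 0 < N) (hd : d * N ≤ ((K ∩ Set.Ico M (M + N)).ncard : ℝ))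
    (hbig : (k₀ : ℝ) ≤ d / 2 * N) {O : Set UnitAddCircle}
    (hO : ∀ k ∈ K, k₀ ≤ k → img (q ^ k) σ O ≤ 1 / 2) :
    wav q σ N M O ≤ ENNReal.ofReal (1 - d / 4) := by
  classical
  set G : Finset ℕ := (Finset.range N).filter fun i => M + i ∈ K ∧ k₀ ≤ M + i with hG
  have hcard : (K ∩ Set.Ico M (M + N)).ncard ≤ G.card + k₀ := by
    have hsub : K ∩ Set.Ico M (M + N) ⊆ ((G.image fun i => M + i) ∪ Finset.range k₀ : Finset ℕ) := by
      rintro k ⟨hkK, hk1, hk2⟩
      rw [Finset.coe_union, Set.mem_union, Finset.mem_coe, Finset.mem_coe]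
      by_cases hkk : k₀ ≤ k
      · left
        rw [Finset.mem_image]
        refine ⟨k - M, ?_, by omega⟩
        rw [hG, Finset.mem_filter, Finset.mem_range]
        refine ⟨by omega, ?_, by omega⟩
        rw [show M + (k - M) = k by omega]
        exact hkK
      · right
        exact Finset.mem_range.2 (by omega)
    have h1 := Set.ncard_le_ncard hsub (Finset.finite_toSet _)
    rw [Set.ncard_coe_finset] at h1
    calc (K ∩ Set.Ico M (M + N)).ncard ≤ _ := h1
      _ ≤ (G.image fun i => M + i).card + (Finset.range k₀).card := Finset.card_union_le _ _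
      _ ≤ G.card + k₀ := by
          rw [Finset.card_range]
          exact Nat.add_le_add_right Finset.card_image_le _
  have hNR : (0 : ℝ) < N := by exact_mod_cast hN
  have hcR : d / 2 * N ≤ G.card := by
    have h1 : ((K ∩ Set.Ico M (M + N)).ncard : ℝ) ≤ G.card + k₀ := by exact_mod_cast hcard
    linarith
  have hprob := wav_prob q σ hN M
  rw [← ENNReal.ofReal_toReal (measure_ne_top (wav q σ N M) O)]
  refine ENNReal.ofReal_le_ofReal ?_
  rw [wav_apply, ENNReal.toReal_mul, ENNReal.toReal_inv, ENNReal.toReal_natCast,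
    ENNReal.toReal_sum fun i _ => measure_ne_top _ _]
  have hsum : ∑ i ∈ Finset.range N, (img (q ^ (M + i)) σ O).toReal ≤
      ∑ i ∈ Finset.range N, if (M + i ∈ K ∧ k₀ ≤ M + i) then (1 / 2 : ℝ) else 1 := by
    refine Finset.sum_le_sum fun i _ => ?_
    split_ifs with h
    · have h1 := hO (M + i) h.1 h.2
      have h2 := ENNReal.toReal_mono (by simp) h1
      simpa using h2
    · have h2 := ENNReal.toReal_mono ENNReal.one_ne_top
        (prob_le_one (μ := img (q ^ (M + i)) σ) (s := O))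
      simpa using h2
  have hval : ∑ i ∈ Finset.range N, (if (M + i ∈ K ∧ k₀ ≤ M + i) then (1 / 2 : ℝ) else 1) =
      N - G.card / 2 := by
    have h1 : ∀ i ∈ Finset.range N, (if (M + i ∈ K ∧ k₀ ≤ M + i) then (1 / 2 : ℝ) else 1) =
        1 - (if (M + i ∈ K ∧ k₀ ≤ M + i) then (1 / 2 : ℝ) else 0) := by
      intro i _
      split_ifs <;> norm_num
    rw [Finset.sum_congr rfl h1, Finset.sum_sub_distrib, Finset.sum_const, Finset.card_range,
      ← Finset.sum_filter, Finset.sum_const, nsmul_eq_mul, nsmul_eq_mul]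
    ring
  rw [hval] at hsum
  calc (N : ℝ)⁻¹ * ∑ i ∈ Finset.range N, (img (q ^ (M + i)) σ O).toReal
      ≤ (N : ℝ)⁻¹ * (N - G.card / 2) := by gcongr
    _ ≤ (N : ℝ)⁻¹ * (N - (d / 2 * N) / 2) := by gcongr
    _ = 1 - d / 4 := by
        field_simp
        ring

/-- **The invariant measure**, for singular measures. -/
theorem exists_inv_sing {p q r : ℕ} (hp : 2 ≤ p) (hq : 2 ≤ q) (hr : 2 ≤ r) (hrq : r ∣ q)
    (hrp : Nat.Coprime r p) {σ : Measure UnitAddCircle} [IsProbabilityMeasure σ]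
    (hσ : MeasurePreserving (fun x : UnitAddCircle => p • x) σ σ) (hs : σ ⟂ₘ volume) {K : Set ℕ}
    (hK : PosDensity K) (h : PrimAC q r σ K) :
    ∃ ρ : Measure UnitAddCircle, IsProbabilityMeasure ρ ∧
      MeasurePreserving (fun x : UnitAddCircle => p • x) ρ ρ ∧
      MeasurePreserving (fun x : UnitAddCircle => q • x) ρ ρ ∧ ρ ≪ msum q σ := by
  obtain ⟨d, hd, hdK⟩ := hK
  obtain ⟨m, hm, hmδ⟩ := h
  have hNM : ∀ j : ℕ, ∃ N M : ℕ, j < N ∧ d * N ≤ ((K ∩ Set.Ico M (M + N)).ncard : ℝ) := by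
    intro j
    obtain ⟨N, M, h1, h2⟩ := hdK (j + 1)
    exact ⟨N, M, h1, h2⟩
  choose N M hN hNM using hNM
  obtain ⟨F, ρ₀, hF, hρ₀, hc, hO⟩ := exists_limit q σ N M hN
  have hρ₀' : IsFiniteMeasure ρ₀ := inferInstance
  have hmf : IsFiniteMeasure (msum q σ) := msum_finite q σ
  have hms : SigmaFinite (msum q σ) := inferInstance
  have hrs : SFinite ρ₀ := inferInstance
  have hLD : ρ₀.HaveLebesgueDecomposition (msum q σ) :=
    Measure.haveLebesgueDecomposition_of_sigmaFinite ρ₀ (msum q σ)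
  have hip := limit_inv_p hσ hc
  have hiq := limit_inv_q hN hF hc
  set w := (msum q σ).withDensity (ρ₀.rnDeriv (msum q σ)) with hw
  have hdec : ρ₀ = ρ₀.singularPart (msum q σ) + w := ρ₀.haveLebesgueDecomposition_add (msum q σ)
  have hwρ : w ≤ ρ₀ := by
    conv_rhs => rw [hdec]
    exact Measure.le_add_left le_rfl
  have hwf : IsFiniteMeasure w := isFiniteMeasure_of_le ρ₀ hwρ
  have hwm : w ≪ msum q σ := withDensity_absolutelyContinuous _ _
  have hwp : MeasurePreserving (fun x : UnitAddCircle => p • x) w w := inv_ac_part hip (msum_p q hσ)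
  have hwq : MeasurePreserving (fun x : UnitAddCircle => q • x) w w := inv_ac_part hiq (msum_q q σ)
  have hw0 : w univ ≠ 0 := by
    intro hw0
    have hw0' : w = 0 := Measure.measure_univ_eq_zero.1 hw0
    have hsing : ρ₀ ⟂ₘ msum q σ := by
      rw [hdec, hw0', add_zero]
      exact Measure.mutuallySingular_singularPart _ _
    obtain ⟨S, hS, hS1, hS2⟩ := hsing
    have hτ : ∀ k, img (q ^ k) σ Sᶜ = 0 := (msum_null q σ hS.compl).1 hS2
    have hρS : ρ₀ Sᶜ = 1 := by rw [prob_compl_eq_one_sub hS, hS1, tsub_zero]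
    obtain ⟨δ, hδ, k₀, hδ'⟩ := uac_of_primAC hp hq hr hrq hrp hσ hs hmδ
      (ε := 1 / 2) (by simp)
    obtain ⟨U, hU1, hU2, _, hU3⟩ := hS.compl.exists_isOpen_sdiff_lt (measure_ne_top m Sᶜ) hδ.ne'
    have hUk : ∀ k ∈ K, k₀ ≤ k → img (q ^ k) σ U ≤ 1 / 2 := by
      intro k hk hkk
      calc img (q ^ k) σ U ≤ img (q ^ k) σ (U \ Sᶜ ∪ Sᶜ) :=
            measure_mono fun x hx => by
              by_cases hxS : x ∈ Sᶜ
              · exact Or.inr hxS
              · exact Or.inl ⟨hx, hxS⟩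
        _ ≤ img (q ^ k) σ (U \ Sᶜ) + img (q ^ k) σ Sᶜ := measure_union_le _ _
        _ ≤ 1 / 2 := by
            rw [hτ k, add_zero]
            exact hδ' k hk hkk _ (hU2.measurableSet.diff hS.compl) hU3.le
    have hev : ∀ᶠ j in atTop, wav q σ (N j) (M j) U ≤ ENNReal.ofReal (1 - d / 4) := by
      obtain ⟨J, hJ⟩ := exists_nat_gt ((k₀ : ℝ) / (d / 2))
      filter_upwards [eventually_ge_atTop J] with j hj
      refine wav_le (k₀ := k₀) (by have := hN j; omega) (hNM j) ?_ hUk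
      rw [div_lt_iff₀ (by positivity)] at hJ
      have h1 : (J : ℝ) ≤ N j := by exact_mod_cast (hj.trans (hN j).le)
      nlinarith
    have h1 : ρ₀ U ≤ ENNReal.ofReal (1 - d / 4) := by
      refine (hO U hU2).trans ?_
      refine (liminf_le_limsup).trans ?_
      exact limsup_le_of_le (h := hF hev)
    have h2 : (1 : ℝ≥0∞) ≤ ENNReal.ofReal (1 - d / 4) := by
      rw [← hρS]
      exact (measure_mono hU1).trans h1
    rw [ENNReal.one_le_ofReal] at h2
    linarith
  have hwt : w univ ≠ ∞ := measure_ne_top w univ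
  refine ⟨(w univ)⁻¹ • w, ⟨?_⟩, ?_, ?_, ?_⟩
  · rw [Measure.smul_apply, smul_eq_mul, ENNReal.inv_mul_cancel hw0 hwt]
  · exact ⟨meas_nsmul p, by rw [Measure.map_smul, hwp.map_eq]⟩
  · exact ⟨meas_nsmul q, by rw [Measure.map_smul, hwq.map_eq]⟩
  · exact (Measure.smul_absolutelyContinuous).trans hwm

end Pool.Agent.Helper33.HK
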